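import Pool.Agent.Lib.Nsh.Defs

/-! MP_602ccf, module Nsh.Approach (pure real sequences): the potential of the positive parts.

With `Φ t = ∑ i, max (u t i) 0 ^ 2 + ∑ i, max (v t i) 0 ^ 2`, prove `Φ (t + 1) ≤ Φ t + 2 n B ^ 2` for
`t < T`: for reals, `max (a + b) 0 ^ 2 ≤ (max a 0 + b) ^ 2 = max a 0 ^ 2 + 2 * (max a 0 * b) + b ^ 2`
(as `0 ≤ max (a + b) 0 ≤ |max a 0 + b|`; if `a + b ≤ 0` the left side is `0`), sum over `i`, use `hs`
and `b ^ 2 ≤ B ^ 2`.  Then `Φ T ≤ 2 n T B ^ 2`, and each square is at most `Φ T`.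
-/

namespace Nsh

open Finset

namespace ApproachAux

theorem step (a b B : ℝ) (hb : |b| ≤ B) :
    max (a + b) 0 ^ 2 ≤ max a 0 ^ 2 + 2 * (max a 0 * b) + B ^ 2 := by
  have h1 : max (a + b) 0 ^ 2 ≤ (max a 0 + b) ^ 2 := by
    rcases le_or_gt (a + b) 0 with h | h
    · rw [max_eq_right h]
      nlinarith [sq_nonneg (max a 0 + b)]
    · rw [max_eq_left h.le]
      have h2 : a ≤ max a 0 := le_max_left _ _
      exact pow_le_pow_left₀ h.le (by linarith) 2
  have h2 : b ^ 2 ≤ B ^ 2 := sq_le_sq.2 (hb.trans (le_abs_self B))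
  nlinarith

end ApproachAux

theorem approach {n T : ℕ} {B : ℝ} (u v : ℕ → ℕ → ℝ) (h0 : ∀ i < n, u 0 i = 0 ∧ v 0 i = 0)
    (hB : ∀ t < T, ∀ i < n, |u (t + 1) i - u t i| ≤ B ∧ |v (t + 1) i - v t i| ≤ B)
    (hs : ∀ t < T, (∑ i ∈ range n, max (u t i) 0 * (u (t + 1) i - u t i)) +
      ∑ i ∈ range n, max (v t i) 0 * (v (t + 1) i - v t i) ≤ 0) :
    ∀ i < n, max (u T i) 0 ^ 2 ≤ 2 * n * T * B ^ 2 ∧ max (v T i) 0 ^ 2 ≤ 2 * n * T * B ^ 2 := by
  have key : ∀ (w : ℕ → ℕ → ℝ) (t : ℕ), (∀ i < n, |w (t + 1) i - w t i| ≤ B) →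
      ∑ i ∈ range n, max (w (t + 1) i) 0 ^ 2 ≤ ∑ i ∈ range n, max (w t i) 0 ^ 2 +
        2 * ∑ i ∈ range n, max (w t i) 0 * (w (t + 1) i - w t i) + n * B ^ 2 := by
    intro w t hw
    calc ∑ i ∈ range n, max (w (t + 1) i) 0 ^ 2
        ≤ ∑ i ∈ range n, (max (w t i) 0 ^ 2 + 2 * (max (w t i) 0 * (w (t + 1) i - w t i)) +
            B ^ 2) := by
          refine Finset.sum_le_sum (fun i hi => ?_)
          have h := ApproachAux.step (w t i) (w (t + 1) i - w t i) B (hw i (Finset.mem_range.1 hi))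
          rwa [add_sub_cancel] at h
      _ = _ := by
          simp only [Finset.sum_add_distrib, ← Finset.mul_sum, Finset.sum_const,
            Finset.card_range, nsmul_eq_mul]
  have main : ∀ t ≤ T, (∑ i ∈ range n, max (u t i) 0 ^ 2) + ∑ i ∈ range n, max (v t i) 0 ^ 2 ≤
      2 * n * t * B ^ 2 := by
    intro t
    induction t with
    | zero =>
      intro _
      have h1 : ∑ i ∈ range n, max (u 0 i) 0 ^ 2 = 0 :=
        Finset.sum_eq_zero (fun i hi => by rw [(h0 i (Finset.mem_range.1 hi)).1]; simp)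
      have h2 : ∑ i ∈ range n, max (v 0 i) 0 ^ 2 = 0 :=
        Finset.sum_eq_zero (fun i hi => by rw [(h0 i (Finset.mem_range.1 hi)).2]; simp)
      rw [h1, h2]
      simp
    | succ t ih =>
      intro ht
      have h1 := key u t (fun i hi => (hB t (by omega) i hi).1)
      have h2 := key v t (fun i hi => (hB t (by omega) i hi).2)
      have h3 := hs t (by omega)
      have h4 := ih (by omega)
      push_cast
      nlinarith
  intro i hi
  have hT := main T le_rfl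
  have hu : max (u T i) 0 ^ 2 ≤ ∑ i ∈ range n, max (u T i) 0 ^ 2 :=
    Finset.single_le_sum (f := fun i => max (u T i) 0 ^ 2) (fun j _ => sq_nonneg _)
      (Finset.mem_range.2 hi)
  have hv : max (v T i) 0 ^ 2 ≤ ∑ i ∈ range n, max (v T i) 0 ^ 2 :=
    Finset.single_le_sum (f := fun i => max (v T i) 0 ^ 2) (fun j _ => sq_nonneg _)
      (Finset.mem_range.2 hi)
  have hu0 : 0 ≤ ∑ i ∈ range n, max (u T i) 0 ^ 2 := Finset.sum_nonneg (fun j _ => sq_nonneg _)
  have hv0 : 0 ≤ ∑ i ∈ range n, max (v T i) 0 ^ 2 := Finset.sum_nonneg (fun j _ => sq_nonneg _)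
  constructor <;> linarith

end Nsh
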