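import Pool.Agent.Lib.Nsh.Defs

/-! MP_602ccf: linearity and bounds for payoffs. -/

namespace Nsh

open Finset

variable {n : ℕ} {R C : ℕ → ℕ → ℝ} {x y u v : ℕ → ℝ} {α θ : ℝ}

theorem rv_cmb (i : ℕ) : rv n R (cmb α u v) i = α * rv n R u i + (1 - α) * rv n R v i := by
  unfold rv cmb
  rw [mul_sum, mul_sum, ← sum_add_distrib]
  refine sum_congr rfl (fun j _ => ?_)
  ring

theorem cv_cmb (j : ℕ) : cv n R (cmb α u v) j = α * cv n R u j + (1 - α) * cv n R v j := by
  unfold cv cmb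
  rw [mul_sum, mul_sum, ← sum_add_distrib]
  refine sum_congr rfl (fun j _ => ?_)
  ring

theorem bil_cmb_left : bil n R (cmb α u v) y = α * bil n R u y + (1 - α) * bil n R v y := by
  unfold bil cmb
  rw [mul_sum, mul_sum, ← sum_add_distrib]
  refine sum_congr rfl (fun j _ => ?_)
  ring

theorem bil_cmb_right : bil n R x (cmb α u v) = α * bil n R x u + (1 - α) * bil n R x v := by
  unfold bil
  rw [mul_sum, mul_sum, ← sum_add_distrib]
  refine sum_congr rfl (fun j _ => ?_)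
  rw [rv_cmb]
  ring

theorem bil_eq_cv : bil n R x y = ∑ j ∈ range n, cv n R x j * y j := by
  unfold bil rv cv
  simp only [mul_sum, sum_mul]
  rw [sum_comm]
  refine sum_congr rfl (fun j _ => sum_congr rfl (fun i _ => ?_))
  ring

theorem bil_pu_left {h : ℕ} (hh : h < n) : bil n R (pu h) y = rv n R y h := by
  unfold bil pu
  simp [hh]

theorem bil_pu_right {k : ℕ} (hk : k < n) : bil n R x (pu k) = cv n R x k := by
  rw [bil_eq_cv]
  unfold pu
  simp [hk]

theorem rv_pu {l : ℕ} (hl : l < n) (i : ℕ) : rv n R (pu l) i = R i l := by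
  unfold rv pu
  simp [hl]

theorem cv_pu {k : ℕ} (hk : k < n) (j : ℕ) : cv n R (pu k) j = R k j := by
  unfold cv pu
  simp [hk]

theorem mix_pu {h : ℕ} (hh : h < n) : Mix n (pu h) where
  nn i _ := by
    unfold pu
    split_ifs
    · exact zero_le_one
    · exact le_rfl
  sum := by
    unfold pu
    simp [hh]

theorem Mix.cmb (hu : Mix n u) (hv : Mix n v) (h0 : 0 ≤ α) (h1 : α ≤ 1) : Mix n (cmb α u v) where
  nn i hi := by
    unfold Nsh.cmb
    have := hu.nn i hi
    have := hv.nn i hi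
    have : 0 ≤ 1 - α := by linarith
    positivity
  sum := by
    unfold Nsh.cmb
    rw [sum_add_distrib, ← mul_sum, ← mul_sum, hu.sum, hv.sum]
    ring

theorem rv_nonneg (hR : U01 n R) (hy : Mix n y) {i : ℕ} (hi : i < n) : 0 ≤ rv n R y i :=
  sum_nonneg (fun j hj => mul_nonneg (hR i hi j (mem_range.1 hj)).1 (hy.nn j (mem_range.1 hj)))

theorem rv_le_one (hR : U01 n R) (hy : Mix n y) {i : ℕ} (hi : i < n) : rv n R y i ≤ 1 := by
  rw [← hy.sum]
  refine sum_le_sum (fun j hj => ?_)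
  have h1 := (hR i hi j (mem_range.1 hj)).2
  have h2 := hy.nn j (mem_range.1 hj)
  nlinarith

theorem cv_nonneg (hR : U01 n R) (hx : Mix n x) {j : ℕ} (hj : j < n) : 0 ≤ cv n R x j :=
  sum_nonneg (fun i hi => mul_nonneg (hx.nn i (mem_range.1 hi)) (hR i (mem_range.1 hi) j hj).1)

theorem cv_le_one (hR : U01 n R) (hx : Mix n x) {j : ℕ} (hj : j < n) : cv n R x j ≤ 1 := by
  rw [← hx.sum]
  refine sum_le_sum (fun i hi => ?_)
  have h1 := (hR i (mem_range.1 hi) j hj).2
  have h2 := hx.nn i (mem_range.1 hi)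
  nlinarith

theorem bil_le_of_rv_le (hx : Mix n x) {c : ℝ} (h : ∀ i < n, rv n R y i ≤ c) :
    bil n R x y ≤ c := by
  have h1 : bil n R x y ≤ ∑ i ∈ range n, x i * c :=
    sum_le_sum (fun i hi => mul_le_mul_of_nonneg_left (h i (mem_range.1 hi))
      (hx.nn i (mem_range.1 hi)))
  rw [← sum_mul, hx.sum, one_mul] at h1
  exact h1

theorem le_bil_of_le_rv (hx : Mix n x) {c : ℝ} (h : ∀ i < n, c ≤ rv n R y i) :
    c ≤ bil n R x y := by
  have h1 : ∑ i ∈ range n, x i * c ≤ bil n R x y :=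
    sum_le_sum (fun i hi => mul_le_mul_of_nonneg_left (h i (mem_range.1 hi))
      (hx.nn i (mem_range.1 hi)))
  rw [← sum_mul, hx.sum, one_mul] at h1
  exact h1

theorem bil_le_of_cv_le (hy : Mix n y) {c : ℝ} (h : ∀ j < n, cv n R x j ≤ c) :
    bil n R x y ≤ c := by
  rw [bil_eq_cv]
  have h1 : ∑ j ∈ range n, cv n R x j * y j ≤ ∑ j ∈ range n, c * y j :=
    sum_le_sum (fun i hi => mul_le_mul_of_nonneg_right (h i (mem_range.1 hi))
      (hy.nn i (mem_range.1 hi)))
  rw [← mul_sum, hy.sum, mul_one] at h1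
  exact h1

theorem le_bil_of_le_cv (hy : Mix n y) {c : ℝ} (h : ∀ j < n, c ≤ cv n R x j) :
    c ≤ bil n R x y := by
  rw [bil_eq_cv]
  have h1 : ∑ j ∈ range n, c * y j ≤ ∑ j ∈ range n, cv n R x j * y j :=
    sum_le_sum (fun i hi => mul_le_mul_of_nonneg_right (h i (mem_range.1 hi))
      (hy.nn i (mem_range.1 hi)))
  rw [← mul_sum, hy.sum, mul_one] at h1
  exact h1

theorem bil_nonneg (hR : U01 n R) (hx : Mix n x) (hy : Mix n y) : 0 ≤ bil n R x y :=
  le_bil_of_le_rv hx (fun _ hi => rv_nonneg hR hy hi)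

theorem bil_le_one (hR : U01 n R) (hx : Mix n x) (hy : Mix n y) : bil n R x y ≤ 1 :=
  bil_le_of_rv_le hx (fun _ hi => rv_le_one hR hy hi)

theorem exists_max (hn : 1 ≤ n) (f : ℕ → ℝ) : ∃ h < n, ∀ i < n, f i ≤ f h := by
  obtain ⟨h, hh, hm⟩ := exists_max_image (range n) f ⟨0, mem_range.2 hn⟩
  exact ⟨h, mem_range.1 hh, fun i hi => hm i (mem_range.2 hi)⟩

theorem Mix.pos (hx : Mix n x) : 1 ≤ n := by
  rcases Nat.eq_zero_or_pos n with h | h
  · subst h
    have := hx.sum
    simp at this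
  · exact h

theorem rv_tr (i : ℕ) : rv n (tr R) y i = cv n R y i := by
  unfold rv cv tr
  exact sum_congr rfl (fun _ _ => mul_comm _ _)

theorem cv_tr (j : ℕ) : cv n (tr R) x j = rv n R x j := by
  unfold rv cv tr
  exact sum_congr rfl (fun _ _ => mul_comm _ _)

theorem bil_tr : bil n (tr R) y x = bil n R x y := by
  rw [bil_eq_cv]
  unfold bil
  refine sum_congr rfl (fun i _ => ?_)
  rw [cv_tr, mul_comm]

theorem U01.tr (h : U01 n R) : U01 n (tr R) := fun i hi j hj => h j hj i hi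

theorem good_swap : Good n (tr C) (tr R) θ y x ↔ Good n R C θ x y := by
  unfold Good
  simp only [rv_tr, cv_tr, bil_tr]
  exact and_comm

end Nsh
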