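import Pool.Agent.Lib.Nsh.NDefs
import Pool.Agent.Lib.Nsh.Basic

/-! MP_602ccf, module Nsh.Cast: natural numbers and real numbers.

All: `unfold`, `push_cast`, `Finset.mul_sum`, `field_simp`.  `rm N A i j = A i j / N`,
`rl s x i = x i / s`.
`u01_rm`: `A i j ≤ N`.  `mix_rl`: `∑ x i / L = tot / L = 1`.
`top_spec`: `Finset.le_sup`, `Finset.exists_mem_eq_sup` (nonempty range).
`rv_le_mR`, `exists_mR` (and `C`): `cast_rn` (`cast_cn`) and `top_spec`, dividing by `N * L`.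
`argm_spec`: `Wsm.lst_spec` (`Pool/Agent/Lib/Wsm/Tab.lean`); existence: minimise the integer
`(F k : ℤ) - G k` over `range n` (`Finset.exists_min_image`).
-/

namespace Nsh

open Finset

theorem cast_rn {n N s : ℕ} (hN : 1 ≤ N) (hs : 1 ≤ s) (A : ℕ → ℕ → ℕ) (y : ℕ → ℕ) (i : ℕ) :
    (rn n A y i : ℝ) = N * s * rv n (rm N A) (rl s y) i := by
  have hN' : (N : ℝ) ≠ 0 := Nat.cast_ne_zero.2 (by omega)
  have hs' : (s : ℝ) ≠ 0 := Nat.cast_ne_zero.2 (by omega)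
  unfold rn rv rm rl
  push_cast
  rw [mul_sum]
  refine sum_congr rfl (fun j _ => ?_)
  field_simp

theorem cast_cn {n N s : ℕ} (hN : 1 ≤ N) (hs : 1 ≤ s) (A : ℕ → ℕ → ℕ) (x : ℕ → ℕ) (j : ℕ) :
    (cn n A x j : ℝ) = N * s * cv n (rm N A) (rl s x) j := by
  have hN' : (N : ℝ) ≠ 0 := Nat.cast_ne_zero.2 (by omega)
  have hs' : (s : ℝ) ≠ 0 := Nat.cast_ne_zero.2 (by omega)
  unfold cn cv rm rl
  push_cast
  rw [mul_sum]
  refine sum_congr rfl (fun i _ => ?_)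
  field_simp

theorem cast_pn {n N s s' : ℕ} (hN : 1 ≤ N) (hs : 1 ≤ s) (hs' : 1 ≤ s') (A : ℕ → ℕ → ℕ)
    (x y : ℕ → ℕ) : (pn n A x y : ℝ) = N * s * s' * bil n (rm N A) (rl s x) (rl s' y) := by
  have hs0 : (s : ℝ) ≠ 0 := Nat.cast_ne_zero.2 (by omega)
  unfold pn bil
  push_cast
  rw [mul_sum]
  refine sum_congr rfl (fun i _ => ?_)
  rw [cast_rn hN hs' A y i]
  have : rl s x i = (x i : ℝ) / s := rfl
  rw [this]
  field_simp

theorem u01_rm {n N : ℕ} (hN : 1 ≤ N) {A : ℕ → ℕ → ℕ} (hA : ∀ i < n, ∀ j < n, A i j ≤ N) :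
    U01 n (rm N A) := by
  intro i hi j hj
  have hN' : (0 : ℝ) < N := Nat.cast_pos.2 (by omega)
  refine ⟨?_, ?_⟩
  · unfold rm
    positivity
  · unfold rm
    rw [div_le_one hN']
    exact_mod_cast hA i hi j hj

theorem mix_rl {n L : ℕ} (hL : 1 ≤ L) {x : ℕ → ℕ} (hx : tot n x = L) : Mix n (rl L x) := by
  have hL' : (L : ℝ) ≠ 0 := Nat.cast_ne_zero.2 (by omega)
  refine ⟨fun i _ => ?_, ?_⟩
  · unfold rl
    positivity
  · unfold rl
    rw [← sum_div, ← Nat.cast_sum]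
    have : ∑ i ∈ range n, x i = L := hx
    rw [this]
    exact div_self hL'

theorem top_spec {n : ℕ} (hn : 1 ≤ n) (f : ℕ → ℕ) :
    (∀ i < n, f i ≤ top n f) ∧ ∃ i < n, top n f = f i := by
  refine ⟨fun i hi => le_sup (f := f) (mem_range.2 hi), ?_⟩
  obtain ⟨i, hi, h⟩ := exists_mem_eq_sup (range n) ⟨0, mem_range.2 hn⟩ f
  exact ⟨i, mem_range.1 hi, h⟩

theorem argm_spec {n : ℕ} (hn : 1 ≤ n) (F G : ℕ → ℕ) :
    argm n F G < n ∧ ∀ k < n, F (argm n F G) + G k ≤ F k + G (argm n F G) := by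
  have hex : ∃ z < n, ∀ k' ∈ range n, F z + G k' ≤ F k' + G z := by
    obtain ⟨z, hz, hm⟩ := exists_min_image (range n) (fun k => (F k : ℤ) - G k)
      ⟨0, mem_range.2 hn⟩
    refine ⟨z, mem_range.1 hz, fun k' hk' => ?_⟩
    have := hm k' hk'
    omega
  obtain ⟨h1, h2, -⟩ := Pool.Agent.Lib.Wsm.lst_spec hex
  exact ⟨h1, fun k hk => h2 k (mem_range.2 hk)⟩

theorem rv_le_mR {g : Gm} {N L : ℕ} (hN : 1 ≤ N) (hL : 1 ≤ L) (hn : 1 ≤ g.n) (y : ℕ → ℕ) :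
    (∀ i < g.n, rv g.n (rm N g.A) (rl L y) i ≤ mR g N L y) ∧
      ∃ i < g.n, mR g N L y = rv g.n (rm N g.A) (rl L y) i := by
  have hN' : (0 : ℝ) < N := Nat.cast_pos.2 (by omega)
  have hL' : (0 : ℝ) < L := Nat.cast_pos.2 (by omega)
  have hNL : (0 : ℝ) < N * L := by positivity
  have key : ∀ i, rv g.n (rm N g.A) (rl L y) i = (rn g.n g.A y i : ℝ) / (N * L) := by
    intro i
    rw [cast_rn hN hL, mul_div_cancel_left₀ _ hNL.ne']
  obtain ⟨h1, i, hi, h2⟩ := top_spec hn (rn g.n g.A y)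
  refine ⟨fun i hi => ?_, i, hi, ?_⟩
  · rw [key]
    unfold mR
    exact div_le_div_of_nonneg_right (by exact_mod_cast h1 i hi) hNL.le
  · rw [key]
    unfold mR
    rw [h2]

theorem cv_le_mC {g : Gm} {N L : ℕ} (hN : 1 ≤ N) (hL : 1 ≤ L) (hn : 1 ≤ g.n) (x : ℕ → ℕ) :
    (∀ j < g.n, cv g.n (rm N g.B) (rl L x) j ≤ mC g N L x) ∧
      ∃ j < g.n, mC g N L x = cv g.n (rm N g.B) (rl L x) j := by
  have hN' : (0 : ℝ) < N := Nat.cast_pos.2 (by omega)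
  have hL' : (0 : ℝ) < L := Nat.cast_pos.2 (by omega)
  have hNL : (0 : ℝ) < N * L := by positivity
  have key : ∀ j, cv g.n (rm N g.B) (rl L x) j = (cn g.n g.B x j : ℝ) / (N * L) := by
    intro j
    rw [cast_cn hN hL, mul_div_cancel_left₀ _ hNL.ne']
  obtain ⟨h1, j, hj, h2⟩ := top_spec hn (cn g.n g.B x)
  refine ⟨fun j hj => ?_, j, hj, ?_⟩
  · rw [key]
    unfold mC
    exact div_le_div_of_nonneg_right (by exact_mod_cast h1 j hj) hNL.le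
  · rw [key]
    unfold mC
    rw [h2]

end Nsh
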