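import Pool.Agent.Lib.Nsh.Cast

/-! MP_602ccf, module Nsh.CastQ: value and weights as real numbers (`Nsh.Cast` is a black box).

`vr_eq`: `mR = top / (N L)`, `N L² bil (rm N A) (rl L x) (rl L y) = pn A x y` (`cast_pn`), so
`N L² fF = max (L top_R - pn A) (L top_C - pn B)` over the reals; each truncated difference is the
real difference because `pn A x y ≤ L top` (real: `bil ≤ mR` by `bil_le_of_rv_le` and `rv_le_mR`).
Since `fF ≥ 1 / N`, `N L² (fF - 1 / N) = max .. - L² ≥ 0`, so the last truncated difference is the real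
one too.  In general (`vr_le`) `vr ≤ fF` and `0 ≤ vr ≤ 1` (`fF ≤ 1`, `0 ≤ fF`, truncation at `0`).
`cast_qR`, `cast_qC`: for naturals `((a - b : ℕ) : ℝ) = max ((a : ℝ) - b) 0`; the inner difference
`top - rn .. r` is exact for `r < n` (`top_spec`); `(E - 1 : ℕ)` is exact as `1 ≤ E`.  Then
`N L² uR = (real) a - b` by `cast_rn` (with `s = 1` for the counters, `s = L` for `y`), `cast_pn`
(`s, s'` equal to `L` or `1`), `mR = top / (N L)`, `vr = vv / (N L²)`; and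
`max (c * u) 0 = c * max u 0` for `c > 0` (`mul_max_of_nonneg`).
-/

namespace Nsh

open Finset

private theorem bilA_le {g : Gm} {N L : ℕ} {x y : ℕ → ℕ} (H : Ok g N L x y) :
    bil g.n (rm N g.A) (rl L x) (rl L y) ≤ mR g N L y :=
  bil_le_of_rv_le (mix_rl H.hL H.tx) (rv_le_mR H.hN H.hL H.hn y).1

private theorem bilB_le {g : Gm} {N L : ℕ} {x y : ℕ → ℕ} (H : Ok g N L x y) :
    bil g.n (rm N g.B) (rl L x) (rl L y) ≤ mC g N L x :=
  bil_le_of_cv_le (mix_rl H.hL H.ty) (cv_le_mC H.hN H.hL H.hn x).1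

private theorem mR_le {g : Gm} {N L : ℕ} {x y : ℕ → ℕ} (H : Ok g N L x y) :
    mR g N L y ≤ 1 := by
  obtain ⟨i, hi, h⟩ := (rv_le_mR H.hN H.hL H.hn y).2
  rw [h]
  exact rv_le_one (u01_rm H.hN H.hA) (mix_rl H.hL H.ty) hi

private theorem mC_le {g : Gm} {N L : ℕ} {x y : ℕ → ℕ} (H : Ok g N L x y) :
    mC g N L x ≤ 1 := by
  obtain ⟨i, hi, h⟩ := (cv_le_mC H.hN H.hL H.hn x).2
  rw [h]
  exact cv_le_one (u01_rm H.hN H.hB) (mix_rl H.hL H.tx) hi

private theorem cast_topR {g : Gm} {N L : ℕ} (hN : 1 ≤ N) (hL : 1 ≤ L) (y : ℕ → ℕ) :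
    (top g.n (rn g.n g.A y) : ℝ) = N * L * mR g N L y := by
  have h1 : (N : ℝ) ≠ 0 := by positivity
  have h2 : (L : ℝ) ≠ 0 := by positivity
  unfold mR
  field_simp

private theorem cast_topC {g : Gm} {N L : ℕ} (hN : 1 ≤ N) (hL : 1 ≤ L) (x : ℕ → ℕ) :
    (top g.n (cn g.n g.B x) : ℝ) = N * L * mC g N L x := by
  have h1 : (N : ℝ) ≠ 0 := by positivity
  have h2 : (L : ℝ) ≠ 0 := by positivity
  unfold mC
  field_simp

private theorem cast_sub_max (a b : ℕ) : ((a - b : ℕ) : ℝ) = max ((a : ℝ) - b) 0 := by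
  rcases le_total b a with h | h
  · rw [Nat.cast_sub h, max_eq_left]
    exact sub_nonneg.2 (by exact_mod_cast h)
  · rw [Nat.sub_eq_zero_of_le h, Nat.cast_zero, max_eq_right]
    exact sub_nonpos.2 (by exact_mod_cast h)

theorem fF_nonneg {g : Gm} {N L : ℕ} {x y : ℕ → ℕ} (H : Ok g N L x y) : 0 ≤ fF g N L x y := by
  unfold fF
  exact le_max_of_le_left (sub_nonneg.2 (bilA_le H))

theorem fF_le_one {g : Gm} {N L : ℕ} {x y : ℕ → ℕ} (H : Ok g N L x y) : fF g N L x y ≤ 1 := by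
  unfold fF
  have h1 := mR_le H
  have h2 := mC_le H
  have h3 := bil_nonneg (u01_rm H.hN H.hA) (mix_rl H.hL H.tx) (mix_rl H.hL H.ty)
  have h4 := bil_nonneg (u01_rm H.hN H.hB) (mix_rl H.hL H.tx) (mix_rl H.hL H.ty)
  exact max_le (by linarith) (by linarith)

private theorem cast_vv {g : Gm} {N L : ℕ} {x y : ℕ → ℕ} (H : Ok g N L x y) :
    (vv g L x y : ℝ) = N * L ^ 2 * max (fF g N L x y - 1 / N) 0 := by
  have hN : (0 : ℝ) < N := by exact_mod_cast H.hN
  have hL : (0 : ℝ) < L := by exact_mod_cast H.hL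
  have hA := bilA_le H
  have hB := bilB_le H
  have e1 : ((L * top g.n (rn g.n g.A y) - pn g.n g.A x y : ℕ) : ℝ) =
      N * L ^ 2 * (mR g N L y - bil g.n (rm N g.A) (rl L x) (rl L y)) := by
    rw [cast_sub_max, Nat.cast_mul, cast_topR H.hN H.hL, cast_pn H.hN H.hL H.hL, max_eq_left]
    · ring
    · have : (L : ℝ) * (N * L * mR g N L y) -
          N * L * L * bil g.n (rm N g.A) (rl L x) (rl L y) =
          N * L ^ 2 * (mR g N L y - bil g.n (rm N g.A) (rl L x) (rl L y)) := by ring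
      rw [this]
      exact mul_nonneg (by positivity) (sub_nonneg.2 hA)
  have e2 : ((L * top g.n (cn g.n g.B x) - pn g.n g.B x y : ℕ) : ℝ) =
      N * L ^ 2 * (mC g N L x - bil g.n (rm N g.B) (rl L x) (rl L y)) := by
    rw [cast_sub_max, Nat.cast_mul, cast_topC H.hN H.hL, cast_pn H.hN H.hL H.hL, max_eq_left]
    · ring
    · have : (L : ℝ) * (N * L * mC g N L x) -
          N * L * L * bil g.n (rm N g.B) (rl L x) (rl L y) =
          N * L ^ 2 * (mC g N L x - bil g.n (rm N g.B) (rl L x) (rl L y)) := by ring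
      rw [this]
      exact mul_nonneg (by positivity) (sub_nonneg.2 hB)
  unfold vv
  rw [cast_sub_max, Nat.cast_max, e1, e2, ← mul_max_of_nonneg _ _ (by positivity)]
  have e3 : ((L * L : ℕ) : ℝ) = N * L ^ 2 * (1 / N) := by
    push_cast
    field_simp
  rw [e3, ← mul_sub]
  have e4 : (0 : ℝ) = N * L ^ 2 * 0 := by ring
  conv_lhs => rw [e4]
  rw [← mul_max_of_nonneg _ _ (by positivity)]
  rfl

private theorem vr_max {g : Gm} {N L : ℕ} {x y : ℕ → ℕ} (H : Ok g N L x y) :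
    vr g N L x y = max (fF g N L x y - 1 / N) 0 := by
  have hN : (0 : ℝ) < N := by exact_mod_cast H.hN
  have hL : (0 : ℝ) < L := by exact_mod_cast H.hL
  unfold vr
  rw [cast_vv H]
  field_simp

private theorem cast_vv' {g : Gm} {N L : ℕ} {x y : ℕ → ℕ} (H : Ok g N L x y) :
    (vv g L x y : ℝ) = N * L ^ 2 * vr g N L x y := by
  rw [vr_max H, cast_vv H]

theorem vr_eq {g : Gm} {N L : ℕ} {x y : ℕ → ℕ} (H : Ok g N L x y)
    (hf : 1 / (N : ℝ) ≤ fF g N L x y) : vr g N L x y = fF g N L x y - 1 / N := by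
  rw [vr_max H, max_eq_left (sub_nonneg.2 hf)]

theorem vr_le {g : Gm} {N L : ℕ} {x y : ℕ → ℕ} (H : Ok g N L x y) :
    0 ≤ vr g N L x y ∧ vr g N L x y ≤ 1 := by
  rw [vr_max H]
  refine ⟨le_max_right _ _, max_le ?_ zero_le_one⟩
  have h1 := fF_le_one H
  have h2 : (0 : ℝ) ≤ 1 / N := by positivity
  linarith

theorem cast_qR {g : Gm} {N E L : ℕ} {x y : ℕ → ℕ} (H : Ok g N L x y) (hE : 1 ≤ E) (t : ℕ)
    (ck cl : ℕ → ℕ) {r : ℕ} (hr : r < g.n) :
    (qR g E L x y t ck cl r : ℝ) =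
      N * L ^ 2 * max (uR g N E L x y t (rl 1 ck) (rl 1 cl) r) 0 := by
  have hN : (0 : ℝ) < N := by exact_mod_cast H.hN
  have hL : (0 : ℝ) < L := by exact_mod_cast H.hL
  have e1 : ((top g.n (rn g.n g.A y) - rn g.n g.A y r : ℕ) : ℝ) =
      N * L * mR g N L y - N * L * rv g.n (rm N g.A) (rl L y) r := by
    rw [Nat.cast_sub ((top_spec H.hn (rn g.n g.A y)).1 r hr), cast_topR H.hN H.hL,
      cast_rn H.hN H.hL]
  have e2 : (0 : ℝ) = N * L ^ 2 * 0 := by ring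
  conv_rhs => rw [mul_max_of_nonneg _ _ (by positivity : (0 : ℝ) ≤ N * L ^ 2), ← e2]
  unfold qR
  rw [cast_sub_max]
  congr 1
  push_cast
  rw [e1, Nat.cast_sub hE, cast_rn H.hN le_rfl, cast_pn H.hN H.hL H.hL, cast_pn H.hN le_rfl H.hL,
    cast_pn H.hN H.hL le_rfl, cast_vv' H]
  unfold uR
  push_cast
  ring

theorem cast_qC {g : Gm} {N E L : ℕ} {x y : ℕ → ℕ} (H : Ok g N L x y) (hE : 1 ≤ E) (t : ℕ)
    (ck cl : ℕ → ℕ) {c : ℕ} (hc : c < g.n) :
    (qC g E L x y t ck cl c : ℝ) =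
      N * L ^ 2 * max (uC g N E L x y t (rl 1 ck) (rl 1 cl) c) 0 := by
  have hN : (0 : ℝ) < N := by exact_mod_cast H.hN
  have hL : (0 : ℝ) < L := by exact_mod_cast H.hL
  have e1 : ((top g.n (cn g.n g.B x) - cn g.n g.B x c : ℕ) : ℝ) =
      N * L * mC g N L x - N * L * cv g.n (rm N g.B) (rl L x) c := by
    rw [Nat.cast_sub ((top_spec H.hn (cn g.n g.B x)).1 c hc), cast_topC H.hN H.hL,
      cast_cn H.hN H.hL]
  have e2 : (0 : ℝ) = N * L ^ 2 * 0 := by ring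
  conv_rhs => rw [mul_max_of_nonneg _ _ (by positivity : (0 : ℝ) ≤ N * L ^ 2), ← e2]
  unfold qC
  rw [cast_sub_max]
  congr 1
  push_cast
  rw [e1, Nat.cast_sub hE, cast_cn H.hN le_rfl, cast_pn H.hN H.hL H.hL, cast_pn H.hN le_rfl H.hL,
    cast_pn H.hN H.hL le_rfl, cast_vv' H]
  unfold uC
  push_cast
  ring

end Nsh
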