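import Mathlib

/-! MP_602ccf: the numerical heart of the analysis.

`k = ρ / (1 - ρ)`, `c = (1 - ρ) / ρ` for the dual weight `ρ` of a stationary point.
The hypotheses say that the midpoint pair and the two families of pairs are not approximate
equilibria; they are contradictory for `θ = 649 / 2000`. -/

namespace Nsh

/-- at the parameter where the first alternative is an equality the second one holds -/
theorem star_of_forall {θ u q W K S : ℝ} (hq : q < θ) (hu : θ < u)
    (h : ∀ α, 0 ≤ α → α ≤ 1 → θ < α * u + (1 - α) * q ∨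
      θ ≤ α / 2 * (W - S) + (1 - α) * (W + K)) :
    θ * (u - q) ≤ (θ - q) / 2 * (W - S) + (u - θ) * (W + K) := by
  have huq : 0 < u - q := by linarith
  have h0 : 0 ≤ (θ - q) / (u - q) := div_nonneg (by linarith) huq.le
  have h1 : (θ - q) / (u - q) ≤ 1 := by
    rw [div_le_one huq]
    linarith
  have hfirst : (θ - q) / (u - q) * u + (1 - (θ - q) / (u - q)) * q = θ := by
    field_simp
    ring
  rcases h _ h0 h1 with h2 | h2
  · rw [hfirst] at h2
    exact absurd h2 (lt_irrefl _)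
  · have h3 := mul_le_mul_of_nonneg_right h2 huq.le
    have h4 : ((θ - q) / (u - q) / 2 * (W - S) + (1 - (θ - q) / (u - q)) * (W + K)) * (u - q) =
        (θ - q) / 2 * (W - S) + (u - θ) * (W + K) := by
      field_simp
      ring
    rw [h4] at h3
    exact h3

namespace CoreNumAux

/-- the one-variable inequalities of the proof; `c = 1 / k` -/
theorem ineqs {k c : ℝ} (hkc : k * c = 1) (hk : 1 ≤ k) (hk2 : k ≤ 1351 / 649) :
    -- Φ₁
    0 < 649 / 4000 * ((2053 / 4000 * k - 649 / 4000) *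
        (-(4742010 / 20000000) + 2277990 / 40000000 * k + 4383995 / 20000000 * c) +
        649 / 4000 * (-(4742010 / 20000000) + 2277990 / 40000000 * c + 4383995 / 20000000 * k)) -
      ((2053 / 4000 * k - 649 / 4000) * (2053 / 4000 * c - 649 / 4000) - (649 / 4000) ^ 2) *
      ((1 - 4 * (649 / 2000) + 15 / 4 * (649 / 2000) ^ 2) +
        (1 - 9 / 2 * (649 / 2000) + 4 * (649 / 2000) ^ 2) * k +
        (5 / 4 * (649 / 2000) ^ 2 - 649 / 4000) * c) ∧
    -- Φ₂
    0 < 649 / 4000 * ((2053 / 4000 * k - 649 / 4000) *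
        (-(4742010 / 20000000) + 2277990 / 40000000 * k + 4383995 / 20000000 * c) +
        649 / 4000 * (-(4742010 / 20000000) + 2277990 / 40000000 * c + 4383995 / 20000000 * k)) -
      ((2053 / 4000 * k - 649 / 4000) * (649 / 4000 + 649 / 8000 * c) - (649 / 4000) ^ 2) *
      ((1 - 4 * (649 / 2000) + 15 / 4 * (649 / 2000) ^ 2) +
        (1 - 9 / 2 * (649 / 2000) + 4 * (649 / 2000) ^ 2) * k +
        (5 / 4 * (649 / 2000) ^ 2 - 649 / 4000) * c) ∧
    -- M₁, M₂
    0 < (2053 / 4000 * k - 649 / 4000) * (2053 / 4000 * c - 649 / 4000) - (649 / 4000) ^ 2 ∧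
    0 < (2053 / 4000 * k - 649 / 4000) * (649 / 4000 + 649 / 8000 * c) - (649 / 4000) ^ 2 ∧
    -- B₀
    0 < (2053 / 4000 * k - 649 / 4000) *
        (-(4742010 / 20000000) + 2277990 / 40000000 * k + 4383995 / 20000000 * c) +
        649 / 4000 * (-(4742010 / 20000000) + 2277990 / 40000000 * c + 4383995 / 20000000 * k) ∧
    -- B₁
    0 < (2053 / 4000 * k - 649 / 4000) *
        (-(4742010 / 20000000) + 2277990 / 40000000 * k + 4383995 / 20000000 * c) +
        649 / 4000 * (-(4742010 / 20000000) + 2277990 / 40000000 * c + 4383995 / 20000000 * k) +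
        ((649 / 4000) ^ 2 - (2053 / 4000 * c - 649 / 4000) * (2053 / 4000 * k - 649 / 4000)) *
        (1 - 2 * (649 / 2000) - 649 / 4000 * k) ∧
    -- B₂
    0 < (2053 / 4000 * k - 649 / 4000) *
        ((-(4742010 / 20000000) + 2277990 / 40000000 * k + 4383995 / 20000000 * c) -
        (-(53 / 4000) + 649 / 4000 * c) * (1 - 2 * (649 / 2000) - 649 / 4000 * k)) +
        (649 / 2000 - (1 - 2 * (649 / 2000) - 649 / 4000 * k)) / 2 *
        ((-(4742010 / 20000000) + 2277990 / 40000000 * c + 4383995 / 20000000 * k) +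
        649 / 4000 * (1 - 2 * (649 / 2000) - 649 / 4000 * k)) ∧
    -- B₃
    0 < 649 / 2000 * (2053 / 4000 * k - 649 / 4000) -
        ((-(4742010 / 20000000) + 2277990 / 40000000 * c + 4383995 / 20000000 * k) +
        649 / 4000 * (1 - 2 * (649 / 2000) - 649 / 4000 * k)) := by
  obtain ⟨t, ht⟩ : ∃ t, t = k - 1 := ⟨_, rfl⟩
  have hk' : k = 1 + t := by linarith
  have ht0 : 0 ≤ t := by linarith
  have ht1 : t ≤ 11 / 10 := by linarith
  have hne : (1 + t : ℝ) ≠ 0 := by positivity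
  have hc : c = 1 / (1 + t) := by
    rw [hk'] at hkc
    field_simp
    linarith
  have h1t : (0 : ℝ) < 1 + t := by linarith
  subst hc
  subst hk'
  refine ⟨?_, ?_, ?_, ?_, ?_, ?_, ?_, ?_⟩
  · -- Phi1
    have hP : 0 < (39459499677 / 64000000000000) * t ^ 0 + (85034276499 / 256000000000000) * t ^ 1 + (1156598318303 / 256000000000000) * t ^ 2 + (2263884398091 / 256000000000000) * t ^ 3 + (95403622391 / 64000000000000) * t ^ 4 := by
      positivity
    have hQ : 0 < ((39459499677 / 64000000000000) * t ^ 0 + (85034276499 / 256000000000000) * t ^ 1 + (1156598318303 / 256000000000000) * t ^ 2 + (2263884398091 / 256000000000000) * t ^ 3 + (95403622391 / 64000000000000) * t ^ 4) / (1 + t) ^ 2 := by positivity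
    refine lt_of_lt_of_eq hQ ?_
    field_simp
    ring
  · -- Phi2
    have hP : 0 < (4209042123 / 2560000000000) * t ^ 0 + (-(28374158637 / 51200000000000)) * t ^ 1 + (-(265136540471 / 102400000000000)) * t ^ 2 + (409932398073 / 51200000000000) * t ^ 3 + (102326757203 / 12800000000000) * t ^ 4 := by
      nlinarith [mul_nonneg ht0 ht0, mul_nonneg (mul_nonneg ht0 ht0) ht0, mul_nonneg ht0 (sub_nonneg.2 ht1), mul_nonneg (mul_nonneg ht0 ht0) (sub_nonneg.2 ht1), mul_nonneg (mul_nonneg (mul_nonneg ht0 ht0) ht0) ht0, sq_nonneg (t - 1 / 4), mul_nonneg ht0 (sq_nonneg (t - 1 / 4)), mul_nonneg ht0 (sq_nonneg (t - 1 / 2))]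
    have hQ : 0 < ((4209042123 / 2560000000000) * t ^ 0 + (-(28374158637 / 51200000000000)) * t ^ 1 + (-(265136540471 / 102400000000000)) * t ^ 2 + (409932398073 / 51200000000000) * t ^ 3 + (102326757203 / 12800000000000) * t ^ 4) / (1 + t) ^ 2 := by positivity
    refine lt_of_lt_of_eq hQ ?_
    field_simp
    ring
  · -- M1
    have hP : 0 < (310003 / 3200000) * t ^ 0 + (310003 / 3200000) * t ^ 1 + (-(1332397 / 16000000)) * t ^ 2 := by
      nlinarith [mul_nonneg ht0 ht0, mul_nonneg (mul_nonneg ht0 ht0) ht0, mul_nonneg ht0 (sub_nonneg.2 ht1), mul_nonneg (mul_nonneg ht0 ht0) (sub_nonneg.2 ht1), mul_nonneg (mul_nonneg (mul_nonneg ht0 ht0) ht0) ht0, sq_nonneg (t - 1 / 4), mul_nonneg ht0 (sq_nonneg (t - 1 / 4)), mul_nonneg ht0 (sq_nonneg (t - 1 / 2))]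
    have hQ : 0 < ((310003 / 3200000) * t ^ 0 + (310003 / 3200000) * t ^ 1 + (-(1332397 / 16000000)) * t ^ 2) / (1 + t) ^ 1 := by positivity
    refine lt_of_lt_of_eq hQ ?_
    field_simp
    ring
  · -- M2
    have hP : 0 < (945593 / 16000000) * t ^ 0 + (4977181 / 32000000) * t ^ 1 + (1332397 / 16000000) * t ^ 2 := by
      positivity
    have hQ : 0 < ((945593 / 16000000) * t ^ 0 + (4977181 / 32000000) * t ^ 1 + (1332397 / 16000000) * t ^ 2) / (1 + t) ^ 1 := by positivity
    refine lt_of_lt_of_eq hQ ?_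
    field_simp
    ring
  · -- B0
    have hP : 0 < (80167597 / 4000000000) * t ^ 0 + (9459111 / 1000000000) * t ^ 1 + (-(24570853 / 3200000000)) * t ^ 2 + (467671347 / 16000000000) * t ^ 3 := by
      nlinarith [mul_nonneg ht0 ht0, mul_nonneg (mul_nonneg ht0 ht0) ht0, mul_nonneg ht0 (sub_nonneg.2 ht1), mul_nonneg (mul_nonneg ht0 ht0) (sub_nonneg.2 ht1), mul_nonneg (mul_nonneg (mul_nonneg ht0 ht0) ht0) ht0, sq_nonneg (t - 1 / 4), mul_nonneg ht0 (sq_nonneg (t - 1 / 4)), mul_nonneg ht0 (sq_nonneg (t - 1 / 2))]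
    have hQ : 0 < ((80167597 / 4000000000) * t ^ 0 + (9459111 / 1000000000) * t ^ 1 + (-(24570853 / 3200000000)) * t ^ 2 + (467671347 / 16000000000) * t ^ 3) / (1 + t) ^ 1 := by positivity
    refine lt_of_lt_of_eq hQ ?_
    field_simp
    ring
  · -- B1
    have hP : 0 < (112420227 / 64000000000) * t ^ 0 + (220540757 / 32000000000) * t ^ 1 + (152050241 / 6400000000) * t ^ 2 + (201191947 / 12800000000) * t ^ 3 := by
      positivity
    have hQ : 0 < ((112420227 / 64000000000) * t ^ 0 + (220540757 / 32000000000) * t ^ 1 + (152050241 / 6400000000) * t ^ 2 + (201191947 / 12800000000) * t ^ 3) / (1 + t) ^ 1 := by positivity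
    refine lt_of_lt_of_eq hQ ?_
    field_simp
    ring
  · -- B2
    have hP : 0 < (1096174629 / 128000000000) * t ^ 0 + (-(1109189127 / 128000000000)) * t ^ 1 + (-(68611083 / 128000000000)) * t ^ 2 + (5602947449 / 128000000000) * t ^ 3 := by
      nlinarith [mul_nonneg ht0 ht0, mul_nonneg (mul_nonneg ht0 ht0) ht0, mul_nonneg ht0 (sub_nonneg.2 ht1), mul_nonneg (mul_nonneg ht0 ht0) (sub_nonneg.2 ht1), mul_nonneg (mul_nonneg (mul_nonneg ht0 ht0) ht0) ht0, sq_nonneg (t - 1 / 4), mul_nonneg ht0 (sq_nonneg (t - 1 / 4)), mul_nonneg ht0 (sq_nonneg (t - 1 / 2))]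
    have hQ : 0 < ((1096174629 / 128000000000) * t ^ 0 + (-(1109189127 / 128000000000)) * t ^ 1 + (-(68611083 / 128000000000)) * t ^ 2 + (5602947449 / 128000000000) * t ^ 3) / (1 + t) ^ 1 := by positivity
    refine lt_of_lt_of_eq hQ ?_
    field_simp
    ring
  · -- B3
    have hP : 0 < (707613 / 16000000) * t ^ 0 + (149701 / 2000000) * t ^ 1 + (-(421201 / 16000000)) * t ^ 2 := by
      nlinarith [mul_nonneg ht0 ht0, mul_nonneg (mul_nonneg ht0 ht0) ht0, mul_nonneg ht0 (sub_nonneg.2 ht1), mul_nonneg (mul_nonneg ht0 ht0) (sub_nonneg.2 ht1), mul_nonneg (mul_nonneg (mul_nonneg ht0 ht0) ht0) ht0, sq_nonneg (t - 1 / 4), mul_nonneg ht0 (sq_nonneg (t - 1 / 4)), mul_nonneg ht0 (sq_nonneg (t - 1 / 2))]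
    have hQ : 0 < ((707613 / 16000000) * t ^ 0 + (149701 / 2000000) * t ^ 1 + (-(421201 / 16000000)) * t ^ 2) / (1 + t) ^ 1 := by positivity
    refine lt_of_lt_of_eq hQ ?_
    field_simp
    ring

/-- Case A with abstract coefficients: `τ = θ / 2`. -/
theorem caseA {aD aE KD KE g τ PA eD cf m2 q q' S S' : ℝ} (hτ : 0 < τ) (haD : 0 < aD)
    (hq : 0 ≤ q) (hqS : q ≤ S) (hq' : 0 ≤ q') (hqS' : q' ≤ S') (hM : S ≤ PA)
    (F1 : aD * PA = KD + g) (F2 : g < PA * eD) (F3 : g < 2 * τ ^ 2) (F4 : g ≤ 2 * τ * eD)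
    (F5 : PA ≤ 2 * τ)
    (hd : KD + τ * S' ≤ aD * (S - q) + q * (aD - eD + S' / 2))
    (he : q' < 2 * τ → KE + τ * S ≤ aE * (S' - q') + q' * (cf + S / 2))
    (hm2 : cf + PA / 2 ≤ m2) (J1 : 0 ≤ aD * aE - τ ^ 2) (J2 : 0 ≤ aD * m2 - τ ^ 2)
    (P1 : (aD * aE - τ ^ 2) * g < τ * (aD * KE + τ * KD))
    (P2 : (aD * m2 - τ ^ 2) * g < τ * (aD * KE + τ * KD)) : False := by
  have hS'0 : 0 ≤ S' := hq'.trans hqS'
  have h1 : aD * S ≤ aD * PA := mul_le_mul_of_nonneg_left hM haD.le
  have hgap : τ * S' ≤ g := by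
    by_contra hcon
    push Not at hcon
    rcases le_total (S' / 2) eD with h4 | h4
    · have h5 : 0 ≤ q * (eD - S' / 2) := mul_nonneg hq (by linarith)
      linarith
    · have h5 : PA * (eD - S' / 2) ≤ q * (eD - S' / 2) :=
        mul_le_mul_of_nonpos_right (by linarith) (by linarith)
      have h7 : 0 ≤ (2 * τ - PA) * S' := mul_nonneg (by linarith) hS'0
      linarith
  have hS'2 : S' < 2 * τ := by
    have h2 : τ * S' < τ * (2 * τ) := by linarith
    exact lt_of_mul_lt_mul_left h2 hτ.le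
  have e1 := he (by linarith)
  have hS'3 : S' / 2 ≤ eD := by
    have h2 : τ * S' ≤ τ * (2 * eD) := by linarith
    have := le_of_mul_le_mul_left h2 hτ
    linarith
  have d2 : KD + τ * S' ≤ aD * S := by
    have h5 : 0 ≤ q * (eD - S' / 2) := mul_nonneg hq (by linarith)
    linarith
  have fin : ∀ m : ℝ, 0 ≤ aD * m - τ ^ 2 → (aD * m - τ ^ 2) * g < τ * (aD * KE + τ * KD) →
      KE + τ * S ≤ m * S' → False := by
    intro m hm1 hm2 hm3
    have h2 := mul_le_mul_of_nonneg_left hm3 (mul_nonneg hτ.le haD.le)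
    have h3 := mul_le_mul_of_nonneg_left d2 (mul_nonneg hτ.le hτ.le)
    have h4 := mul_le_mul_of_nonneg_left hgap hm1
    nlinarith
  rcases le_total m2 aE with h5 | h5
  · refine fin _ J1 P1 ?_
    have h6 : q' * (cf + S / 2) ≤ q' * aE := mul_le_mul_of_nonneg_left (by linarith) hq'
    linarith
  · refine fin _ J2 P2 ?_
    have h6 : q' * (cf + S / 2) ≤ q' * m2 := mul_le_mul_of_nonneg_left (by linarith) hq'
    have h7 : aE * (S' - q') ≤ m2 * (S' - q') := mul_le_mul_of_nonneg_right h5 (by linarith)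
    linarith

/-- Case B with abstract coefficients. -/
theorem caseB {aD aE KD KE τ PB eD cf q q' S S' : ℝ} (hτ : 0 < τ) (haD : 0 < aD)
    (hq : 0 ≤ q) (hqS : q ≤ S) (hq' : 0 ≤ q') (hqS' : q' ≤ S') (hM : S' ≤ PB)
    (hPB : PB < 2 * τ) (heD : PB / 2 ≤ eD)
    (hd : q < 2 * τ → KD + τ * S' ≤ aD * (S - q) + q * (aD - eD + S' / 2))
    (he : KE + τ * S ≤ aE * (S' - q') + q' * (cf + S / 2))
    (J1 : 0 ≤ aD * aE - τ ^ 2)
    (B0 : 0 < aD * KE + τ * KD) (B1 : 0 < aD * KE + τ * KD + (τ ^ 2 - aE * aD) * PB)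
    (B2 : 0 < aD * (KE - cf * PB) + (2 * τ - PB) / 2 * (KD + τ * PB))
    (B3 : KD + τ * PB ≤ 2 * τ * aD) : False := by
  have hS'0 : 0 ≤ S' := hq'.trans hqS'
  have d2 : KD + τ * S' ≤ aD * S := by
    rcases lt_or_ge q (2 * τ) with h1 | h1
    · have d1 := hd h1
      have h5 : 0 ≤ q * (eD - S' / 2) := mul_nonneg hq (by linarith)
      linarith
    · have h2 : aD * (2 * τ) ≤ aD * S := mul_le_mul_of_nonneg_left (by linarith) haD.le
      have h3 : τ * S' ≤ τ * PB := mul_le_mul_of_nonneg_left hM hτ.le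
      linarith
  rcases le_total (cf + S / 2) aE with h5 | h5
  · have h6 : q' * (cf + S / 2) ≤ q' * aE := mul_le_mul_of_nonneg_left h5 hq'
    have h7 : KE + τ * S ≤ aE * S' := by linarith
    have h8 := mul_le_mul_of_nonneg_left h7 haD.le
    have h9 := mul_le_mul_of_nonneg_left d2 hτ.le
    have h10 := mul_le_mul_of_nonneg_left hM J1
    nlinarith
  · have h6 : aE * (S' - q') ≤ (cf + S / 2) * (S' - q') :=
      mul_le_mul_of_nonneg_right h5 (by linarith)
    have h7 : KE + τ * S ≤ (cf + S / 2) * S' := by linarith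
    have h8 := mul_le_mul_of_nonneg_left h7 haD.le
    have h9 := mul_le_mul_of_nonneg_left d2 (show (0 : ℝ) ≤ (2 * τ - S') / 2 by linarith)
    have h10 : aD * (KE - cf * S') + (2 * τ - S') / 2 * (KD + τ * S') ≤ 0 := by
      nlinarith
    have key : PB * (aD * (KE - cf * S') + (2 * τ - S') / 2 * (KD + τ * S')) =
        (PB - S') * (aD * KE + τ * KD) +
        S' * (aD * (KE - cf * PB) + (2 * τ - PB) / 2 * (KD + τ * PB)) +
        τ / 2 * (PB * S' * (PB - S')) := by ring
    have hb0 : 0 ≤ PB := hS'0.trans hM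
    rcases hS'0.eq_or_lt with h11 | h11
    · rw [← h11] at h10
      nlinarith
    · have h12 : 0 ≤ (PB - S') * (aD * KE + τ * KD) := mul_nonneg (by linarith) B0.le
      have h13 := mul_pos h11 B2
      have h14 : 0 ≤ τ / 2 * (PB * S' * (PB - S')) :=
        mul_nonneg (by linarith) (mul_nonneg (mul_nonneg hb0 hS'0) (by linarith))
      have h15 := mul_nonpos_of_nonneg_of_nonpos hb0 h10
      linarith

end CoreNumAux

open CoreNumAux

/-- the case `1 ≤ k` -/
theorem core_num_aux {k c p q p' q' : ℝ} (hkc : k * c = 1) (hk : 1 ≤ k)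
    (hk2 : 649 / 2000 * (1 + k) ≤ 1) (hp : 0 ≤ p) (hq : 0 ≤ q) (hp' : 0 ≤ p') (hq' : 0 ≤ q')
    (hM : p + q ≤ 1 - 2 * (649 / 2000) - 649 / 4000 * c ∨
      p' + q' ≤ 1 - 2 * (649 / 2000) - 649 / 4000 * k)
    (hD : ∀ α : ℝ, 0 ≤ α → α ≤ 1 → 649 / 2000 < α * (1 - 649 / 4000 * (1 + c)) + (1 - α) * q ∨
      649 / 2000 ≤ α / 2 * (1 - 649 / 2000 * (1 + k) - (p' + q')) +
        (1 - α) * (1 - 649 / 2000 * (1 + k) + k * p))
    (hE : ∀ α : ℝ, 0 ≤ α → α ≤ 1 → 649 / 2000 < α * (1 - 649 / 4000 * (1 + k)) + (1 - α) * q' ∨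
      649 / 2000 ≤ α / 2 * (1 - 649 / 2000 * (1 + c) - (p + q)) +
        (1 - α) * (1 - 649 / 2000 * (1 + c) + c * p')) : False := by
  have hk0 : 0 < k := by linarith
  have hc0 : 0 < c := by
    by_contra h
    push Not at h
    nlinarith
  have hc1 : c ≤ 1 := by nlinarith
  have hkm : k ≤ 1351 / 649 := by linarith
  have hcl : 649 / 1351 ≤ c := by nlinarith
  have hkcp : k * c * p = p := by rw [hkc, one_mul]
  have hkcp' : k * c * p' = p' := by rw [hkc, one_mul]
  have haD : 0 < 2053 / 4000 * k - 649 / 4000 := by linarith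
  have DS : q < 2 * (649 / 4000) →
      (-(4742010 / 20000000) + 2277990 / 40000000 * c + 4383995 / 20000000 * k) +
        649 / 4000 * (p' + q') ≤ (2053 / 4000 * k - 649 / 4000) * (p + q - q) +
      q * (2053 / 4000 * k - 649 / 4000 - (351 / 1000 * k - 149 / 1000) + (p' + q') / 2) := by
    intro hq2
    have h := star_of_forall (by linarith) (by linarith) hD
    linarith
  have ES : q' < 2 * (649 / 4000) →
      (-(4742010 / 20000000) + 2277990 / 40000000 * k + 4383995 / 20000000 * c) +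
        649 / 4000 * (p + q) ≤ (2053 / 4000 * c - 649 / 4000) * (p' + q' - q') +
      q' * (-(53 / 4000) + 649 / 4000 * c + (p + q) / 2) := by
    intro hq2
    have h := star_of_forall (by linarith) (by linarith) hE
    linarith
  clear hD hE
  obtain ⟨I1, I2, I3, I4, I5, I6, I7, I8⟩ := ineqs hkc hk hkm
  have h8 : 0 ≤ (k - 1) * (1 - c) := mul_nonneg (by linarith) (by linarith)
  rcases hM with hM | hM
  · refine caseA (aD := 2053 / 4000 * k - 649 / 4000) (aE := 2053 / 4000 * c - 649 / 4000)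
      (KD := -(4742010 / 20000000) + 2277990 / 40000000 * c + 4383995 / 20000000 * k)
      (KE := -(4742010 / 20000000) + 2277990 / 40000000 * k + 4383995 / 20000000 * c)
      (g := (1 - 4 * (649 / 2000) + 15 / 4 * (649 / 2000) ^ 2) +
        (1 - 9 / 2 * (649 / 2000) + 4 * (649 / 2000) ^ 2) * k +
        (5 / 4 * (649 / 2000) ^ 2 - 649 / 4000) * c) (τ := 649 / 4000)
      (PA := 1 - 2 * (649 / 2000) - 649 / 4000 * c) (eD := 351 / 1000 * k - 149 / 1000)
      (cf := -(53 / 4000) + 649 / 4000 * c) (m2 := 649 / 4000 + 649 / 8000 * c)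
      (S := p + q) (S' := p' + q') (q := q) (q' := q') (by norm_num) haD hq
      (by linarith) hq' (by linarith) hM ?_ ?_ (by linarith) (by linarith) (by linarith)
      (DS (by linarith)) ES (by linarith) I3.le I4.le (by linarith) (by linarith)
    · linear_combination (-(2053 / 4000 * (649 / 4000))) * hkc
    · linarith
  · exact caseB (aD := 2053 / 4000 * k - 649 / 4000) (aE := 2053 / 4000 * c - 649 / 4000)
      (KD := -(4742010 / 20000000) + 2277990 / 40000000 * c + 4383995 / 20000000 * k)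
      (KE := -(4742010 / 20000000) + 2277990 / 40000000 * k + 4383995 / 20000000 * c)
      (τ := 649 / 4000)
      (PB := 1 - 2 * (649 / 2000) - 649 / 4000 * k) (eD := 351 / 1000 * k - 149 / 1000)
      (cf := -(53 / 4000) + 649 / 4000 * c)
      (S := p + q) (S' := p' + q') (q := q) (q' := q') (by norm_num) haD hq
      (by linarith) hq' (by linarith) hM (by linarith) (by linarith) DS (ES (by linarith))
      I3.le I5 I6 (by linarith) (by linarith)

/-- **The numerical contradiction.** -/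
theorem core_num {k c p q p' q' : ℝ} (hkc : k * c = 1) (hk0 : 0 < k)
    (hk2 : 649 / 2000 * (1 + k) ≤ 1) (hc2 : 649 / 2000 * (1 + c) ≤ 1)
    (hp : 0 ≤ p) (hq : 0 ≤ q) (hp' : 0 ≤ p') (hq' : 0 ≤ q')
    (hM : p + q ≤ 1 - 2 * (649 / 2000) - 649 / 4000 * c ∨
      p' + q' ≤ 1 - 2 * (649 / 2000) - 649 / 4000 * k)
    (hD : ∀ α : ℝ, 0 ≤ α → α ≤ 1 → 649 / 2000 < α * (1 - 649 / 4000 * (1 + c)) + (1 - α) * q ∨
      649 / 2000 ≤ α / 2 * (1 - 649 / 2000 * (1 + k) - (p' + q')) +
        (1 - α) * (1 - 649 / 2000 * (1 + k) + k * p))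
    (hE : ∀ α : ℝ, 0 ≤ α → α ≤ 1 → 649 / 2000 < α * (1 - 649 / 4000 * (1 + k)) + (1 - α) * q' ∨
      649 / 2000 ≤ α / 2 * (1 - 649 / 2000 * (1 + c) - (p + q)) +
        (1 - α) * (1 - 649 / 2000 * (1 + c) + c * p')) : False := by
  rcases le_total 1 k with h | h
  · exact core_num_aux hkc h hk2 hp hq hp' hq' hM hD hE
  · have hck : c * k = 1 := by rw [mul_comm]; exact hkc
    have hc : 1 ≤ c := by
      by_contra hcon
      push Not at hcon
      nlinarith
    exact core_num_aux hck hc hc2 hp' hq' hp hq hM.symm hE hD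

end Nsh
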