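import Pool.Agent.Lib.Nsh.Basic
import Pool.Agent.Lib.Nsh.CoreNum

/-! MP_602ccf: at an approximate stationary point one of the tested pairs is good. -/

namespace Nsh

open Finset

/-- approximate stationary point `(x, y)` with dual `(ρ, w, z)` -/
structure Stat (n : ℕ) (R C : ℕ → ℕ → ℝ) (x y w z : ℕ → ℝ) (ρ g δ : ℝ) : Prop where
  hR : U01 n R
  hC : U01 n C
  hx : Mix n x
  hy : Mix n y
  hw : Mix n w
  hz : Mix n z
  ρ0 : 0 ≤ ρ
  ρ1 : ρ ≤ 1
  g0 : 649 / 2000 ≤ g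
  δ0 : 0 ≤ δ
  hA : ∀ x', Mix n x' →
    g ≤ (1 - ρ) * (bil n C x' z - bil n C x' y) + ρ * (bil n R w y - bil n R x' y)
  hB : ∀ y', Mix n y' →
    g ≤ ρ * (bil n R w y' - bil n R x y') + (1 - ρ) * (bil n C x z - bil n C x y')
  hw1 : ∀ i < n, rv n R y i ≤ bil n R w y + δ
  hz1 : ∀ j < n, cv n C x j ≤ bil n C x z + δ
  fR : ∀ i < n, rv n R y i ≤ bil n R x y + g + δ
  fC : ∀ j < n, cv n C x j ≤ bil n C x y + g + δ

namespace Stat

variable {n : ℕ} {R C : ℕ → ℕ → ℝ} {x y w z : ℕ → ℝ} {ρ g δ : ℝ}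

theorem swap (H : Stat n R C x y w z ρ g δ) : Stat n (tr C) (tr R) y x z w (1 - ρ) g δ where
  hR := H.hC.tr
  hC := H.hR.tr
  hx := H.hy
  hy := H.hx
  hw := H.hz
  hz := H.hw
  ρ0 := by linarith [H.ρ1]
  ρ1 := by linarith [H.ρ0]
  g0 := H.g0
  δ0 := H.δ0
  hA y' hy' := by
    have := H.hB y' hy'
    simp only [bil_tr]
    linarith
  hB x' hx' := by
    have := H.hA x' hx'
    simp only [bil_tr]
    linarith
  hw1 i hi := by
    rw [rv_tr, bil_tr]
    exact H.hz1 i hi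
  hz1 j hj := by
    rw [cv_tr, bil_tr]
    exact H.hw1 j hj
  fR i hi := by
    rw [rv_tr, bil_tr]
    exact H.fC i hi
  fC j hj := by
    rw [cv_tr, bil_tr]
    exact H.fR j hj

/-- the dual weight is not small -/
theorem le_rho (H : Stat n R C x y w z ρ g δ) : g ≤ ρ := by
  have h1 := H.hB z H.hz
  have h2 := bil_le_one H.hR H.hw H.hz
  have h3 := bil_nonneg H.hR H.hx H.hz
  have h4 := H.ρ0
  nlinarith

theorem wz (H : Stat n R C x y w z ρ g δ) {c : ℝ} (hc : ρ * (1 + c) = 1) :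
    649 / 2000 * (1 + c) ≤ bil n R w z - bil n R x z := by
  have h1 := H.hB z H.hz
  have h2 := H.le_rho
  have h3 := H.g0
  have h4 : 0 < 1 + c := by
    by_contra h
    push Not at h
    nlinarith
  have h5 : g * (1 + c) ≤ ρ * (bil n R w z - bil n R x z) * (1 + c) :=
    mul_le_mul_of_nonneg_right (by linarith) h4.le
  have h6 : ρ * (bil n R w z - bil n R x z) * (1 + c) = bil n R w z - bil n R x z := by
    linear_combination (bil n R w z - bil n R x z) * hc
  nlinarith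

theorem c_le (H : Stat n R C x y w z ρ g δ) {c : ℝ} (hc : ρ * (1 + c) = 1) :
    649 / 2000 * (1 + c) ≤ 1 := by
  have h1 := H.wz hc
  have h2 := bil_le_one H.hR H.hw H.hz
  have h3 := bil_nonneg H.hR H.hx H.hz
  linarith

theorem mid_row (H : Stat n R C x y w z ρ g δ) {h : ℕ}
    (hmax : ∀ i < n, rv n R (cmb (1 / 2) y z) i ≤ rv n R (cmb (1 / 2) y z) h) {M : ℝ}
    (hM' : ∃ i < n, M ≤ rv n R y i) {c : ℝ} (hc : ρ * (1 + c) = 1)
    (hbad : ¬ ∀ i < n, rv n R (cmb (1 / 2) y z) i ≤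
      bil n R (cmb (1 / 2) x w) (cmb (1 / 2) y z) + (649 / 2000 + δ)) :
    (M - rv n R y h) + (1 - rv n R z h) ≤ 1 - 2 * (649 / 2000) - 649 / 4000 * c := by
  push Not at hbad
  obtain ⟨i, hi, hbad⟩ := hbad
  obtain ⟨i0, hi0, hM'⟩ := hM'
  have h1 := hmax i hi
  have h2 := H.fR i0 hi0
  have h3 := H.hw1 i0 hi0
  have h4 := H.wz hc
  have h5 := bil_nonneg H.hR H.hx H.hz
  have h6 := H.g0
  have h7 := H.le_rho
  have h8 := H.hB z H.hz
  have h9 : 0 < 1 + c := by
    by_contra h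
    push Not at h
    nlinarith
  have h10 : 0 ≤ c := by
    have := H.ρ1
    by_contra h
    push Not at h
    nlinarith
  have h11 : g * (1 + c) ≤ bil n R w z - bil n R x z := by
    have h5 : g * (1 + c) ≤ ρ * (bil n R w z - bil n R x z) * (1 + c) :=
      mul_le_mul_of_nonneg_right (by linarith) h9.le
    have h6 : ρ * (bil n R w z - bil n R x z) * (1 + c) = bil n R w z - bil n R x z := by
      linear_combination (bil n R w z - bil n R x z) * hc
    linarith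
  rw [bil_cmb_left, bil_cmb_right, bil_cmb_right] at hbad
  rw [rv_cmb (R := R) (u := y) (v := z) h] at h1
  have h12 : 649 / 2000 * c ≤ g * c := mul_le_mul_of_nonneg_right h6 h10
  have h13 := H.δ0
  have h14 : g * (1 + c) = g + g * c := by ring
  rw [h14] at h11
  linarith

/-- row regret of a pair of the first family -/
theorem fam_row (H : Stat n R C x y w z ρ g δ) {h : ℕ} (hh : h < n) {c : ℝ}
    (hc : ρ * (1 + c) = 1) {α : ℝ} (h0 : 0 ≤ α)
    (hbad : ¬ ∀ i < n, rv n R z i ≤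
      bil n R (cmb α (cmb (1 / 2) x w) (pu h)) z + (649 / 2000 + δ)) :
    649 / 2000 < α * (1 - 649 / 4000 * (1 + c)) + (1 - α) * (1 - rv n R z h) := by
  push Not at hbad
  obtain ⟨i, hi, hbad⟩ := hbad
  have h2 := rv_le_one H.hR H.hz hi
  have h3 := H.wz hc
  have h4 := bil_nonneg H.hR H.hx H.hz
  have h5 := H.δ0
  rw [bil_cmb_left, bil_cmb_left, bil_pu_left hh] at hbad
  nlinarith [mul_le_mul_of_nonneg_left h3 h0, mul_nonneg h0 h4]

/-- column regret of a pair of the first family -/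
theorem fam_col (H : Stat n R C x y w z ρ g δ) {h k : ℕ} (hh : h < n)
    (hmax : ∀ j < n, cv n C (cmb (1 / 2) x w) j ≤ cv n C (cmb (1 / 2) x w) k) {M1 M2 : ℝ}
    (hM1 : ∀ i < n, rv n R y i ≤ M1)
    (hM2 : ∃ j < n, M2 ≤ cv n C x j) {κ : ℝ}
    (hκ : (1 - ρ) * (1 + κ) = 1) {α : ℝ} (h0 : 0 ≤ α) (h1 : α ≤ 1)
    (hbad : ¬ ∀ j < n, cv n C (cmb α (cmb (1 / 2) x w) (pu h)) j ≤
      bil n C (cmb α (cmb (1 / 2) x w) (pu h)) z + (649 / 2000 + δ)) :
    649 / 2000 ≤ α / 2 * (1 - 649 / 2000 * (1 + κ) -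
        ((M2 - cv n C x k) + (1 - cv n C w k))) +
      (1 - α) * (1 - 649 / 2000 * (1 + κ) + κ * (M1 - rv n R y h)) := by
  push Not at hbad
  obtain ⟨j, hj, hbad⟩ := hbad
  obtain ⟨j0, hj0, hM2⟩ := hM2
  have e1 := hmax j hj
  have e2 := H.hz1 j0 hj0
  have hκp : 0 < 1 + κ := by
    have := H.ρ1
    by_contra h
    push Not at h
    nlinarith
  -- C(w, z)
  have e3 : 649 / 2000 * (1 + κ) ≤ bil n C w z := by
    have h := H.swap.wz (c := κ) hκ
    rw [bil_tr, bil_tr] at h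
    have h2 := bil_nonneg H.hC H.hw H.hy
    linarith
  -- C(h, z)
  have e4 : 649 / 2000 * (1 + κ) - κ * (M1 - rv n R y h) ≤ rv n C z h := by
    have h2 := H.hA (pu h) (mix_pu hh)
    rw [bil_pu_left hh, bil_pu_left hh, bil_pu_left hh] at h2
    have h3 : bil n R w y ≤ M1 := bil_le_of_rv_le H.hw hM1
    have h4 : 0 ≤ rv n C y h := rv_nonneg H.hC H.hy hh
    have h5 := H.g0
    have h6 := H.ρ0
    have h7 := H.ρ1
    have h8 : 649 / 2000 - ρ * (M1 - rv n R y h) ≤ (1 - ρ) * rv n C z h := by nlinarith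
    have h9 := mul_le_mul_of_nonneg_right h8 hκp.le
    have h10 : (1 - ρ) * rv n C z h * (1 + κ) = rv n C z h := by
      linear_combination (rv n C z h) * hκ
    have h11 : ρ * (1 + κ) = κ := by linear_combination -hκ
    have h12 : ρ * (M1 - rv n R y h) * (1 + κ) = κ * (M1 - rv n R y h) := by
      linear_combination (M1 - rv n R y h) * h11
    linarith
  have e5 : cv n C (pu h) j ≤ 1 := cv_le_one H.hC (mix_pu hh) hj
  have e6 := H.δ0
  rw [cv_cmb, bil_cmb_left, bil_cmb_left, bil_pu_left hh] at hbad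
  rw [cv_cmb (R := C) (u := x) (v := w) k] at e1
  have e7 : α * cv n C (cmb (1 / 2) x w) j ≤
      α * (1 / 2 * cv n C x k + (1 - 1 / 2) * cv n C w k) := mul_le_mul_of_nonneg_left e1 h0
  have e8 : (1 - α) * cv n C (pu h) j ≤ (1 - α) * 1 :=
    mul_le_mul_of_nonneg_left e5 (by linarith)
  have e9 : (1 - α) * (649 / 2000 * (1 + κ) - κ * (M1 - rv n R y h)) ≤
      (1 - α) * rv n C z h := mul_le_mul_of_nonneg_left e4 (by linarith)
  have e10 : α * (M2 - δ) ≤ α * bil n C x z := mul_le_mul_of_nonneg_left (by linarith) h0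
  have e11 : α * (649 / 2000 * (1 + κ)) ≤ α * bil n C w z := mul_le_mul_of_nonneg_left e3 h0
  have e12 : α * δ ≤ δ := by nlinarith
  nlinarith

end Stat

/-- the analysis of the algorithm -/
theorem game_core {n : ℕ} {R C : ℕ → ℕ → ℝ} {x y w z : ℕ → ℝ} {ρ g δ : ℝ}
    (H : Stat n R C x y w z ρ g δ) :
    Cand n R C (649 / 2000 + δ) x y w z (Set.Icc 0 1) := by
  have hn := H.hx.pos
  obtain ⟨h, hh, hmaxh⟩ := exists_max hn (rv n R (cmb (1 / 2) y z))
  obtain ⟨k, hk, hmaxk⟩ := exists_max hn (cv n C (cmb (1 / 2) x w))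
  obtain ⟨i1, hi1, hM1⟩ := exists_max hn (rv n R y)
  obtain ⟨j1, hj1, hM2⟩ := exists_max hn (cv n C x)
  have hρ := H.le_rho
  have hρ' := H.swap.le_rho
  have hg := H.g0
  have hρ0 : 0 < ρ := by linarith
  have hρ1 : 0 < 1 - ρ := by linarith
  by_contra hcon
  unfold Cand at hcon
  push Not at hcon
  obtain ⟨hc1, hc2, hc3⟩ := hcon
  have hc : ρ * (1 + (1 - ρ) / ρ) = 1 := by
    field_simp
    ring
  have hκ : (1 - ρ) * (1 + ρ / (1 - ρ)) = 1 := by
    field_simp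
    ring
  have hκ' : (1 - (1 - ρ)) * (1 + (1 - ρ) / ρ) = 1 := by
    rw [show 1 - (1 - ρ) = ρ by ring]
    exact hc
  have Hs := H.swap
  refine core_num (k := ρ / (1 - ρ)) (c := (1 - ρ) / ρ) (p := rv n R y i1 - rv n R y h)
    (q := 1 - rv n R z h) (p' := cv n C x j1 - cv n C x k) (q' := 1 - cv n C w k)
    ?_ ?_ ?_ ?_ ?_ ?_ ?_ ?_ ?_ ?_ ?_
  · field_simp
  · exact div_pos hρ0 hρ1
  · exact Hs.c_le hκ
  · exact H.c_le hc
  · linarith [hM1 h hh]
  · linarith [rv_le_one H.hR H.hz hh]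
  · linarith [hM2 k hk]
  · linarith [cv_le_one H.hC H.hw hk]
  · by_cases hrow : ∀ i < n, rv n R (cmb (1 / 2) y z) i ≤
        bil n R (cmb (1 / 2) x w) (cmb (1 / 2) y z) + (649 / 2000 + δ)
    · right
      have hcol : ¬ ∀ j < n, cv n C (cmb (1 / 2) x w) j ≤
          bil n C (cmb (1 / 2) x w) (cmb (1 / 2) y z) + (649 / 2000 + δ) :=
        fun h => hc1 ⟨hrow, h⟩
      have := Hs.mid_row (h := k) (M := cv n C x j1) (c := ρ / (1 - ρ))
        (by simpa only [rv_tr] using hmaxk) ⟨j1, hj1, by rw [rv_tr]⟩ hκ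
        (by simpa only [rv_tr, bil_tr] using hcol)
      rw [rv_tr, rv_tr] at this
      exact this
    · left
      exact H.mid_row (h := h) hmaxh ⟨i1, hi1, le_rfl⟩ hc hrow
  · intro α h0 h1
    have h2 := hc2 h hh α ⟨h0, h1⟩
    by_cases hrow : ∀ i < n, rv n R z i ≤
      bil n R (cmb α (cmb (1 / 2) x w) (pu h)) z + (649 / 2000 + δ)
    · right
      exact H.fam_col (k := k) hh hmaxk hM1 ⟨j1, hj1, le_rfl⟩ hκ h0 h1
        (fun h => h2 ⟨hrow, h⟩)
    · left
      exact H.fam_row hh hc h0 hrow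
  · intro α h0 h1
    have h2 := hc3 k hk α ⟨h0, h1⟩
    by_cases hcol : ∀ j < n, cv n C w j ≤
      bil n C w (cmb α (cmb (1 / 2) y z) (pu k)) + (649 / 2000 + δ)
    · right
      have := Hs.fam_col (h := k) (k := h) (M1 := cv n C x j1) (M2 := rv n R y i1)
        (κ := (1 - ρ) / ρ) (α := α) hk
        (by simpa only [cv_tr] using hmaxh) (by simpa only [rv_tr] using hM2)
        ⟨i1, hi1, by rw [cv_tr]⟩ hκ' h0 h1
        (by
          simp only [cv_tr, bil_tr]
          exact fun h => h2 ⟨h, hcol⟩)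
      simp only [cv_tr, rv_tr] at this
      exact this
    · left
      have := Hs.fam_row (h := k) (c := ρ / (1 - ρ)) (α := α) hk hκ h0
        (by simpa only [rv_tr, bil_tr] using hcol)
      rw [rv_tr] at this
      exact this

end Nsh
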