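import Pool.Agent.Lib.Nsh.CertMix
import Pool.Agent.Lib.Nsh.GameCore

/-! MP_602ccf, module Nsh.Cert (real side): a certificate gives an approximate stationary point.

`Q = ∑ q`, `Q' = ∑ q'`, `w = q / Q`, `z = q' / Q'`, `ρ = Q / (Q + Q')`.  `cert_mix` gives
`Γ(x', y') > 0` for all mixed `x'`, `y'`.
1. `Q' > 0`.  Otherwise all `q' c = 0` (nonnegative with sum `0`), the column bracket is `0`, and
`Q > 0` (else `Γ = 0`); then `w` is mixed and `Γ(w, y) = Q (- (E - 1) (M1 - bil w y) - V) ≤ - Q V < 0`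
(`bil n R q y' = Q * bil n R w y'`, `bil w y ≤ M1` by `bil_le_of_rv_le`): contradiction.
2. `Q > 0`: symmetric, with `Γ(x, z)`.
3. `w`, `z` are mixed.  Divide `Γ > 0` by `Q + Q'`: for all mixed `x'`, `y'`,
`V < ρ (bil R w y' - (E-1) (M1 - bil R w y) - bil R x' y - bil R x y' + bil R x y) +
(1-ρ) (bil C x' z - (E-1) (M2 - bil C x z) - bil C x' y - bil C x y' + bil C x y)`.
`hA`: `y' = y`, drop the two nonnegative terms `(E - 1) (M1 - bil R w y)`, `(E - 1) (M2 - bil C x z)`.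
`hB`: `x' = x`.
4. `x' = x`, `y' = y`: `V < ρ (bil R w y - bil R x y - (E-1) (M1 - bil R w y)) + ...`, and
`bil R w y - bil R x y = (M1 - bil R x y) - (M1 - bil R w y) ≤ F - (M1 - bil R w y)`, so
`E (ρ (M1 - bil R w y) + (1 - ρ) (M2 - bil C x z)) ≤ F - V = δ`.  As in `Stat.le_rho`, `hB` at `y' = z`
gives `ρ ≥ V ≥ 1/4`, and `hA` at `x' = w` gives `1 - ρ ≥ V ≥ 1/4`; since `E ≥ 4` both
`M1 - bil R w y ≤ δ` and `M2 - bil C x z ≤ δ`: `hw1`, `hz1`.
`fR`, `fC`: `hM1`, `hF1` (`V + δ = F`).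
-/

namespace Nsh

open Finset

namespace CertAux

theorem bil_left {n : ℕ} {R : ℕ → ℕ → ℝ} {q : ℕ → ℝ} {Q : ℝ} (hQ : Q ≠ 0) (y : ℕ → ℝ) :
    bil n R q y = Q * bil n R (fun i => q i / Q) y := by
  unfold bil
  rw [mul_sum]
  refine sum_congr rfl (fun i _ => ?_)
  field_simp

theorem bil_right {n : ℕ} {R : ℕ → ℕ → ℝ} {q : ℕ → ℝ} {Q : ℝ} (hQ : Q ≠ 0) (x : ℕ → ℝ) :
    bil n R x q = Q * bil n R x (fun i => q i / Q) := by
  rw [bil_eq_cv, bil_eq_cv, mul_sum]
  refine sum_congr rfl (fun i _ => ?_)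
  field_simp

theorem mix_div {n : ℕ} {q : ℕ → ℝ} (hq : ∀ r < n, 0 ≤ q r) (hQ : 0 < ∑ r ∈ range n, q r) :
    Mix n (fun i => q i / ∑ r ∈ range n, q r) where
  nn i hi := div_nonneg (hq i hi) hQ.le
  sum := by
    rw [← sum_div]
    exact div_self hQ.ne'

theorem all_zero {n : ℕ} {q : ℕ → ℝ} (hq : ∀ r < n, 0 ≤ q r) (hQ : ∑ r ∈ range n, q r = 0) :
    ∀ r < n, q r = 0 := by
  intro r hr
  exact (sum_eq_zero_iff_of_nonneg (fun i hi => hq i (mem_range.1 hi))).1 hQ r (mem_range.2 hr)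

theorem bil_left_zero {n : ℕ} {R : ℕ → ℕ → ℝ} {q : ℕ → ℝ} (h : ∀ r < n, q r = 0) (y : ℕ → ℝ) :
    bil n R q y = 0 := by
  unfold bil
  refine sum_eq_zero (fun i hi => ?_)
  rw [h i (mem_range.1 hi), zero_mul]

theorem bil_right_zero {n : ℕ} {R : ℕ → ℕ → ℝ} {q : ℕ → ℝ} (h : ∀ r < n, q r = 0) (x : ℕ → ℝ) :
    bil n R x q = 0 := by
  rw [bil_eq_cv]
  refine sum_eq_zero (fun i hi => ?_)
  rw [h i (mem_range.1 hi), mul_zero]

end CertAux

open CertAux

theorem cert {n : ℕ} {R C : ℕ → ℕ → ℝ} (hR : U01 n R) (hC : U01 n C) {x y q q' : ℕ → ℝ}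
    (hx : Mix n x) (hy : Mix n y) {E M1 M2 V δ : ℝ} (hE : 4 ≤ E) (hV : 649 / 2000 ≤ V)
    (hδ : 0 ≤ δ) (hq : ∀ r < n, 0 ≤ q r) (hq' : ∀ c < n, 0 ≤ q' c)
    (hM1 : ∀ i < n, rv n R y i ≤ M1) (hM2 : ∀ j < n, cv n C x j ≤ M2)
    (hF1 : M1 ≤ bil n R x y + V + δ) (hF2 : M2 ≤ bil n C x y + V + δ)
    (h : ∀ k < n, ∀ l < n, 0 < (∑ r ∈ range n, q r * (gR n R E M1 x y k l r - V)) +
      ∑ c ∈ range n, q' c * (gC n C E M2 x y k l c - V)) :
    0 < ∑ r ∈ range n, q r ∧ 0 < ∑ c ∈ range n, q' c ∧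
    ∃ ρ : ℝ, Stat n R C x y (fun i => q i / ∑ r ∈ range n, q r)
      (fun i => q' i / ∑ c ∈ range n, q' c) ρ V δ := by
  have G := fun x' y' (hx' : Mix n x') (hy' : Mix n y') => cert_mix h hx' hy'
  set Q := ∑ r ∈ range n, q r with hQdef
  set Q' := ∑ c ∈ range n, q' c with hQ'def
  have hQ0 : 0 ≤ Q := sum_nonneg (fun i hi => hq i (mem_range.1 hi))
  have hQ'0 : 0 ≤ Q' := sum_nonneg (fun i hi => hq' i (mem_range.1 hi))
  have hVpos : 0 < V := by linarith
  have hQ'pos : 0 < Q' := by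
    rcases hQ'0.lt_or_eq with h1 | h1
    · exact h1
    · exfalso
      have hz := all_zero hq' h1.symm
      rcases hQ0.lt_or_eq with h2 | h2
      · have hw : Mix n (fun i => q i / Q) := mix_div hq h2
        have h3 := G _ y hw hy
        have z1 := bil_right_zero (R := C) hz
        simp only [z1] at h3
        rw [← h1, bil_left (R := R) (q := q) h2.ne' y] at h3
        have h4 : bil n R (fun i => q i / Q) y ≤ M1 := bil_le_of_rv_le hw hM1
        have h5 : 0 ≤ (E - 1) * (Q * (M1 - bil n R (fun i => q i / Q) y)) :=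
          mul_nonneg (by linarith) (mul_nonneg h2.le (by linarith))
        have h6 : 0 < Q * V := mul_pos h2 hVpos
        nlinarith
      · have hz2 := all_zero hq h2.symm
        have h3 := G _ y hx hy
        have z1 := bil_right_zero (R := C) hz
        have z2 := bil_left_zero (R := R) hz2
        simp only [z1, z2] at h3
        rw [← h1, ← h2] at h3
        norm_num at h3
  have hQpos : 0 < Q := by
    rcases hQ0.lt_or_eq with h2 | h2
    · exact h2
    · exfalso
      have hz2 := all_zero hq h2.symm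
      have hzm : Mix n (fun i => q' i / Q') := mix_div hq' hQ'pos
      have h3 := G x _ hx hzm
      have z2 := bil_left_zero (R := R) hz2
      simp only [z2] at h3
      rw [← h2, bil_right (R := C) (q := q') hQ'pos.ne' x] at h3
      have h4 : bil n C x (fun i => q' i / Q') ≤ M2 := bil_le_of_cv_le hzm hM2
      have h5 : 0 ≤ (E - 1) * (Q' * (M2 - bil n C x (fun i => q' i / Q'))) :=
        mul_nonneg (by linarith) (mul_nonneg hQ'pos.le (by linarith))
      have h6 : 0 < Q' * V := mul_pos hQ'pos hVpos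
      nlinarith
  refine ⟨hQpos, hQ'pos, Q / (Q + Q'), ?_⟩
  have hw : Mix n (fun i => q i / Q) := mix_div hq hQpos
  have hz : Mix n (fun i => q' i / Q') := mix_div hq' hQ'pos
  set w : ℕ → ℝ := fun i => q i / Q with hwdef
  set z : ℕ → ℝ := fun i => q' i / Q' with hzdef
  set ρ : ℝ := Q / (Q + Q') with hρ
  have hT : 0 < Q + Q' := by linarith
  have e1 : Q = ρ * (Q + Q') := by rw [hρ, div_mul_cancel₀ _ hT.ne']
  have e2 : Q' = (1 - ρ) * (Q + Q') := by
    have : (1 - ρ) * (Q + Q') = Q + Q' - ρ * (Q + Q') := by ring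
    rw [this, ← e1]
    ring
  have hρ0 : 0 ≤ ρ := by positivity
  have hρ1 : ρ ≤ 1 := by
    rw [hρ, div_le_one hT]
    linarith
  have hA1 : 0 ≤ M1 - bil n R w y := by
    have := bil_le_of_rv_le hw hM1
    linarith
  have hA2 : 0 ≤ M2 - bil n C x z := by
    have := bil_le_of_cv_le hz hM2
    linarith
  have key : ∀ x' y', Mix n x' → Mix n y' →
      0 < ρ * (bil n R w y' - (E - 1) * (M1 - bil n R w y) -
        (bil n R x' y + bil n R x y' - bil n R x y + V)) +
      (1 - ρ) * (bil n C x' z - (E - 1) * (M2 - bil n C x z) -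
        (bil n C x' y + bil n C x y' - bil n C x y + V)) := by
    intro x' y' hx' hy'
    have h1 := G x' y' hx' hy'
    have b1 : ∀ u, bil n R q u = Q * bil n R w u := fun u => bil_left hQpos.ne' u
    have b2 : ∀ u, bil n C u q' = Q' * bil n C u z := fun u => bil_right hQ'pos.ne' u
    simp only [b1, b2] at h1
    have h2 : (Q + Q') * (ρ * (bil n R w y' - (E - 1) * (M1 - bil n R w y) -
        (bil n R x' y + bil n R x y' - bil n R x y + V)) +
      (1 - ρ) * (bil n C x' z - (E - 1) * (M2 - bil n C x z) -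
        (bil n C x' y + bil n C x y' - bil n C x y + V))) =
        (Q * bil n R w y' - (E - 1) * (Q * M1 - Q * bil n R w y) -
        Q * (bil n R x' y + bil n R x y' - bil n R x y + V)) +
      (Q' * bil n C x' z - (E - 1) * (Q' * M2 - Q' * bil n C x z) -
        Q' * (bil n C x' y + bil n C x y' - bil n C x y + V)) := by
      have : (Q + Q') * (ρ * (bil n R w y' - (E - 1) * (M1 - bil n R w y) -
        (bil n R x' y + bil n R x y' - bil n R x y + V)) +
      (1 - ρ) * (bil n C x' z - (E - 1) * (M2 - bil n C x z) -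
        (bil n C x' y + bil n C x y' - bil n C x y + V))) =
        (ρ * (Q + Q')) * (bil n R w y' - (E - 1) * (M1 - bil n R w y) -
        (bil n R x' y + bil n R x y' - bil n R x y + V)) +
        ((1 - ρ) * (Q + Q')) * (bil n C x' z - (E - 1) * (M2 - bil n C x z) -
        (bil n C x' y + bil n C x y' - bil n C x y + V)) := by ring
      rw [this, ← e1, ← e2]
      ring
    rw [← h2] at h1
    exact (pos_iff_pos_of_mul_pos h1).1 hT
  have hA : ∀ x', Mix n x' →
      V ≤ (1 - ρ) * (bil n C x' z - bil n C x' y) + ρ * (bil n R w y - bil n R x' y) := by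
    intro x' hx'
    have h1 := key x' y hx' hy
    have h2 : 0 ≤ ρ * ((E - 1) * (M1 - bil n R w y)) :=
      mul_nonneg hρ0 (mul_nonneg (by linarith) hA1)
    have h3 : 0 ≤ (1 - ρ) * ((E - 1) * (M2 - bil n C x z)) :=
      mul_nonneg (by linarith) (mul_nonneg (by linarith) hA2)
    nlinarith
  have hB : ∀ y', Mix n y' →
      V ≤ ρ * (bil n R w y' - bil n R x y') + (1 - ρ) * (bil n C x z - bil n C x y') := by
    intro y' hy'
    have h1 := key x y' hx hy'
    have h2 : 0 ≤ ρ * ((E - 1) * (M1 - bil n R w y)) :=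
      mul_nonneg hρ0 (mul_nonneg (by linarith) hA1)
    have h3 : 0 ≤ (1 - ρ) * ((E - 1) * (M2 - bil n C x z)) :=
      mul_nonneg (by linarith) (mul_nonneg (by linarith) hA2)
    nlinarith
  have hρV : V ≤ ρ := by
    have h1 := hB z hz
    have h2 := bil_le_one hR hw hz
    have h3 := bil_nonneg hR hx hz
    nlinarith
  have hρV' : V ≤ 1 - ρ := by
    have h1 := hA w hw
    have h2 := bil_le_one hC hw hz
    have h3 := bil_nonneg hC hw hy
    nlinarith
  have hfin : E * (ρ * (M1 - bil n R w y) + (1 - ρ) * (M2 - bil n C x z)) ≤ δ := by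
    have h1 := key x y hx hy
    have h2 : ρ * (M1 - bil n R x y - V) ≤ ρ * δ := mul_le_mul_of_nonneg_left (by linarith) hρ0
    have h3 : (1 - ρ) * (M2 - bil n C x y - V) ≤ (1 - ρ) * δ :=
      mul_le_mul_of_nonneg_left (by linarith) (by linarith)
    nlinarith
  have hb1 : M1 - bil n R w y ≤ δ := by
    have h1 : 1 ≤ E * ρ := by nlinarith
    have h2 : 0 ≤ E * ((1 - ρ) * (M2 - bil n C x z)) :=
      mul_nonneg (by linarith) (mul_nonneg (by linarith) hA2)
    have h3 : M1 - bil n R w y ≤ E * ρ * (M1 - bil n R w y) := le_mul_of_one_le_left hA1 h1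
    nlinarith
  have hb2 : M2 - bil n C x z ≤ δ := by
    have h1 : 1 ≤ E * (1 - ρ) := by nlinarith
    have h2 : 0 ≤ E * (ρ * (M1 - bil n R w y)) :=
      mul_nonneg (by linarith) (mul_nonneg hρ0 hA1)
    have h3 : M2 - bil n C x z ≤ E * (1 - ρ) * (M2 - bil n C x z) :=
      le_mul_of_one_le_left hA2 h1
    nlinarith
  exact {
    hR := hR
    hC := hC
    hx := hx
    hy := hy
    hw := hw
    hz := hz
    ρ0 := hρ0
    ρ1 := hρ1
    g0 := hV
    δ0 := hδ
    hA := hA
    hB := hB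
    hw1 := fun i hi => by linarith [hM1 i hi]
    hz1 := fun j hj => by linarith [hM2 j hj]
    fR := fun i hi => by linarith [hM1 i hi]
    fC := fun j hj => by linarith [hM2 j hj] }

end Nsh
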