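import Pool.Agent.Lib.Nsh.Basic

/-! MP_602ccf, module Nsh.CertMix (real side): from pure directions to mixed directions.

`q`, `q'` are weights, `Q = ∑ q`, `Q' = ∑ q'`.  For all mixed `x'`, `y'` the left side of the
conclusion equals `∑ k, ∑ l, x' k * y' l * (∑ r, q r * (gR .. k l r - V) + ∑ c, q' c * (gC .. k l c -
V))`: it is bilinear in `(x', y')` because `∑ k, x' k = ∑ l, y' l = 1`.  Write
`∑ r, q r * (gR k l r - V) = cv n R q l - (E - 1) (Q M1 - bil n R q y) - Q rv n R y k - Q cv n R x l +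
Q bil n R x y - Q V` (unfold `gR`, `bil n R q y = ∑ r, q r * rv n R y r`, `cv n R q l = ∑ r, q r * R r l`,
`Finset.sum_sub_distrib`, `Finset.mul_sum`), similarly
`∑ c, q' c * (gC k l c - V) = rv n C q' k - (E - 1) (Q' M2 - bil n C x q') - Q' rv n C y k -
Q' cv n C x l + Q' bil n C x y - Q' V` (`rv n C q' k = ∑ c, C k c * q' c`,
`bil n C x q' = ∑ c, cv n C x c * q' c` is `bil_eq_cv`).  So the function is `a k + b l + const`, and
`∑ k, ∑ l, x' k y' l (a k + b l + const) = ∑ k, x' k a k + ∑ l, y' l b l + const`.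
Then it is enough to see: if `a k + b l + c > 0` for all `k, l < n` then
`∑ k, x' k a k + ∑ l, y' l b l + c > 0` (take `k`, `l` minimising `a` and `b` over `range n`:
`Finset.exists_min_image`).
-/

namespace Nsh

open Finset

theorem cert_mix {n : ℕ} {R C : ℕ → ℕ → ℝ} {x y q q' : ℕ → ℝ} {E M1 M2 V : ℝ}
    (h : ∀ k < n, ∀ l < n, 0 < (∑ r ∈ range n, q r * (gR n R E M1 x y k l r - V)) +
      ∑ c ∈ range n, q' c * (gC n C E M2 x y k l c - V))
    {x' y' : ℕ → ℝ} (hx' : Mix n x') (hy' : Mix n y') :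
    0 < (bil n R q y' - (E - 1) * ((∑ r ∈ range n, q r) * M1 - bil n R q y) -
        (∑ r ∈ range n, q r) * (bil n R x' y + bil n R x y' - bil n R x y + V)) +
      (bil n C x' q' - (E - 1) * ((∑ c ∈ range n, q' c) * M2 - bil n C x q') -
        (∑ c ∈ range n, q' c) * (bil n C x' y + bil n C x y' - bil n C x y + V)) := by
  classical
  have hRow : ∀ k l : ℕ, ∑ r ∈ range n, q r * (gR n R E M1 x y k l r - V) =
      cv n R q l - (E - 1) * ((∑ r ∈ range n, q r) * M1 - bil n R q y) -
        (∑ r ∈ range n, q r) * rv n R y k - (∑ r ∈ range n, q r) * cv n R x l +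
        (∑ r ∈ range n, q r) * bil n R x y - (∑ r ∈ range n, q r) * V := by
    intro k l
    have e1 : ∀ r ∈ range n, q r * (gR n R E M1 x y k l r - V) =
        q r * R r l - (E - 1) * (q r * M1 - q r * rv n R y r) - q r * rv n R y k -
          q r * cv n R x l + q r * bil n R x y - q r * V := by
      intro r _
      unfold gR
      ring
    rw [sum_congr rfl e1]
    simp only [sum_sub_distrib, sum_add_distrib, ← mul_sum, ← sum_mul]
    unfold cv bil
    ring
  have hCol : ∀ k l : ℕ, ∑ c ∈ range n, q' c * (gC n C E M2 x y k l c - V) =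
      rv n C q' k - (E - 1) * ((∑ c ∈ range n, q' c) * M2 - bil n C x q') -
        (∑ c ∈ range n, q' c) * rv n C y k - (∑ c ∈ range n, q' c) * cv n C x l +
        (∑ c ∈ range n, q' c) * bil n C x y - (∑ c ∈ range n, q' c) * V := by
    intro k l
    have e1 : ∀ c ∈ range n, q' c * (gC n C E M2 x y k l c - V) =
        C k c * q' c - (E - 1) * (q' c * M2 - cv n C x c * q' c) - q' c * rv n C y k -
          q' c * cv n C x l + q' c * bil n C x y - q' c * V := by
      intro c _
      unfold gC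
      ring
    rw [sum_congr rfl e1]
    simp only [sum_sub_distrib, sum_add_distrib, ← mul_sum, ← sum_mul]
    rw [bil_eq_cv (R := C) (x := x) (y := q')]
    unfold rv
    ring
  have hn : 1 ≤ n := hx'.pos
  obtain ⟨k0, hk0, hk0m⟩ := exists_min_image (range n)
    (fun k => rv n C q' k - (∑ r ∈ range n, q r) * rv n R y k -
      (∑ c ∈ range n, q' c) * rv n C y k) ⟨0, mem_range.2 hn⟩
  obtain ⟨l0, hl0, hl0m⟩ := exists_min_image (range n)
    (fun l => cv n R q l - (∑ r ∈ range n, q r) * cv n R x l -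
      (∑ c ∈ range n, q' c) * cv n C x l) ⟨0, mem_range.2 hn⟩
  have h0 := h k0 (mem_range.1 hk0) l0 (mem_range.1 hl0)
  rw [hRow, hCol] at h0
  have hA : rv n C q' k0 - (∑ r ∈ range n, q r) * rv n R y k0 -
      (∑ c ∈ range n, q' c) * rv n C y k0 ≤
      bil n C x' q' - (∑ r ∈ range n, q r) * bil n R x' y -
        (∑ c ∈ range n, q' c) * bil n C x' y := by
    have e : ∑ k ∈ range n, x' k * (rv n C q' k0 - (∑ r ∈ range n, q r) * rv n R y k0 -
        (∑ c ∈ range n, q' c) * rv n C y k0) ≤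
        ∑ k ∈ range n, x' k * (rv n C q' k - (∑ r ∈ range n, q r) * rv n R y k -
        (∑ c ∈ range n, q' c) * rv n C y k) :=
      sum_le_sum (fun k hk => mul_le_mul_of_nonneg_left (hk0m k hk) (hx'.nn k (mem_range.1 hk)))
    rw [← sum_mul, hx'.sum, one_mul] at e
    refine e.trans (le_of_eq ?_)
    have e2 : ∀ k ∈ range n, x' k * (rv n C q' k - (∑ r ∈ range n, q r) * rv n R y k -
        (∑ c ∈ range n, q' c) * rv n C y k) = x' k * rv n C q' k -
        (∑ r ∈ range n, q r) * (x' k * rv n R y k) -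
        (∑ c ∈ range n, q' c) * (x' k * rv n C y k) := fun k _ => by ring
    rw [sum_congr rfl e2]
    simp only [sum_sub_distrib, ← mul_sum]
    rfl
  have hB : cv n R q l0 - (∑ r ∈ range n, q r) * cv n R x l0 -
      (∑ c ∈ range n, q' c) * cv n C x l0 ≤
      bil n R q y' - (∑ r ∈ range n, q r) * bil n R x y' -
        (∑ c ∈ range n, q' c) * bil n C x y' := by
    have e : ∑ l ∈ range n, y' l * (cv n R q l0 - (∑ r ∈ range n, q r) * cv n R x l0 -
        (∑ c ∈ range n, q' c) * cv n C x l0) ≤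
        ∑ l ∈ range n, y' l * (cv n R q l - (∑ r ∈ range n, q r) * cv n R x l -
        (∑ c ∈ range n, q' c) * cv n C x l) :=
      sum_le_sum (fun l hl => mul_le_mul_of_nonneg_left (hl0m l hl) (hy'.nn l (mem_range.1 hl)))
    rw [← sum_mul, hy'.sum, one_mul] at e
    refine e.trans (le_of_eq ?_)
    have e2 : ∀ l ∈ range n, y' l * (cv n R q l - (∑ r ∈ range n, q r) * cv n R x l -
        (∑ c ∈ range n, q' c) * cv n C x l) = cv n R q l * y' l -
        (∑ r ∈ range n, q r) * (cv n R x l * y' l) -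
        (∑ c ∈ range n, q' c) * (cv n C x l * y' l) := fun l _ => by ring
    rw [sum_congr rfl e2]
    simp only [sum_sub_distrib, ← mul_sum]
    rw [bil_eq_cv (R := R) (x := q) (y := y'), bil_eq_cv (R := R) (x := x) (y := y'),
      bil_eq_cv (R := C) (x := x) (y := y')]
  linarith

end Nsh
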