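import Mathlib

/-! MP_602ccf: approximate Nash equilibria of bimatrix games, real side.

Strategies are functions `ℕ → ℝ` of which only the values at `i < n` matter. -/

namespace Nsh

open Finset

/-- payoff (matrix `R`) of the pure row `i` against the column strategy `y` -/
def rv (n : ℕ) (R : ℕ → ℕ → ℝ) (y : ℕ → ℝ) (i : ℕ) : ℝ := ∑ j ∈ range n, R i j * y j

/-- payoff (matrix `R`) of the pure column `j` against the row strategy `x` -/
def cv (n : ℕ) (R : ℕ → ℕ → ℝ) (x : ℕ → ℝ) (j : ℕ) : ℝ := ∑ i ∈ range n, x i * R i j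

/-- payoff (matrix `R`) of the pair `(x, y)` -/
def bil (n : ℕ) (R : ℕ → ℕ → ℝ) (x y : ℕ → ℝ) : ℝ := ∑ i ∈ range n, x i * rv n R y i

/-- mixed strategies -/
structure Mix (n : ℕ) (x : ℕ → ℝ) : Prop where
  nn : ∀ i < n, 0 ≤ x i
  sum : ∑ i ∈ range n, x i = 1

/-- pure strategies -/
def pu (h : ℕ) : ℕ → ℝ := fun i => if i = h then 1 else 0

/-- entries in `[0, 1]` -/
def U01 (n : ℕ) (R : ℕ → ℕ → ℝ) : Prop := ∀ i < n, ∀ j < n, 0 ≤ R i j ∧ R i j ≤ 1

/-- all regrets are at most `θ` (`R` for the row player, `C` for the column player) -/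
def Good (n : ℕ) (R C : ℕ → ℕ → ℝ) (θ : ℝ) (x y : ℕ → ℝ) : Prop :=
  (∀ i < n, rv n R y i ≤ bil n R x y + θ) ∧ (∀ j < n, cv n C x j ≤ bil n C x y + θ)

/-- convex combination -/
def cmb (α : ℝ) (u v : ℕ → ℝ) : ℕ → ℝ := fun i => α * u i + (1 - α) * v i

/-- transposed matrix -/
def tr (R : ℕ → ℕ → ℝ) : ℕ → ℕ → ℝ := fun i j => R j i

/-- one of the pairs tested by the algorithm is good: the midpoint pair, or one of the pairs
obtained from the half-sums by moving towards a pure strategy -/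
def Cand (n : ℕ) (R C : ℕ → ℕ → ℝ) (θ : ℝ) (x y w z : ℕ → ℝ) (S : Set ℝ) : Prop :=
  Good n R C θ (cmb (1 / 2) x w) (cmb (1 / 2) y z) ∨
  (∃ h < n, ∃ α ∈ S, Good n R C θ (cmb α (cmb (1 / 2) x w) (pu h)) z) ∨
  (∃ k < n, ∃ α ∈ S, Good n R C θ w (cmb α (cmb (1 / 2) y z) (pu k)))

/-- the payoff of the auxiliary zero-sum game, row type: deviation `r`, direction `(k, l)`;
`E` is the inverse of the step, `M` the best payoff against `y` -/
def gR (n : ℕ) (R : ℕ → ℕ → ℝ) (E M : ℝ) (x y : ℕ → ℝ) (k l r : ℕ) : ℝ :=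
  R r l - (E - 1) * (M - rv n R y r) - rv n R y k - cv n R x l + bil n R x y

/-- the payoff of the auxiliary zero-sum game, column type; `M` is the best payoff against `x` -/
def gC (n : ℕ) (C : ℕ → ℕ → ℝ) (E M : ℝ) (x y : ℕ → ℝ) (k l c : ℕ) : ℝ :=
  C k c - (E - 1) * (M - cv n C x c) - rv n C y k - cv n C x l + bil n C x y

end Nsh
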