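import Pool.Agent.Lib.Nsh.Basic

/-! MP_602ccf, module Nsh.Descent (real side): the regrets after a small move. -/

namespace Nsh

open Finset

/-- row regrets after the move -/
theorem descent_row {n : ℕ} {R : ℕ → ℕ → ℝ} (hR : U01 n R) {x y x' y' : ℕ → ℝ} (hx : Mix n x)
    (hy : Mix n y) (hx' : Mix n x') (hy' : Mix n y') {E M F W : ℝ} (hE : 1 ≤ E)
    (hM : M ≤ bil n R x y + F)
    (hU : ∀ r < n, rv n R y' r - (E - 1) * (M - rv n R y r) - bil n R x' y - bil n R x y' +
      bil n R x y ≤ W) :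
    ∀ r < n, rv n R (cmb (1 - 1 / E) y y') r ≤
      bil n R (cmb (1 - 1 / E) x x') (cmb (1 - 1 / E) y y') +
        ((1 - 1 / E) * F + W / E + 2 / E ^ 2) := by
  intro r hr
  have h := hU r hr
  have hE0 : 0 < E := by linarith
  obtain ⟨ε, hε⟩ : ∃ ε : ℝ, ε = 1 / E := ⟨_, rfl⟩
  have hεE : ε * E = 1 := by rw [hε]; field_simp
  have hε0 : 0 < ε := by rw [hε]; positivity
  have hε1 : ε ≤ 1 := by
    rw [hε, div_le_one hE0]
    exact hE
  have e1 : W / E = ε * W := by rw [hε]; ring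
  have e2 : 2 / E ^ 2 = 2 * ε ^ 2 := by rw [hε]; ring
  rw [e1, e2, ← hε, rv_cmb, bil_cmb_left, bil_cmb_right, bil_cmb_right]
  have b0 := bil_nonneg hR hx hy
  have b3 := bil_nonneg hR hx' hy'
  have b1 := bil_le_one hR hx' hy
  have b2 := bil_le_one hR hx hy'
  have h1 := mul_le_mul_of_nonneg_left h hε0.le
  have h2 : ε * (rv n R y' r - (E - 1) * (M - rv n R y r) - bil n R x' y - bil n R x y' +
      bil n R x y) = ε * rv n R y' r - (1 - ε) * (M - rv n R y r) - ε * bil n R x' y -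
      ε * bil n R x y' + ε * bil n R x y := by
    linear_combination (-(M - rv n R y r)) * hεE
  rw [h2] at h1
  have h3 : (1 - ε) * M ≤ (1 - ε) * (bil n R x y + F) :=
    mul_le_mul_of_nonneg_left hM (by linarith)
  have h4 : 0 ≤ ε ^ 2 * (2 - bil n R x' y - bil n R x y' + bil n R x y + bil n R x' y') := by
    have : 0 ≤ ε ^ 2 := by positivity
    exact mul_nonneg this (by linarith)
  nlinarith

/-- column regrets after the move -/
theorem descent_col {n : ℕ} {C : ℕ → ℕ → ℝ} (hC : U01 n C) {x y x' y' : ℕ → ℝ} (hx : Mix n x)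
    (hy : Mix n y) (hx' : Mix n x') (hy' : Mix n y') {E M F W : ℝ} (hE : 1 ≤ E)
    (hM : M ≤ bil n C x y + F)
    (hU : ∀ c < n, cv n C x' c - (E - 1) * (M - cv n C x c) - bil n C x' y - bil n C x y' +
      bil n C x y ≤ W) :
    ∀ c < n, cv n C (cmb (1 - 1 / E) x x') c ≤
      bil n C (cmb (1 - 1 / E) x x') (cmb (1 - 1 / E) y y') +
        ((1 - 1 / E) * F + W / E + 2 / E ^ 2) := by
  intro c hc
  have h := descent_row (R := tr C) hC.tr hy hx hy' hx' (M := M) (F := F) (W := W) hE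
    (by rw [bil_tr]; exact hM)
    (fun r hr => by
      rw [rv_tr, rv_tr, bil_tr, bil_tr, bil_tr]
      linarith [hU r hr]) c hc
  rw [rv_tr, bil_tr] at h
  exact h

end Nsh
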