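import Pool.Agent.Lib.Nsh.StageCore

/-! MP_602ccf, module Nsh.Exists: a candidate of some stage passes (imports are black boxes).

`stg_ok`: induction on `s`.  `s = 0`: `LL N n 0 = TT N n`, the weights are `TT` at `0` and `0`
elsewhere (`Finset.sum_ite_eq'`).  Step: `next_ok` with `μ = (8 N) ^ s`
(`LL N n s = TT N n * (8 N) ^ s`, `8 N * LL N n s = LL N n (s + 1)`: `pow_succ`, `ring`).
`idx`: with `c = (N + 1) n` and `m = t (4 c) + ty c + i n + h`: `i n + h < c` (`i ≤ N`, `h < n`),
`ty c + i n + h < 4 c`, so `qt = t`, `qy = ty`, `qi = i`, `qh = h` (`Nat.mul_add_div`,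
`Nat.mul_add_mod`, `Nat.div_eq_of_lt`, `Nat.mod_eq_of_lt`) and `m < TT * 4 c`.
`exists_pass`: otherwise, by induction on `s ≤ 32 N² + 1`, `fF (stg s) ≤ 1 - s / (32 N²)`
(`fF_le_one`, then `stage_core`: the left alternative would give a passing candidate `m` of the
stage `s` by `idx`, `cX`, `cY`, `stt` unfolded).  At `s = 32 N² + 1` this contradicts `fF_nonneg`.
-/

namespace Nsh

open Finset

theorem stg_ok {g : Gm} {N : ℕ} (hN : 1 ≤ N) (hn : 1 ≤ g.n)
    (hA : ∀ i < g.n, ∀ j < g.n, g.A i j ≤ N) (hB : ∀ i < g.n, ∀ j < g.n, g.B i j ≤ N) (s : ℕ) :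
    Ok g N (LL N g.n s) (stg g N s).1 (stg g N s).2 := by
  induction s with
  | zero =>
    have e : LL N g.n 0 = TT N g.n := by
      unfold LL
      rw [pow_zero, mul_one]
    have ht : tot g.n (fun i => if i = 0 then TT N g.n else 0) = LL N g.n 0 := by
      rw [e]
      unfold tot
      rw [Finset.sum_ite_eq', if_pos (mem_range.2 hn)]
    refine ⟨hn, hN, ?_, ?_, ?_, hA, hB⟩
    · rw [e]
      exact TT_pos hN hn
    · exact ht
    · exact ht
  | succ s ih =>
    have h1 : LL N g.n s = TT N g.n * (8 * N) ^ s := rfl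
    have h2 : LL N g.n (s + 1) = 8 * N * LL N g.n s := by
      unfold LL
      rw [pow_succ]
      ring
    rw [h2]
    exact next_ok ih h1

theorem idx {n N t ty i h : ℕ} (hn : 1 ≤ n) (ht : t < TT N n) (hty : ty < 4) (hi : i ≤ N)
    (hh : h < n) : ∃ m < NC n N, qt n N m = t ∧ qy n N m = ty ∧ qi n N m = i ∧ qh n N m = h := by
  have hc : i * n + h < (N + 1) * n := by
    calc i * n + h < i * n + n := by omega
      _ = (i + 1) * n := by ring
      _ ≤ (N + 1) * n := Nat.mul_le_mul_right _ (by omega)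
  obtain ⟨c, hcdef⟩ : ∃ c, c = (N + 1) * n := ⟨_, rfl⟩
  rw [← hcdef] at hc
  have hcpos : 0 < c := by omega
  have hc2 : ty * c + (i * n + h) < 4 * c := by
    calc ty * c + (i * n + h) < ty * c + c := by omega
      _ = (ty + 1) * c := by ring
      _ ≤ 4 * c := Nat.mul_le_mul_right _ (by omega)
  have h4 : 0 < 4 * c := by omega
  have e1 : (4 * c * t + (ty * c + (i * n + h))) / (4 * c) = t := by
    rw [Nat.mul_add_div h4, Nat.div_eq_of_lt hc2, add_zero]
  have e2 : (4 * c * t + (ty * c + (i * n + h))) % (4 * c) = ty * c + (i * n + h) := by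
    rw [Nat.mul_add_mod, Nat.mod_eq_of_lt hc2]
  have e3 : (ty * c + (i * n + h)) / c = ty := by
    rw [mul_comm ty c, Nat.mul_add_div hcpos, Nat.div_eq_of_lt hc, add_zero]
  have e4 : (ty * c + (i * n + h)) % c = i * n + h := by
    rw [mul_comm ty c, Nat.mul_add_mod, Nat.mod_eq_of_lt hc]
  have e5 : (i * n + h) / n = i := by
    rw [mul_comm i n, Nat.mul_add_div (by omega), Nat.div_eq_of_lt hh, add_zero]
  have e6 : (i * n + h) % n = h := by
    rw [mul_comm i n, Nat.mul_add_mod, Nat.mod_eq_of_lt hh]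
  refine ⟨4 * c * t + (ty * c + (i * n + h)), ?_, ?_, ?_, ?_, ?_⟩
  · unfold NC
    rw [← hcdef]
    calc 4 * c * t + (ty * c + (i * n + h)) < 4 * c * t + 4 * c := by omega
      _ = (t + 1) * (4 * c) := by ring
      _ ≤ TT N n * (4 * c) := Nat.mul_le_mul_right _ (by omega)
  · unfold qt
    rw [← hcdef, e1]
  · unfold qy
    rw [← hcdef, e2, e3]
  · unfold qi
    rw [← hcdef, e2, e4, e5]
  · unfold qh
    rw [← hcdef, e2, e4, e6]

theorem exists_pass {g : Gm} {N : ℕ} (hN : 8000 ≤ N) (hn : 1 ≤ g.n)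
    (hA : ∀ i < g.n, ∀ j < g.n, g.A i j ≤ N) (hB : ∀ i < g.n, ∀ j < g.n, g.B i j ≤ N) :
    ∃ s ≤ 32 * N ^ 2, ∃ m < NC g.n N, pass g N (cX g N s m) (cY g N s m) := by
  by_contra hcon
  push Not at hcon
  have hN1 : 1 ≤ N := by omega
  have hN' : (0 : ℝ) < N := Nat.cast_pos.2 (by omega)
  have key : ∀ s, s ≤ 32 * N ^ 2 + 1 →
      fF g N (LL N g.n s) (stg g N s).1 (stg g N s).2 ≤ 1 - (s : ℝ) / (32 * N ^ 2) := by
    intro s
    induction s with
    | zero =>
      intro _
      simpa using fF_le_one (stg_ok hN1 hn hA hB 0)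
    | succ s ih =>
      intro hs
      have hs' := ih (by omega)
      have h1 : LL N g.n s = TT N g.n * (8 * N) ^ s := rfl
      rcases stage_core hN (stg_ok hN1 hn hA hB s) h1 with h | h
      · exfalso
        obtain ⟨t, ht, ty, hty, i, hi, h', hh, hp⟩ := h
        obtain ⟨m, hm, e1, e2, e3, e4⟩ := idx hn ht hty hi hh
        refine hcon s (by omega) m hm ?_
        unfold cX cY stt
        rw [e1, e2, e3, e4]
        exact hp
      · have h2 : LL N g.n (s + 1) = 8 * N * LL N g.n s := by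
          unfold LL
          rw [pow_succ]
          ring
        rw [h2]
        refine le_trans h ?_
        push_cast
        rw [add_div]
        linarith
  have h3 := key (32 * N ^ 2 + 1) le_rfl
  have h4 := fF_nonneg (stg_ok hN1 hn hA hB (32 * N ^ 2 + 1))
  have h5 : (1 : ℝ) < ((32 * N ^ 2 + 1 : ℕ) : ℝ) / (32 * N ^ 2) := by
    rw [lt_div_iff₀ (by positivity)]
    push_cast
    linarith
  linarith

end Nsh
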