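import Pool.Agent.Lib.Nsh.Basic

/-! MP_602ccf, module Nsh.Grid (real side): the parameter can be taken on a grid.

For `X = cmb α u v`, `X' = cmb β u v` with `|α - β| ≤ d`: `bil X' z ≥ bil X z - d` and
`cv X' j ≤ cv X j + d` (`bil_cmb_left`, `cv_cmb`; the two values mixed are in `[0, 1]`), so
`Good θ (cmb α u v) z → Good (θ + 2 d) (cmb β u v) z`.  The second family follows by `good_swap`
(transposition: `U01.tr`; `good_swap : Good n (tr C) (tr R) θ y x ↔ Good n R C θ x y`).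
For the grid: `i = ⌊α N⌋₊`, `d = 1 / N` (`Nat.floor_le`, `Nat.lt_floor_add_one`); the midpoint
alternative is monotone in `θ`.
-/

namespace Nsh

open Finset

private theorem grid_mv {α β d a b : ℝ} (hd : |α - β| ≤ d) (ha : 0 ≤ a) (ha' : a ≤ 1)
    (hb : 0 ≤ b) (hb' : b ≤ 1) :
    |(α * a + (1 - α) * b) - (β * a + (1 - β) * b)| ≤ d := by
  have h1 : (α * a + (1 - α) * b) - (β * a + (1 - β) * b) = (α - β) * (a - b) := by ring
  rw [h1, abs_mul]
  have h2 : |a - b| ≤ 1 := by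
    rw [abs_le]
    constructor <;> linarith
  calc |α - β| * |a - b| ≤ |α - β| * 1 := mul_le_mul_of_nonneg_left h2 (abs_nonneg _)
    _ ≤ d := by rw [mul_one]; exact hd

theorem good_move {n : ℕ} {R C : ℕ → ℕ → ℝ} (hR : U01 n R) (hC : U01 n C) {u v z : ℕ → ℝ}
    (hu : Mix n u) (hv : Mix n v) (hz : Mix n z) {θ α β d : ℝ} (hd : |α - β| ≤ d)
    (h : Good n R C θ (cmb α u v) z) : Good n R C (θ + 2 * d) (cmb β u v) z := by
  have hd0 : 0 ≤ d := (abs_nonneg _).trans hd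
  have hbR := grid_mv hd (bil_nonneg hR hu hz) (bil_le_one hR hu hz) (bil_nonneg hR hv hz)
    (bil_le_one hR hv hz)
  have hbC := grid_mv hd (bil_nonneg hC hu hz) (bil_le_one hC hu hz) (bil_nonneg hC hv hz)
    (bil_le_one hC hv hz)
  obtain ⟨h1, h2⟩ := h
  constructor
  · intro i hi
    have h3 := h1 i hi
    rw [bil_cmb_left] at h3 ⊢
    have h4 := (abs_le.1 hbR).2
    linarith
  · intro j hj
    have h3 := h2 j hj
    have hc := grid_mv hd (cv_nonneg hC hu hj) (cv_le_one hC hu hj) (cv_nonneg hC hv hj)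
      (cv_le_one hC hv hj)
    rw [bil_cmb_left, cv_cmb] at h3 ⊢
    have h4 := (abs_le.1 hbC).2
    have h5 := (abs_le.1 hc).1
    linarith

private theorem good_mono {n : ℕ} {R C : ℕ → ℕ → ℝ} {θ θ' : ℝ} {x y : ℕ → ℝ} (h : θ ≤ θ')
    (hG : Good n R C θ x y) : Good n R C θ' x y :=
  ⟨fun i hi => (hG.1 i hi).trans (by linarith), fun j hj => (hG.2 j hj).trans (by linarith)⟩

private theorem grid_floor {N : ℕ} (hN : 1 ≤ N) {α : ℝ} (hα : α ∈ Set.Icc (0 : ℝ) 1) :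
    ∃ i : ℕ, i ≤ N ∧ |α - (i : ℝ) / N| ≤ 1 / N := by
  have hN0 : (0 : ℝ) < N := by exact_mod_cast hN
  refine ⟨⌊α * N⌋₊, ?_, ?_⟩
  · apply Nat.floor_le_of_le
    have := mul_le_mul_of_nonneg_right hα.2 hN0.le
    linarith
  · have h1 : (⌊α * N⌋₊ : ℝ) ≤ α * N := Nat.floor_le (mul_nonneg hα.1 hN0.le)
    have h2 : α * N < ⌊α * N⌋₊ + 1 := Nat.lt_floor_add_one _
    have h3 : α = (α * N) / N := by field_simp
    rw [abs_le]
    constructor
    · have h4 : (⌊α * N⌋₊ : ℝ) / N ≤ (α * N) / N := div_le_div_of_nonneg_right h1 hN0.le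
      have h5 : (0 : ℝ) ≤ 1 / N := by positivity
      rw [← h3] at h4
      linarith
    · have h4 : (α * N) / N ≤ (⌊α * N⌋₊ + 1) / N := div_le_div_of_nonneg_right h2.le hN0.le
      rw [← h3, add_div] at h4
      linarith

theorem grid {n N : ℕ} (hN : 1 ≤ N) {R C : ℕ → ℕ → ℝ} (hR : U01 n R) (hC : U01 n C)
    {x y w z : ℕ → ℝ} (hx : Mix n x) (hy : Mix n y) (hw : Mix n w) (hz : Mix n z) {θ : ℝ}
    (H : Cand n R C θ x y w z (Set.Icc 0 1)) :
    Cand n R C (θ + 2 / N) x y w z {α | ∃ i : ℕ, i ≤ N ∧ α = (i : ℝ) / N} := by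
  have h2N : 2 * (1 / (N : ℝ)) = 2 / N := by ring
  have h2N' : (0 : ℝ) ≤ 2 / N := by positivity
  have hxw : Mix n (cmb (1 / 2) x w) := hx.cmb hw (by norm_num) (by norm_num)
  have hyz : Mix n (cmb (1 / 2) y z) := hy.cmb hz (by norm_num) (by norm_num)
  rcases H with H | ⟨h, hh, α, hα, H⟩ | ⟨k, hk, α, hα, H⟩
  · exact Or.inl (good_mono (by linarith) H)
  · obtain ⟨i, hi, hd⟩ := grid_floor hN hα
    refine Or.inr (Or.inl ⟨h, hh, (i : ℝ) / N, ⟨i, hi, rfl⟩, ?_⟩)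
    rw [← h2N]
    exact good_move hR hC hxw (mix_pu hh) hz hd H
  · obtain ⟨i, hi, hd⟩ := grid_floor hN hα
    refine Or.inr (Or.inr ⟨k, hk, (i : ℝ) / N, ⟨i, hi, rfl⟩, ?_⟩)
    rw [← h2N]
    rw [← good_swap] at H ⊢
    exact good_move hC.tr hR.tr hyz (mix_pu hk) hw hd H

end Nsh
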