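import Pool.Agent.Lib.Nsh.Cast

/-! MP_602ccf, module Nsh.MinKL: the direction chosen by the algorithm minimises the weighted
payoff (`Nsh.Cast` is a black box).

Write `w r = wR .. r`, `w' c = wC .. c` (naturals), `Q = tot w`, `Q' = tot w'`.  As in `CertMix`,
`ww .. k l = cv (rm N A) (rl 1 w) l - Q rv (rm N A) (rl L y) k - Q cv (rm N A) (rl L x) l +
rv (rm N B) (rl 1 w') k - Q' rv (rm N B) (rl L y) k - Q' cv (rm N B) (rl L x) l + const`, where `const` does
not depend on `k`, `l` (unfold `ww`, `aR`, `aC`, `gR`, `gC`; `Finset.sum_sub_distrib`,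
`Finset.mul_sum`).  So `N L (ww k l - const) = a k + b l` with
`a k = L * rn n B w' k - (Q * rn n A y k + Q' * rn n B y k)` and
`b l = L * cn n A w l - (Q * cn n A x l + Q' * cn n B x l)` (`cast_rn`, `cast_cn` with `s = 1` and
`s = L`).  `kst` minimises `a`, `cst` minimises `b` (`argm_spec`, cast to the reals), `N L > 0`.
-/

namespace Nsh

open Finset

private theorem row_sum {n : ℕ} {R : ℕ → ℕ → ℝ} {x y q : ℕ → ℝ} {E M V : ℝ} (k l : ℕ) :
    ∑ r ∈ range n, q r * (gR n R E M x y k l r - V) =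
      cv n R q l - (E - 1) * ((∑ r ∈ range n, q r) * M - bil n R q y) -
        (∑ r ∈ range n, q r) * rv n R y k - (∑ r ∈ range n, q r) * cv n R x l +
        (∑ r ∈ range n, q r) * bil n R x y - (∑ r ∈ range n, q r) * V := by
  have e1 : ∀ r ∈ range n, q r * (gR n R E M x y k l r - V) =
      q r * R r l - (E - 1) * (q r * M - q r * rv n R y r) - q r * rv n R y k -
        q r * cv n R x l + q r * bil n R x y - q r * V := by
    intro r _
    unfold gR
    ring
  rw [sum_congr rfl e1]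
  simp only [sum_sub_distrib, sum_add_distrib, ← mul_sum, ← sum_mul]
  unfold cv bil
  ring

private theorem col_sum {n : ℕ} {C : ℕ → ℕ → ℝ} {x y q : ℕ → ℝ} {E M V : ℝ} (k l : ℕ) :
    ∑ c ∈ range n, q c * (gC n C E M x y k l c - V) =
      rv n C q k - (E - 1) * ((∑ c ∈ range n, q c) * M - bil n C x q) -
        (∑ c ∈ range n, q c) * rv n C y k - (∑ c ∈ range n, q c) * cv n C x l +
        (∑ c ∈ range n, q c) * bil n C x y - (∑ c ∈ range n, q c) * V := by
  have e1 : ∀ c ∈ range n, q c * (gC n C E M x y k l c - V) =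
      C k c * q c - (E - 1) * (q c * M - cv n C x c * q c) - q c * rv n C y k -
        q c * cv n C x l + q c * bil n C x y - q c * V := by
    intro c _
    unfold gC
    ring
  rw [sum_congr rfl e1]
  simp only [sum_sub_distrib, sum_add_distrib, ← mul_sum, ← sum_mul]
  rw [bil_eq_cv (R := C) (x := x) (y := q)]
  unfold rv
  ring

private theorem rl_one (w : ℕ → ℕ) : rl 1 w = fun i => (w i : ℝ) := by
  funext i
  simp [rl]

theorem min_kl {g : Gm} {N L : ℕ} {x y : ℕ → ℕ} (H : Ok g N L x y) (E : ℕ) (v : ℕ → ℕ)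
    {k l : ℕ} (hk : k < g.n) (hl : l < g.n) :
    ww g N E L x y v (kst g E L x y v) (cst g E L x y v) ≤ ww g N E L x y v k l := by
  have hN := H.hN
  have hL := H.hL
  have hNp : (0 : ℝ) < N := by exact_mod_cast hN
  have hLp : (0 : ℝ) < L := by exact_mod_cast hL
  have hNL : (0 : ℝ) < N * L := mul_pos hNp hLp
  have e : ∀ k l : ℕ, ww g N E L x y v k l =
      (cv g.n (rm N g.A) (rl 1 (wR g E L x y v)) l -
        (tot g.n (wR g E L x y v) : ℝ) * cv g.n (rm N g.A) (rl L x) l -
        (tot g.n (wC g E L x y v) : ℝ) * cv g.n (rm N g.B) (rl L x) l) +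
      (rv g.n (rm N g.B) (rl 1 (wC g E L x y v)) k -
        (tot g.n (wR g E L x y v) : ℝ) * rv g.n (rm N g.A) (rl L y) k -
        (tot g.n (wC g E L x y v) : ℝ) * rv g.n (rm N g.B) (rl L y) k) +
      (ww g N E L x y v 0 0 - (cv g.n (rm N g.A) (rl 1 (wR g E L x y v)) 0 -
        (tot g.n (wR g E L x y v) : ℝ) * cv g.n (rm N g.A) (rl L x) 0 -
        (tot g.n (wC g E L x y v) : ℝ) * cv g.n (rm N g.B) (rl L x) 0) -
      (rv g.n (rm N g.B) (rl 1 (wC g E L x y v)) 0 -
        (tot g.n (wR g E L x y v) : ℝ) * rv g.n (rm N g.A) (rl L y) 0 -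
        (tot g.n (wC g E L x y v) : ℝ) * rv g.n (rm N g.B) (rl L y) 0)) := by
    intro k l
    have h1 : ((tot g.n (wR g E L x y v) : ℕ) : ℝ) =
        ∑ r ∈ range g.n, (wR g E L x y v r : ℝ) := by
      unfold tot
      push_cast
      rfl
    have h2 : ((tot g.n (wC g E L x y v) : ℕ) : ℝ) =
        ∑ r ∈ range g.n, (wC g E L x y v r : ℝ) := by
      unfold tot
      push_cast
      rfl
    unfold ww aR aC
    rw [row_sum (q := fun r => (wR g E L x y v r : ℝ)) k l,
      row_sum (q := fun r => (wR g E L x y v r : ℝ)) 0 0,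
      col_sum (q := fun r => (wC g E L x y v r : ℝ)) k l,
      col_sum (q := fun r => (wC g E L x y v r : ℝ)) 0 0, h1, h2, rl_one, rl_one]
    ring
  have hk' := (argm_spec H.hn (fun k => L * rn g.n g.B (wC g E L x y v) k)
    (fun k => tot g.n (wR g E L x y v) * rn g.n g.A y k +
      tot g.n (wC g E L x y v) * rn g.n g.B y k)).2 k hk
  have hl' := (argm_spec H.hn (fun l => L * cn g.n g.A (wR g E L x y v) l)
    (fun l => tot g.n (wR g E L x y v) * cn g.n g.A x l +
      tot g.n (wC g E L x y v) * cn g.n g.B x l)).2 l hl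
  change L * rn g.n g.B (wC g E L x y v) (kst g E L x y v) +
      (tot g.n (wR g E L x y v) * rn g.n g.A y k +
      tot g.n (wC g E L x y v) * rn g.n g.B y k) ≤
    L * rn g.n g.B (wC g E L x y v) k +
      (tot g.n (wR g E L x y v) * rn g.n g.A y (kst g E L x y v) +
      tot g.n (wC g E L x y v) * rn g.n g.B y (kst g E L x y v)) at hk'
  change L * cn g.n g.A (wR g E L x y v) (cst g E L x y v) +
      (tot g.n (wR g E L x y v) * cn g.n g.A x l +
      tot g.n (wC g E L x y v) * cn g.n g.B x l) ≤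
    L * cn g.n g.A (wR g E L x y v) l +
      (tot g.n (wR g E L x y v) * cn g.n g.A x (cst g E L x y v) +
      tot g.n (wC g E L x y v) * cn g.n g.B x (cst g E L x y v)) at hl'
  have hk2 : ((L * rn g.n g.B (wC g E L x y v) (kst g E L x y v) +
      (tot g.n (wR g E L x y v) * rn g.n g.A y k +
      tot g.n (wC g E L x y v) * rn g.n g.B y k) : ℕ) : ℝ) ≤
    ((L * rn g.n g.B (wC g E L x y v) k +
      (tot g.n (wR g E L x y v) * rn g.n g.A y (kst g E L x y v) +
      tot g.n (wC g E L x y v) * rn g.n g.B y (kst g E L x y v)) : ℕ) : ℝ) := by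
    exact_mod_cast hk'
  have hl2 : ((L * cn g.n g.A (wR g E L x y v) (cst g E L x y v) +
      (tot g.n (wR g E L x y v) * cn g.n g.A x l +
      tot g.n (wC g E L x y v) * cn g.n g.B x l) : ℕ) : ℝ) ≤
    ((L * cn g.n g.A (wR g E L x y v) l +
      (tot g.n (wR g E L x y v) * cn g.n g.A x (cst g E L x y v) +
      tot g.n (wC g E L x y v) * cn g.n g.B x (cst g E L x y v)) : ℕ) : ℝ) := by
    exact_mod_cast hl'
  simp only [Nat.cast_add, Nat.cast_mul] at hk2 hl2
  simp only [cast_rn hN le_rfl g.B (wC g E L x y v), cast_rn hN hL g.B y,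
    cast_rn hN hL g.A y] at hk2
  simp only [cast_cn hN le_rfl g.A (wR g E L x y v), cast_cn hN hL g.B x,
    cast_cn hN hL g.A x] at hl2
  rw [e (kst g E L x y v) (cst g E L x y v), e k l]
  have ha : rv g.n (rm N g.B) (rl 1 (wC g E L x y v)) (kst g E L x y v) -
        (tot g.n (wR g E L x y v) : ℝ) * rv g.n (rm N g.A) (rl L y) (kst g E L x y v) -
        (tot g.n (wC g E L x y v) : ℝ) * rv g.n (rm N g.B) (rl L y) (kst g E L x y v) ≤
      rv g.n (rm N g.B) (rl 1 (wC g E L x y v)) k -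
        (tot g.n (wR g E L x y v) : ℝ) * rv g.n (rm N g.A) (rl L y) k -
        (tot g.n (wC g E L x y v) : ℝ) * rv g.n (rm N g.B) (rl L y) k := by
    refine le_of_mul_le_mul_left ?_ hNL
    simp only [Nat.cast_one, mul_one] at hk2
    linarith
  have hb : cv g.n (rm N g.A) (rl 1 (wR g E L x y v)) (cst g E L x y v) -
        (tot g.n (wR g E L x y v) : ℝ) * cv g.n (rm N g.A) (rl L x) (cst g E L x y v) -
        (tot g.n (wC g E L x y v) : ℝ) * cv g.n (rm N g.B) (rl L x) (cst g E L x y v) ≤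
      cv g.n (rm N g.A) (rl 1 (wR g E L x y v)) l -
        (tot g.n (wR g E L x y v) : ℝ) * cv g.n (rm N g.A) (rl L x) l -
        (tot g.n (wC g E L x y v) : ℝ) * cv g.n (rm N g.B) (rl L x) l := by
    refine le_of_mul_le_mul_left ?_ hNL
    simp only [Nat.cast_one, mul_one] at hl2
    linarith
  linarith

end Nsh
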