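import Pool.Agent.Lib.Nsh.Defs
import Pool.Agent.Lib.Wsm.Tab
import Pool.Agent.Lib.P8e91ed.Scheme

/-! MP_602ccf: the algorithm, with natural numbers.

A game is given by `n` and by two matrices of natural numbers at most `N` (payoffs multiplied by
`N`); a mixed strategy is given by natural weights `x i`, `i < n`, with total `tot n x`. -/

namespace Nsh

open Finset

/-- a game with natural entries (row player: `A`, column player: `B`) -/
structure Gm where
  n : ℕ
  A : ℕ → ℕ → ℕ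
  B : ℕ → ℕ → ℕ

/-- payoff of the row `i` against the weights `y` -/
def rn (n : ℕ) (A : ℕ → ℕ → ℕ) (y : ℕ → ℕ) (i : ℕ) : ℕ := ∑ j ∈ range n, A i j * y j

/-- payoff of the column `j` against the weights `x` -/
def cn (n : ℕ) (A : ℕ → ℕ → ℕ) (x : ℕ → ℕ) (j : ℕ) : ℕ := ∑ i ∈ range n, x i * A i j

/-- payoff of a pair of weights -/
def pn (n : ℕ) (A : ℕ → ℕ → ℕ) (x y : ℕ → ℕ) : ℕ := ∑ i ∈ range n, x i * rn n A y i

/-- total weight -/
def tot (n : ℕ) (x : ℕ → ℕ) : ℕ := ∑ i ∈ range n, x i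

/-- largest value -/
def top (n : ℕ) (f : ℕ → ℕ) : ℕ := (range n).sup f

/-- first index that minimises `F - G` -/
noncomputable def argm (n : ℕ) (F G : ℕ → ℕ) : ℕ :=
  Pool.Agent.Lib.Wsm.lst n (fun k => ∀ k' ∈ range n, F k + G k' ≤ F k' + G k)

/-- second half of a state -/
def sh (n : ℕ) (v : ℕ → ℕ) : ℕ → ℕ := fun i => v (n + i)

/-- `N L² (f - 1 / N)`, `f` the largest regret of `(x, y)` -/
def vv (g : Gm) (L : ℕ) (x y : ℕ → ℕ) : ℕ :=
  max (L * top g.n (rn g.n g.A y) - pn g.n g.A x y)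
    (L * top g.n (cn g.n g.B x) - pn g.n g.B x y) - L * L

/-- positive part of the potential of the row `r` -/
def qR (g : Gm) (E L : ℕ) (x y : ℕ → ℕ) (t : ℕ) (ck cl : ℕ → ℕ) (r : ℕ) : ℕ :=
  (L * L * rn g.n g.A cl r + t * pn g.n g.A x y) -
    (t * (E - 1) * L * (top g.n (rn g.n g.A y) - rn g.n g.A y r) + L * pn g.n g.A ck y +
      L * pn g.n g.A x cl + t * vv g L x y)

/-- positive part of the potential of the column `c` -/
def qC (g : Gm) (E L : ℕ) (x y : ℕ → ℕ) (t : ℕ) (ck cl : ℕ → ℕ) (c : ℕ) : ℕ :=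
  (L * L * cn g.n g.B ck c + t * pn g.n g.B x y) -
    (t * (E - 1) * L * (top g.n (cn g.n g.B x) - cn g.n g.B x c) + L * pn g.n g.B ck y +
      L * pn g.n g.B x cl + t * vv g L x y)

/-- row weights of a state -/
def wR (g : Gm) (E L : ℕ) (x y v : ℕ → ℕ) : ℕ → ℕ := qR g E L x y (tot g.n v) v (sh g.n v)

/-- column weights of a state -/
def wC (g : Gm) (E L : ℕ) (x y v : ℕ → ℕ) : ℕ → ℕ := qC g E L x y (tot g.n v) v (sh g.n v)

/-- the row added to a state -/
noncomputable def kst (g : Gm) (E L : ℕ) (x y v : ℕ → ℕ) : ℕ :=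
  argm g.n (fun k => L * rn g.n g.B (wC g E L x y v) k)
    (fun k => tot g.n (wR g E L x y v) * rn g.n g.A y k +
      tot g.n (wC g E L x y v) * rn g.n g.B y k)

/-- the column added to a state -/
noncomputable def cst (g : Gm) (E L : ℕ) (x y v : ℕ → ℕ) : ℕ :=
  argm g.n (fun l => L * cn g.n g.A (wR g E L x y v) l)
    (fun l => tot g.n (wR g E L x y v) * cn g.n g.A x l +
      tot g.n (wC g E L x y v) * cn g.n g.B x l)

/-- one step of the auxiliary game: a state is `2 n` counters -/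
noncomputable def step (g : Gm) (E L : ℕ) (x y v : ℕ → ℕ) : ℕ → ℕ := fun i =>
  v i + (if i = kst g E L x y v then 1 else 0) + (if i = g.n + cst g E L x y v then 1 else 0)

/-- `t` steps -/
noncomputable def run (g : Gm) (E L : ℕ) (x y : ℕ → ℕ) (t : ℕ) : ℕ → ℕ :=
  (step g E L x y)^[t] (fun _ => 0)

/-- number of steps in a stage -/
def TT (N n : ℕ) : ℕ := 8 * N ^ 2 * (8 * N + 3) ^ 2 * n

/-- total weight at the stage `s` -/
def LL (N n s : ℕ) : ℕ := TT N n * (8 * N) ^ s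

/-- the pair of the stage `s` -/
noncomputable def stg (g : Gm) (N : ℕ) : ℕ → (ℕ → ℕ) × (ℕ → ℕ)
  | 0 => (fun i => if i = 0 then TT N g.n else 0, fun i => if i = 0 then TT N g.n else 0)
  | s + 1 =>
    (fun i => (8 * N - 1) * (stg g N s).1 i + (8 * N) ^ s *
      run g (8 * N) (LL N g.n s) (stg g N s).1 (stg g N s).2 (TT N g.n) i,
     fun i => (8 * N - 1) * (stg g N s).2 i + (8 * N) ^ s *
      sh g.n (run g (8 * N) (LL N g.n s) (stg g N s).1 (stg g N s).2 (TT N g.n)) i)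

/-- row weights of the candidates -/
def cdX (n N L : ℕ) (x qr : ℕ → ℕ) (ty i h : ℕ) : ℕ → ℕ := fun r =>
  if ty = 0 then x r
  else if ty = 1 then tot n qr * x r + L * qr r
  else if ty = 2 then i * (tot n qr * x r + L * qr r) +
    (if r = h then (N - i) * (2 * L * tot n qr) else 0)
  else qr r

/-- column weights of the candidates -/
def cdY (n N L : ℕ) (y qc : ℕ → ℕ) (ty i h : ℕ) : ℕ → ℕ := fun c =>
  if ty = 0 then y c
  else if ty = 1 then tot n qc * y c + L * qc c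
  else if ty = 2 then qc c
  else i * (tot n qc * y c + L * qc c) + (if c = h then (N - i) * (2 * L * tot n qc) else 0)

/-- the test -/
def pass (g : Gm) (N : ℕ) (X Y : ℕ → ℕ) : Prop :=
  1 ≤ tot g.n X ∧ 1 ≤ tot g.n Y ∧
  (∀ r ∈ range g.n, 40 * (tot g.n X * rn g.n g.A Y r) ≤
    40 * pn g.n g.A X Y + (13 * N - 40) * (tot g.n X * tot g.n Y)) ∧
  (∀ c ∈ range g.n, 40 * (tot g.n Y * cn g.n g.B X c) ≤
    40 * pn g.n g.B X Y + (13 * N - 40) * (tot g.n X * tot g.n Y))

/-- the parameters `t`, `ty`, `i`, `h` of the candidate number `m` -/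
def qt (n N m : ℕ) : ℕ := m / (4 * ((N + 1) * n))
def qy (n N m : ℕ) : ℕ := m % (4 * ((N + 1) * n)) / ((N + 1) * n)
def qi (n N m : ℕ) : ℕ := m % (4 * ((N + 1) * n)) % ((N + 1) * n) / n
def qh (n N m : ℕ) : ℕ := m % (4 * ((N + 1) * n)) % ((N + 1) * n) % n

/-- the state used by the candidate number `m` of the stage `s` -/
noncomputable def stt (g : Gm) (N s m : ℕ) : ℕ → ℕ :=
  run g (8 * N) (LL N g.n s) (stg g N s).1 (stg g N s).2 (qt g.n N m)

/-- rows of the candidate number `m` of the stage `s` -/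
noncomputable def cX (g : Gm) (N s m : ℕ) : ℕ → ℕ :=
  cdX g.n N (LL N g.n s) (stg g N s).1
    (wR g (8 * N) (LL N g.n s) (stg g N s).1 (stg g N s).2 (stt g N s m))
    (qy g.n N m) (qi g.n N m) (qh g.n N m)

/-- columns of the candidate number `m` of the stage `s` -/
noncomputable def cY (g : Gm) (N s m : ℕ) : ℕ → ℕ :=
  cdY g.n N (LL N g.n s) (stg g N s).2
    (wC g (8 * N) (LL N g.n s) (stg g N s).1 (stg g N s).2 (stt g N s m))
    (qy g.n N m) (qi g.n N m) (qh g.n N m)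

/-- number of candidates of a stage -/
def NC (n N : ℕ) : ℕ := TT N n * (4 * ((N + 1) * n))

/-- first candidate of the stage `s` that passes the test -/
noncomputable def fc (g : Gm) (N s : ℕ) : ℕ :=
  Pool.Agent.Lib.Wsm.lst (NC g.n N) (fun m => pass g N (cX g N s m) (cY g N s m))

open Classical in
/-- result after the stages `0, …, s` -/
noncomputable def out (g : Gm) (N : ℕ) : ℕ → (ℕ → ℕ) × (ℕ → ℕ)
  | 0 => (cX g N 0 (fc g N 0), cY g N 0 (fc g N 0))
  | s + 1 => if pass g N (out g N s).1 (out g N s).2 then out g N s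
    else (cX g N (s + 1) (fc g N (s + 1)), cY g N (s + 1) (fc g N (s + 1)))

/-- the game with natural entries attached to an input `(n, entries)`; the entries are
multiplied by `2 ^ p` and rounded down -/
noncomputable def gm (p : ℕ) (w : ℕ × List ℚ) : Gm where
  n := w.1
  A i j := Pool.Agent.Lib.P8e91ed.tabOf p w.2 (i * w.1 + j)
  B i j := Pool.Agent.Lib.P8e91ed.tabOf p w.2 (w.1 * w.1 + (i * w.1 + j))

/-- the algorithm -/
noncomputable def sol (p : ℕ) (w : ℕ × List ℚ) : List (ℕ × ℕ) × List (ℕ × ℕ) :=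
  ((List.range w.1).map fun i => ((out (gm p w) (2 ^ p) (32 * (2 ^ p) ^ 2)).1 i,
      tot w.1 (out (gm p w) (2 ^ p) (32 * (2 ^ p) ^ 2)).1),
   (List.range w.1).map fun i => ((out (gm p w) (2 ^ p) (32 * (2 ^ p) ^ 2)).2 i,
      tot w.1 (out (gm p w) (2 ^ p) (32 * (2 ^ p) ^ 2)).2))

/-! ### Real game and strategies -/

/-- real matrix -/
noncomputable def rm (N : ℕ) (A : ℕ → ℕ → ℕ) : ℕ → ℕ → ℝ := fun i j => (A i j : ℝ) / N

/-- real strategy -/
noncomputable def rl (L : ℕ) (x : ℕ → ℕ) : ℕ → ℝ := fun i => (x i : ℝ) / L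

/-- largest payoff of a row against `y` -/
noncomputable def mR (g : Gm) (N L : ℕ) (y : ℕ → ℕ) : ℝ :=
  (top g.n (rn g.n g.A y) : ℝ) / (N * L)

/-- largest payoff of a column against `x` -/
noncomputable def mC (g : Gm) (N L : ℕ) (x : ℕ → ℕ) : ℝ :=
  (top g.n (cn g.n g.B x) : ℝ) / (N * L)

/-- largest regret of `(x, y)` -/
noncomputable def fF (g : Gm) (N L : ℕ) (x y : ℕ → ℕ) : ℝ :=
  max (mR g N L y - bil g.n (rm N g.A) (rl L x) (rl L y))
    (mC g N L x - bil g.n (rm N g.B) (rl L x) (rl L y))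

/-- the value `f - 1 / N`, if it is not negative -/
noncomputable def vr (g : Gm) (N L : ℕ) (x y : ℕ → ℕ) : ℝ := (vv g L x y : ℝ) / (N * L ^ 2)

/-- real potential of the row `r`; `ck`, `cl` are the counters -/
noncomputable def uR (g : Gm) (N E L : ℕ) (x y : ℕ → ℕ) (t : ℕ) (ck cl : ℕ → ℝ)
    (r : ℕ) : ℝ :=
  rv g.n (rm N g.A) cl r - t * ((E : ℝ) - 1) * (mR g N L y - rv g.n (rm N g.A) (rl L y) r) -
    bil g.n (rm N g.A) ck (rl L y) - bil g.n (rm N g.A) (rl L x) cl +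
    t * bil g.n (rm N g.A) (rl L x) (rl L y) - t * vr g N L x y

/-- real potential of the column `c` -/
noncomputable def uC (g : Gm) (N E L : ℕ) (x y : ℕ → ℕ) (t : ℕ) (ck cl : ℕ → ℝ)
    (c : ℕ) : ℝ :=
  cv g.n (rm N g.B) ck c - t * ((E : ℝ) - 1) * (mC g N L x - cv g.n (rm N g.B) (rl L x) c) -
    bil g.n (rm N g.B) ck (rl L y) - bil g.n (rm N g.B) (rl L x) cl +
    t * bil g.n (rm N g.B) (rl L x) (rl L y) - t * vr g N L x y

/-- payoff of the auxiliary game, row type -/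
noncomputable def aR (g : Gm) (N E L : ℕ) (x y : ℕ → ℕ) (k l r : ℕ) : ℝ :=
  gR g.n (rm N g.A) E (mR g N L y) (rl L x) (rl L y) k l r

/-- payoff of the auxiliary game, column type -/
noncomputable def aC (g : Gm) (N E L : ℕ) (x y : ℕ → ℕ) (k l c : ℕ) : ℝ :=
  gC g.n (rm N g.B) E (mC g N L x) (rl L x) (rl L y) k l c

/-- weighted payoff of the auxiliary game minus the value, at the direction `(k, l)` -/
noncomputable def ww (g : Gm) (N E L : ℕ) (x y v : ℕ → ℕ) (k l : ℕ) : ℝ :=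
  (∑ r ∈ range g.n, (wR g E L x y v r : ℝ) * (aR g N E L x y k l r - vr g N L x y)) +
    ∑ c ∈ range g.n, (wC g E L x y v c : ℝ) * (aC g N E L x y k l c - vr g N L x y)

/-- a game with entries at most `N` and a pair of weights of total `L` -/
structure Ok (g : Gm) (N L : ℕ) (x y : ℕ → ℕ) : Prop where
  hn : 1 ≤ g.n
  hN : 1 ≤ N
  hL : 1 ≤ L
  tx : tot g.n x = L
  ty : tot g.n y = L
  hA : ∀ i < g.n, ∀ j < g.n, g.A i j ≤ N
  hB : ∀ i < g.n, ∀ j < g.n, g.B i j ≤ N

end Nsh
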