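import Pool.Agent.Lib.Nsh.NoCert
import Pool.Agent.Lib.Nsh.Descent

/-! MP_602ccf, module Nsh.Next: without a certificate the next pair is better
(the imported modules are black boxes).

`μ` is the factor with `L = T μ`, `T = TT N n ≥ 1`.  `next_ok`: `tot` of the new weights is
`(8 N - 1) L + μ T = 8 N L` (`run_tot`; `8 N ≥ 1`).
`next_le`: put `E = 8 N`, `x' = rl T (run T)`, `y' = rl T (sh n (run T))` (mixed: `mix_rl`, `run_tot`).
Then `rl (8 N L) (new x) = cmb (1 - 1 / E) (rl L x) x'` pointwise.  With `V = vr = fF - 1 / N`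
(`vr_eq`) and `small_pot`, dividing `uR ≤ T / (2 N)` by `T` (the counters `rl 1 v` are `T` times
`rl T v`) gives `hU` of `descent_row` with `W = V + 1 / (2 N) = fF - 1 / (2 N)`, `M = mR`, `F = fF`
(`mR - bil ≤ fF` by `le_max_left`).  The bound is
`(1 - 1/E) fF + (fF - 1/(2N)) / E + 2 / E² = fF - 1/(16 N²) + 1/(32 N²) = fF - 1/(32 N²)`.
Then `fF` of the new pair is the maximum over the rows and columns: `exists_mR`-part of `rv_le_mR`,
`cv_le_mC`.
-/

namespace Nsh

open Finset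

namespace NextAux

lemma rv_smul (n : ℕ) (R : ℕ → ℕ → ℝ) (c : ℝ) (u : ℕ → ℝ) (r : ℕ) :
    rv n R (fun i => c * u i) r = c * rv n R u r := by
  unfold rv
  rw [mul_sum]
  exact sum_congr rfl fun j _ => by ring

lemma cv_smul (n : ℕ) (R : ℕ → ℕ → ℝ) (c : ℝ) (u : ℕ → ℝ) (r : ℕ) :
    cv n R (fun i => c * u i) r = c * cv n R u r := by
  unfold cv
  rw [mul_sum]
  exact sum_congr rfl fun j _ => by ring

lemma bil_smul_left (n : ℕ) (R : ℕ → ℕ → ℝ) (c : ℝ) (u y : ℕ → ℝ) :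
    bil n R (fun i => c * u i) y = c * bil n R u y := by
  unfold bil
  rw [mul_sum]
  exact sum_congr rfl fun j _ => by ring

lemma bil_smul_right (n : ℕ) (R : ℕ → ℕ → ℝ) (c : ℝ) (x u : ℕ → ℝ) :
    bil n R x (fun i => c * u i) = c * bil n R x u := by
  unfold bil
  rw [mul_sum]
  exact sum_congr rfl fun j _ => by rw [rv_smul]; ring

lemma rl_one {T : ℕ} (hT : 1 ≤ T) (v : ℕ → ℕ) : rl 1 v = fun i => (T : ℝ) * rl T v i := by
  have h : (T : ℝ) ≠ 0 := by
    have : (1 : ℝ) ≤ T := by exact_mod_cast hT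
    linarith
  funext i
  unfold rl
  field_simp
  simp

lemma rl_new {N T μ : ℕ} (hN : 1 ≤ N) (hT : 1 ≤ T) (hμ : 1 ≤ μ) (x v : ℕ → ℕ) :
    rl (8 * N * (T * μ)) (fun i => (8 * N - 1) * x i + μ * v i) =
      cmb (1 - 1 / ((8 * N : ℕ) : ℝ)) (rl (T * μ) x) (rl T v) := by
  have h1 : (N : ℝ) ≠ 0 := by
    have : (1 : ℝ) ≤ N := by exact_mod_cast hN
    linarith
  have h2 : (T : ℝ) ≠ 0 := by
    have : (1 : ℝ) ≤ T := by exact_mod_cast hT
    linarith
  have h3 : (μ : ℝ) ≠ 0 := by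
    have : (1 : ℝ) ≤ μ := by exact_mod_cast hμ
    linarith
  funext i
  unfold rl cmb
  rw [Nat.cast_add, Nat.cast_mul, Nat.cast_mul, Nat.cast_sub (by omega)]
  push_cast
  field_simp
  ring

lemma tot_new {n N L T μ : ℕ} (hN : 1 ≤ N) (hL : L = T * μ) {x v : ℕ → ℕ} (hx : tot n x = L)
    (hv : tot n v = T) : tot n (fun i => (8 * N - 1) * x i + μ * v i) = 8 * N * L := by
  unfold tot at *
  rw [sum_add_distrib, ← mul_sum, ← mul_sum, hx, hv]
  have h1 : μ * T = L := by rw [hL, mul_comm]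
  rw [h1]
  obtain ⟨k, hk⟩ : ∃ k, 8 * N = k + 1 := ⟨8 * N - 1, by omega⟩
  rw [hk, Nat.add_sub_cancel]
  ring

lemma divide {T a b : ℝ} (hT : 0 < T) (h : T * a ≤ T * b) : a ≤ b :=
  le_of_mul_le_mul_left h hT

end NextAux

open NextAux

theorem TT_pos {N n : ℕ} (hN : 1 ≤ N) (hn : 1 ≤ n) : 1 ≤ TT N n := by
  unfold TT
  have h1 : 0 < N := hN
  have h2 : 0 < n := hn
  have : 0 < 8 * N ^ 2 * (8 * N + 3) ^ 2 * n := by positivity
  exact this

theorem next_ok {g : Gm} {N L μ : ℕ} {x y : ℕ → ℕ} (H : Ok g N L x y)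
    (hL : L = TT N g.n * μ) :
    Ok g N (8 * N * L)
      (fun i => (8 * N - 1) * x i + μ * run g (8 * N) L x y (TT N g.n) i)
      (fun i => (8 * N - 1) * y i + μ * sh g.n (run g (8 * N) L x y (TT N g.n)) i) where
  hn := H.hn
  hN := H.hN
  hL := by
    have h1 := H.hN
    have h2 := H.hL
    have : 0 < 8 * N * L := by positivity
    exact this
  tx := tot_new H.hN hL H.tx (run_tot H.hn _ _ _ _ _).1
  ty := tot_new H.hN hL H.ty (run_tot H.hn _ _ _ _ _).2
  hA := H.hA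
  hB := H.hB

theorem next_le {g : Gm} {N L μ : ℕ} {x y : ℕ → ℕ} (H : Ok g N L x y)
    (hL : L = TT N g.n * μ) (hf : 1 / (N : ℝ) ≤ fF g N L x y)
    (hs : ∀ t < TT N g.n, ww g N (8 * N) L x y (run g (8 * N) L x y t)
      (kst g (8 * N) L x y (run g (8 * N) L x y t))
      (cst g (8 * N) L x y (run g (8 * N) L x y t)) ≤ 0) :
    fF g N (8 * N * L)
      (fun i => (8 * N - 1) * x i + μ * run g (8 * N) L x y (TT N g.n) i)
      (fun i => (8 * N - 1) * y i + μ * sh g.n (run g (8 * N) L x y (TT N g.n)) i) ≤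
    fF g N L x y - 1 / (32 * N ^ 2) := by
  have hT : 1 ≤ TT N g.n := TT_pos H.hN H.hn
  have hLp := H.hL
  have hμ : 1 ≤ μ := by
    rcases Nat.eq_zero_or_pos μ with h | h
    · rw [h, mul_zero] at hL
      omega
    · exact h
  have hT0 : (0 : ℝ) < TT N g.n := by exact_mod_cast hT
  have hN0 : (0 : ℝ) < N := by exact_mod_cast H.hN
  have hN1 : (1 : ℝ) ≤ N := by exact_mod_cast H.hN
  have hok := next_ok H hL
  have hrt := run_tot H.hn (8 * N) L x y (TT N g.n)
  have hp := small_pot H hs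
  have hvr := vr_eq H hf
  set T := TT N g.n with hTd
  set v := run g (8 * N) L x y T with hv
  set F := fF g N L x y with hF
  have hx' : Mix g.n (rl T v) := mix_rl hT hrt.1
  have hy' : Mix g.n (rl T (sh g.n v)) := mix_rl hT hrt.2
  have hx : Mix g.n (rl L x) := mix_rl H.hL H.tx
  have hy : Mix g.n (rl L y) := mix_rl H.hL H.ty
  have hUA : U01 g.n (rm N g.A) := u01_rm H.hN H.hA
  have hUB : U01 g.n (rm N g.B) := u01_rm H.hN H.hB
  have hE1 : (1 : ℝ) ≤ ((8 * N : ℕ) : ℝ) := by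
    push_cast
    linarith
  have hMR : mR g N L y ≤ bil g.n (rm N g.A) (rl L x) (rl L y) + F := by
    have : mR g N L y - bil g.n (rm N g.A) (rl L x) (rl L y) ≤ F := le_max_left _ _
    linarith
  have hMC : mC g N L x ≤ bil g.n (rm N g.B) (rl L x) (rl L y) + F := by
    have : mC g N L x - bil g.n (rm N g.B) (rl L x) (rl L y) ≤ F := le_max_right _ _
    linarith
  have hUr : ∀ r < g.n, rv g.n (rm N g.A) (rl T (sh g.n v)) r -
      (((8 * N : ℕ) : ℝ) - 1) * (mR g N L y - rv g.n (rm N g.A) (rl L y) r) -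
      bil g.n (rm N g.A) (rl T v) (rl L y) - bil g.n (rm N g.A) (rl L x) (rl T (sh g.n v)) +
      bil g.n (rm N g.A) (rl L x) (rl L y) ≤ F - 1 / (2 * N) := by
    intro r hr
    have h1 := (hp r hr).1
    unfold uR at h1
    rw [rl_one hT v, rl_one hT (sh g.n v), rv_smul, bil_smul_left, bil_smul_right, hvr] at h1
    refine divide hT0 ?_
    have h2 : (T : ℝ) / (2 * N) = T * (1 / (2 * N)) := by ring
    have h3 : (T : ℝ) * (F - 1 / N) = T * F - T * (1 / (2 * N)) - T * (1 / (2 * N)) := by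
      field_simp
      ring
    rw [h2, h3] at h1
    linear_combination h1
  have hUc : ∀ c < g.n, cv g.n (rm N g.B) (rl T v) c -
      (((8 * N : ℕ) : ℝ) - 1) * (mC g N L x - cv g.n (rm N g.B) (rl L x) c) -
      bil g.n (rm N g.B) (rl T v) (rl L y) - bil g.n (rm N g.B) (rl L x) (rl T (sh g.n v)) +
      bil g.n (rm N g.B) (rl L x) (rl L y) ≤ F - 1 / (2 * N) := by
    intro r hr
    have h1 := (hp r hr).2
    unfold uC at h1
    rw [rl_one hT v, rl_one hT (sh g.n v), cv_smul, bil_smul_left, bil_smul_right, hvr] at h1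
    refine divide hT0 ?_
    have h2 : (T : ℝ) / (2 * N) = T * (1 / (2 * N)) := by ring
    have h3 : (T : ℝ) * (F - 1 / N) = T * F - T * (1 / (2 * N)) - T * (1 / (2 * N)) := by
      field_simp
      ring
    rw [h2, h3] at h1
    linear_combination h1
  have hbd : (1 - 1 / ((8 * N : ℕ) : ℝ)) * F + (F - 1 / (2 * N)) / ((8 * N : ℕ) : ℝ) +
      2 / ((8 * N : ℕ) : ℝ) ^ 2 = F - 1 / (32 * N ^ 2) := by
    push_cast
    field_simp
    ring
  have hrow := descent_row hUA hx hy hx' hy' hE1 hMR hUr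
  have hcol := descent_col hUB hx hy hx' hy' hE1 hMC hUc
  rw [hbd] at hrow hcol
  have ex : rl (8 * N * L) (fun i => (8 * N - 1) * x i + μ * v i) =
      cmb (1 - 1 / ((8 * N : ℕ) : ℝ)) (rl L x) (rl T v) := by
    rw [hL]
    exact rl_new H.hN hT hμ x v
  have ey : rl (8 * N * L) (fun i => (8 * N - 1) * y i + μ * sh g.n v i) =
      cmb (1 - 1 / ((8 * N : ℕ) : ℝ)) (rl L y) (rl T (sh g.n v)) := by
    rw [hL]
    exact rl_new H.hN hT hμ y (sh g.n v)
  unfold fF
  refine max_le ?_ ?_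
  · obtain ⟨i, hi, hmi⟩ := (rv_le_mR H.hN hok.hL H.hn
      (fun i => (8 * N - 1) * y i + μ * sh g.n v i)).2
    rw [hmi, ex, ey]
    have := hrow i hi
    linarith
  · obtain ⟨i, hi, hmi⟩ := (cv_le_mC H.hN hok.hL H.hn
      (fun i => (8 * N - 1) * x i + μ * v i)).2
    rw [hmi, ex, ey]
    have := hcol i hi
    linarith

end Nsh
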