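import Pool.Agent.Lib.Nsh.Cast

/-! MP_602ccf, module Nsh.RunInv: the counters along the run (`Nsh.Cast` is a black box).

`kst_lt`, `cst_lt`: `argm_spec`.  `run_succ`: `Function.iterate_succ_apply'`.
`run_tot`: induction: a step adds `1` at the index `kst < n` to the first half (the second
indicator `i = n + cst` vanishes for `i < n`) and `1` at the index `n + cst` to the second half (the
first indicator vanishes at `n + i`, as `kst < n`): `Finset.sum_add_distrib`, `Finset.sum_ite_eq'`.
`run_fst`, `run_snd`: the same, read at an index `i < n`, with `rl 1 v i = v i` and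
`pu h i = if i = h then 1 else 0`.  `incR`, `incC`: unfold `uR` at `t + 1` and at `t`; all the terms
are linear in the counters: `rv`, `cv`, `bil` depend only on the values at `i < n`
(`Finset.sum_congr`), `rv_pu`, `cv_pu`, `bil_pu_left`, `bil_pu_right`, `Finset.sum_add_distrib`;
the difference is `aR .. - vr ..` by definition of `gR`.
-/

namespace Nsh

open Finset

namespace RunInvAux

theorem rv_congr {n : ℕ} {R : ℕ → ℕ → ℝ} {y z : ℕ → ℝ} (h : ∀ i < n, y i = z i) (i : ℕ) :
    rv n R y i = rv n R z i := by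
  unfold rv
  exact sum_congr rfl (fun j hj => by rw [h j (mem_range.1 hj)])

theorem cv_congr {n : ℕ} {R : ℕ → ℕ → ℝ} {y z : ℕ → ℝ} (h : ∀ i < n, y i = z i) (i : ℕ) :
    cv n R y i = cv n R z i := by
  unfold cv
  exact sum_congr rfl (fun j hj => by rw [h j (mem_range.1 hj)])

theorem rv_add {n : ℕ} {R : ℕ → ℕ → ℝ} {y u v : ℕ → ℝ} (h : ∀ i < n, y i = u i + v i) (i : ℕ) :
    rv n R y i = rv n R u i + rv n R v i := by
  unfold rv
  rw [← sum_add_distrib]
  exact sum_congr rfl (fun j hj => by rw [h j (mem_range.1 hj)]; ring)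

theorem cv_add {n : ℕ} {R : ℕ → ℕ → ℝ} {y u v : ℕ → ℝ} (h : ∀ i < n, y i = u i + v i) (i : ℕ) :
    cv n R y i = cv n R u i + cv n R v i := by
  unfold cv
  rw [← sum_add_distrib]
  exact sum_congr rfl (fun j hj => by rw [h j (mem_range.1 hj)]; ring)

theorem bil_add_left {n : ℕ} {R : ℕ → ℕ → ℝ} {x u v y : ℕ → ℝ} (h : ∀ i < n, x i = u i + v i) :
    bil n R x y = bil n R u y + bil n R v y := by
  unfold bil
  rw [← sum_add_distrib]
  exact sum_congr rfl (fun j hj => by rw [h j (mem_range.1 hj)]; ring)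

theorem bil_add_right {n : ℕ} {R : ℕ → ℕ → ℝ} {x u v y : ℕ → ℝ} (h : ∀ i < n, y i = u i + v i) :
    bil n R x y = bil n R x u + bil n R x v := by
  unfold bil
  rw [← sum_add_distrib]
  exact sum_congr rfl (fun j _ => by rw [rv_add h]; ring)

end RunInvAux

open RunInvAux

theorem kst_lt {g : Gm} (hn : 1 ≤ g.n) (E L : ℕ) (x y v : ℕ → ℕ) : kst g E L x y v < g.n :=
  (argm_spec hn _ _).1

theorem cst_lt {g : Gm} (hn : 1 ≤ g.n) (E L : ℕ) (x y v : ℕ → ℕ) : cst g E L x y v < g.n :=
  (argm_spec hn _ _).1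

theorem run_succ (g : Gm) (E L : ℕ) (x y : ℕ → ℕ) (t : ℕ) :
    run g E L x y (t + 1) = step g E L x y (run g E L x y t) := by
  unfold run
  rw [Function.iterate_succ_apply']

namespace RunInvAux

theorem step_fst (g : Gm) (E L : ℕ) (x y v : ℕ → ℕ) {i : ℕ} (hi : i < g.n) :
    step g E L x y v i = v i + if i = kst g E L x y v then 1 else 0 := by
  unfold step
  rw [if_neg (show ¬ i = g.n + cst g E L x y v by omega), add_zero]

theorem step_snd {g : Gm} (hn : 1 ≤ g.n) (E L : ℕ) (x y v : ℕ → ℕ) (i : ℕ) :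
    sh g.n (step g E L x y v) i = sh g.n v i + if i = cst g E L x y v then 1 else 0 := by
  unfold sh step
  have h1 := kst_lt hn E L x y v
  rw [if_neg (show ¬ g.n + i = kst g E L x y v by omega), add_zero]
  congr 1
  by_cases h : i = cst g E L x y v
  · rw [if_pos h, if_pos (by omega)]
  · rw [if_neg h, if_neg (by omega)]

end RunInvAux

theorem run_tot {g : Gm} (hn : 1 ≤ g.n) (E L : ℕ) (x y : ℕ → ℕ) (t : ℕ) :
    tot g.n (run g E L x y t) = t ∧ tot g.n (sh g.n (run g E L x y t)) = t := by
  induction t with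
  | zero => simp [run, tot, sh]
  | succ t ih =>
    rw [run_succ]
    constructor
    · have h : tot g.n (step g E L x y (run g E L x y t)) =
          tot g.n (run g E L x y t) +
            ∑ i ∈ range g.n, if i = kst g E L x y (run g E L x y t) then 1 else 0 := by
        unfold tot
        rw [← sum_add_distrib]
        exact sum_congr rfl (fun i hi => step_fst g E L x y _ (mem_range.1 hi))
      rw [h, ih.1, sum_ite_eq', if_pos (mem_range.2 (kst_lt hn _ _ _ _ _))]
    · have h : tot g.n (sh g.n (step g E L x y (run g E L x y t))) =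
          tot g.n (sh g.n (run g E L x y t)) +
            ∑ i ∈ range g.n, if i = cst g E L x y (run g E L x y t) then 1 else 0 := by
        unfold tot
        rw [← sum_add_distrib]
        exact sum_congr rfl (fun i _ => step_snd hn E L x y _ i)
      rw [h, ih.2, sum_ite_eq', if_pos (mem_range.2 (cst_lt hn _ _ _ _ _))]

theorem run_fst {g : Gm} (hn : 1 ≤ g.n) (E L : ℕ) (x y : ℕ → ℕ) (t : ℕ) {i : ℕ} (hi : i < g.n) :
    rl 1 (run g E L x y (t + 1)) i =
      rl 1 (run g E L x y t) i + pu (kst g E L x y (run g E L x y t)) i := by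
  have _ := hn
  rw [run_succ]
  unfold rl pu
  rw [step_fst g E L x y _ hi]
  split_ifs <;> simp

theorem run_snd {g : Gm} (hn : 1 ≤ g.n) (E L : ℕ) (x y : ℕ → ℕ) (t : ℕ) {i : ℕ} (hi : i < g.n) :
    rl 1 (sh g.n (run g E L x y (t + 1))) i =
      rl 1 (sh g.n (run g E L x y t)) i + pu (cst g E L x y (run g E L x y t)) i := by
  have _ := hi
  rw [run_succ]
  unfold rl pu
  rw [step_snd hn]
  split_ifs <;> simp

/-- the increments of the row potentials -/
theorem incR {g : Gm} (hn : 1 ≤ g.n) (N E L : ℕ) (x y : ℕ → ℕ) (t r : ℕ) :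
    uR g N E L x y (t + 1) (rl 1 (run g E L x y (t + 1)))
        (rl 1 (sh g.n (run g E L x y (t + 1)))) r -
      uR g N E L x y t (rl 1 (run g E L x y t)) (rl 1 (sh g.n (run g E L x y t))) r =
    aR g N E L x y (kst g E L x y (run g E L x y t)) (cst g E L x y (run g E L x y t)) r -
      vr g N L x y := by
  have hk := kst_lt hn E L x y (run g E L x y t)
  have hc := cst_lt hn E L x y (run g E L x y t)
  have h1 : ∀ i < g.n, rl 1 (run g E L x y (t + 1)) i =
      rl 1 (run g E L x y t) i + pu (kst g E L x y (run g E L x y t)) i :=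
    fun i hi => run_fst hn E L x y t hi
  have h2 : ∀ i < g.n, rl 1 (sh g.n (run g E L x y (t + 1))) i =
      rl 1 (sh g.n (run g E L x y t)) i + pu (cst g E L x y (run g E L x y t)) i :=
    fun i hi => run_snd hn E L x y t hi
  unfold uR aR gR
  rw [rv_add h2, bil_add_left h1, bil_add_right h2, rv_pu hc, bil_pu_left hk, bil_pu_right hc]
  push_cast
  ring

/-- the increments of the column potentials -/
theorem incC {g : Gm} (hn : 1 ≤ g.n) (N E L : ℕ) (x y : ℕ → ℕ) (t c : ℕ) :
    uC g N E L x y (t + 1) (rl 1 (run g E L x y (t + 1)))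
        (rl 1 (sh g.n (run g E L x y (t + 1)))) c -
      uC g N E L x y t (rl 1 (run g E L x y t)) (rl 1 (sh g.n (run g E L x y t))) c =
    aC g N E L x y (kst g E L x y (run g E L x y t)) (cst g E L x y (run g E L x y t)) c -
      vr g N L x y := by
  have hk := kst_lt hn E L x y (run g E L x y t)
  have hc := cst_lt hn E L x y (run g E L x y t)
  have h1 : ∀ i < g.n, rl 1 (run g E L x y (t + 1)) i =
      rl 1 (run g E L x y t) i + pu (kst g E L x y (run g E L x y t)) i :=
    fun i hi => run_fst hn E L x y t hi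
  have h2 : ∀ i < g.n, rl 1 (sh g.n (run g E L x y (t + 1))) i =
      rl 1 (sh g.n (run g E L x y t)) i + pu (cst g E L x y (run g E L x y t)) i :=
    fun i hi => run_snd hn E L x y t hi
  unfold uC aC gC
  rw [cv_add h1, bil_add_left h1, bil_add_right h2, cv_pu hk, bil_pu_left hk, bil_pu_right hc]
  push_cast
  ring

end Nsh
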