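import Pool.Agent.Lib.Nsh.CastQ
import Pool.Agent.Lib.Nsh.RunInv
import Pool.Agent.Lib.Nsh.Approach

/-! MP_602ccf, module Nsh.NoCert: without a certificate the potentials stay small
(the imported modules are black boxes).

`ga_bound`: `aR = A/N - (E - 1) (mR - rv r) - rv k - cv l + bil`, all payoffs in `[0, 1]` (`u01_rm`,
`mix_rl`, `rv_nonneg`, `rv_le_one`, `cv_nonneg`, `cv_le_one`, `bil_nonneg`, `bil_le_one`), and
`0 ≤ mR - rv r ≤ 1` (`rv_le_mR`: `mR` is some `rv i`), `0 ≤ vr ≤ 1` (`vr_le`): the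
absolute value of `aR - vr` is at most `(E - 1) + 3 ≤ E + 3`.
`small_pot`: `Nsh.approach` with `u t r = uR .. t (rl 1 (run t)) (rl 1 (sh n (run t))) r`, the same
for `v` with `uC`, `T = TT N n`, `B = 8 N + 3`.  `u 0 = 0`: `run 0 = 0`.  Increments: `incR`, `incC`.
`hs`: `max (u t r) 0 = wR .. r / (N L²)` (`cast_qR` with `t = tot n (run t)`, `run_tot`), so the sum is
`ww .. (kst ..) (cst ..) / (N L²) ≤ 0`.  Conclusion: `max (u T r) 0 ^ 2 ≤ 2 n T (8 N + 3)²` and
`T = 8 N² (8 N + 3)² n`, so `2 n T (8 N + 3)² = (T / (2 N))²`; hence `u T r ≤ T / (2 N)`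
(`abs_le_of_sq_le_sq`, `le_max_left`).
-/

namespace Nsh

open Finset

theorem aR_bound {g : Gm} {N L : ℕ} {x y : ℕ → ℕ} (H : Ok g N L x y) {E : ℕ} (hE : 1 ≤ E)
    {k l r : ℕ} (hk : k < g.n) (hl : l < g.n) (hr : r < g.n) :
    |aR g N E L x y k l r - vr g N L x y| ≤ E + 3 := by
  have hR := u01_rm H.hN H.hA
  have hx := mix_rl H.hL H.tx
  have hy := mix_rl H.hL H.ty
  have hv := vr_le H
  have h1 := hR r hr l hl
  have h2 := (rv_le_mR H.hN H.hL H.hn y).1 r hr
  obtain ⟨i, hi, hM⟩ := (rv_le_mR H.hN H.hL H.hn y).2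
  have h3 := rv_le_one hR hy hi
  have h4 := rv_nonneg hR hy hr
  have h5 := rv_nonneg hR hy hk
  have h6 := rv_le_one hR hy hk
  have h7 := cv_nonneg hR hx hl
  have h8 := cv_le_one hR hx hl
  have h9 := bil_nonneg hR hx hy
  have h10 := bil_le_one hR hx hy
  have hE' : (1 : ℝ) ≤ E := by exact_mod_cast hE
  rw [← hM] at h3
  have h11 : 0 ≤ ((E : ℝ) - 1) * (mR g N L y - rv g.n (rm N g.A) (rl L y) r) :=
    mul_nonneg (by linarith) (by linarith)
  have h12 : ((E : ℝ) - 1) * (mR g N L y - rv g.n (rm N g.A) (rl L y) r) ≤ ((E : ℝ) - 1) * 1 :=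
    mul_le_mul_of_nonneg_left (by linarith) (by linarith)
  unfold aR gR
  rw [abs_le]
  constructor <;> linarith [h1.1, h1.2, hv.1, hv.2]

theorem aC_bound {g : Gm} {N L : ℕ} {x y : ℕ → ℕ} (H : Ok g N L x y) {E : ℕ} (hE : 1 ≤ E)
    {k l c : ℕ} (hk : k < g.n) (hl : l < g.n) (hc : c < g.n) :
    |aC g N E L x y k l c - vr g N L x y| ≤ E + 3 := by
  have hR := u01_rm H.hN H.hB
  have hx := mix_rl H.hL H.tx
  have hy := mix_rl H.hL H.ty
  have hv := vr_le H
  have h1 := hR k hk c hc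
  have h2 := (cv_le_mC H.hN H.hL H.hn x).1 c hc
  obtain ⟨j, hj, hM⟩ := (cv_le_mC H.hN H.hL H.hn x).2
  have h3 := cv_le_one hR hx hj
  have h4 := cv_nonneg hR hx hc
  have h5 := rv_nonneg hR hy hk
  have h6 := rv_le_one hR hy hk
  have h7 := cv_nonneg hR hx hl
  have h8 := cv_le_one hR hx hl
  have h9 := bil_nonneg hR hx hy
  have h10 := bil_le_one hR hx hy
  have hE' : (1 : ℝ) ≤ E := by exact_mod_cast hE
  rw [← hM] at h3
  have h11 : 0 ≤ ((E : ℝ) - 1) * (mC g N L x - cv g.n (rm N g.B) (rl L x) c) :=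
    mul_nonneg (by linarith) (by linarith)
  have h12 : ((E : ℝ) - 1) * (mC g N L x - cv g.n (rm N g.B) (rl L x) c) ≤ ((E : ℝ) - 1) * 1 :=
    mul_le_mul_of_nonneg_left (by linarith) (by linarith)
  unfold aC gC
  rw [abs_le]
  constructor <;> linarith [h1.1, h1.2, hv.1, hv.2]

theorem small_pot {g : Gm} {N L : ℕ} {x y : ℕ → ℕ} (H : Ok g N L x y)
    (hs : ∀ t < TT N g.n, ww g N (8 * N) L x y (run g (8 * N) L x y t)
      (kst g (8 * N) L x y (run g (8 * N) L x y t))
      (cst g (8 * N) L x y (run g (8 * N) L x y t)) ≤ 0) :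
    ∀ r < g.n,
      uR g N (8 * N) L x y (TT N g.n) (rl 1 (run g (8 * N) L x y (TT N g.n)))
        (rl 1 (sh g.n (run g (8 * N) L x y (TT N g.n)))) r ≤ TT N g.n / (2 * N) ∧
      uC g N (8 * N) L x y (TT N g.n) (rl 1 (run g (8 * N) L x y (TT N g.n)))
        (rl 1 (sh g.n (run g (8 * N) L x y (TT N g.n)))) r ≤ TT N g.n / (2 * N) := by
  have hn := H.hn
  have hE : 1 ≤ 8 * N := by have := H.hN; omega
  have hN0 : (0 : ℝ) < N := by exact_mod_cast H.hN
  have hL0 : (0 : ℝ) < L := by exact_mod_cast H.hL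
  set u : ℕ → ℕ → ℝ := fun t r => uR g N (8 * N) L x y t (rl 1 (run g (8 * N) L x y t))
    (rl 1 (sh g.n (run g (8 * N) L x y t))) r with hu
  set v : ℕ → ℕ → ℝ := fun t r => uC g N (8 * N) L x y t (rl 1 (run g (8 * N) L x y t))
    (rl 1 (sh g.n (run g (8 * N) L x y t))) r with hv
  have key : ∀ r < g.n, max (u (TT N g.n) r) 0 ^ 2 ≤ 2 * g.n * (TT N g.n : ℕ) * (8 * N + 3) ^ 2 ∧
      max (v (TT N g.n) r) 0 ^ 2 ≤ 2 * g.n * (TT N g.n : ℕ) * (8 * N + 3) ^ 2 := by
    refine approach u v ?_ ?_ ?_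
    · intro r _
      constructor
      · simp [hu, uR, rv, bil, rl, run, sh]
      · simp [hv, uC, cv, rv, bil, rl, run, sh]
    · intro t _ r hr
      constructor
      · simp only [hu]
        rw [incR hn]
        have := aR_bound H hE (kst_lt hn (8 * N) L x y (run g (8 * N) L x y t))
          (cst_lt hn (8 * N) L x y (run g (8 * N) L x y t)) hr
        push_cast at this
        exact this
      · simp only [hv]
        rw [incC hn]
        have := aC_bound H hE (kst_lt hn (8 * N) L x y (run g (8 * N) L x y t))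
          (cst_lt hn (8 * N) L x y (run g (8 * N) L x y t)) hr
        push_cast at this
        exact this
    · intro t ht
      have h1 := hs t ht
      unfold ww at h1
      have e1 : ∑ r ∈ range g.n, (wR g (8 * N) L x y (run g (8 * N) L x y t) r : ℝ) *
          (aR g N (8 * N) L x y (kst g (8 * N) L x y (run g (8 * N) L x y t))
            (cst g (8 * N) L x y (run g (8 * N) L x y t)) r - vr g N L x y) =
          N * L ^ 2 * ∑ r ∈ range g.n, max (u t r) 0 * (u (t + 1) r - u t r) := by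
        rw [mul_sum]
        refine sum_congr rfl fun r hr => ?_
        have e2 := incR hn N (8 * N) L x y t r
        have e3 := cast_qR H hE t (run g (8 * N) L x y t) (sh g.n (run g (8 * N) L x y t))
          (mem_range.1 hr)
        simp only [hu]
        rw [e2]
        unfold wR
        rw [(run_tot hn (8 * N) L x y t).1, e3]
        ring
      have e4 : ∑ c ∈ range g.n, (wC g (8 * N) L x y (run g (8 * N) L x y t) c : ℝ) *
          (aC g N (8 * N) L x y (kst g (8 * N) L x y (run g (8 * N) L x y t))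
            (cst g (8 * N) L x y (run g (8 * N) L x y t)) c - vr g N L x y) =
          N * L ^ 2 * ∑ c ∈ range g.n, max (v t c) 0 * (v (t + 1) c - v t c) := by
        rw [mul_sum]
        refine sum_congr rfl fun r hr => ?_
        have e2 := incC hn N (8 * N) L x y t r
        have e3 := cast_qC H hE t (run g (8 * N) L x y t) (sh g.n (run g (8 * N) L x y t))
          (mem_range.1 hr)
        simp only [hv]
        rw [e2]
        unfold wC
        rw [(run_tot hn (8 * N) L x y t).1, e3]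
        ring
      rw [e1, e4, ← mul_add] at h1
      have hc : (0 : ℝ) < N * L ^ 2 := by positivity
      by_contra hcon
      push Not at hcon
      have := mul_pos hc hcon
      linarith
  have hT : (2 * g.n * (TT N g.n : ℕ) * (8 * N + 3) ^ 2 : ℝ) = ((TT N g.n : ℕ) / (2 * N)) ^ 2 := by
    have e5 : ((TT N g.n : ℕ) : ℝ) = 8 * N ^ 2 * (8 * N + 3) ^ 2 * g.n := by
      unfold TT
      push_cast
      ring
    rw [e5]
    field_simp
    ring
  have hT0 : (0 : ℝ) ≤ (TT N g.n : ℕ) / (2 * N) := by positivity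
  intro r hr
  obtain ⟨h1, h2⟩ := key r hr
  rw [hT] at h1 h2
  have h3 := le_of_sq_le_sq h1 hT0
  have h4 := le_of_sq_le_sq h2 hT0
  exact ⟨(le_max_left _ _).trans h3, (le_max_left _ _).trans h4⟩

end Nsh
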