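import Pool.Agent.Lib.Nsh.PStage

/-! MP_602ccf, module Nsh.PCand (poly side): the candidates and the test in polynomial time.

`N` and `s` are constants (parameters), not functions of the input: `PolyN.const`.
Proofs.  `p_qt` ... `p_qh`: `P2ba8ab.nDiv'`, `P2ba8ab.nMod'` (`Pool/Agent/Lib/P2ba8ab/Arith.lean`).
`v_cX`, `v_cY`: `PV.mk`; the entry is a nested `if` on `qy` (`n_ite`, `PolyP.eq`) of sums and
products of entries of the pair of the stage (`v_stg`), of `v_wR`/`v_wC` at the state `stt`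
(`v_run` with `t = qt`), `p_tot`.  `p_pass`: `PolyP.and`, `PolyP.forall_range`, `PolyP.le`.
`p_fc`: `poly_lst`.  All polynomial-time facts live over an arbitrary context, so over the extended
context `cx ctx` use them with `hg.up` and `m = fun p => p.2` (`nL`).
-/

set_option autoImplicit false

namespace Nsh

open Finset Pool.Agent.Lib.PolyTime Pool.Agent.Lib.Pa7c826 Pool.Agent.Lib.P8e91ed.PT
open Pool.Agent.Lib.Pa7c826t Pool.Agent.Lib

variable {α : Type} {D : α → Prop} {ctx : List (α → List Bool)}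

theorem p_qt (N : ℕ) {n m : α → ℕ} (hn : PolyN D ctx n) (hm : PolyN D ctx m) :
    PolyN D ctx (fun a => qt (n a) N (m a)) :=
  P2ba8ab.nDiv' hm ((PolyN.const 4).mul ((PolyN.const (N + 1)).mul hn))

theorem p_qy (N : ℕ) {n m : α → ℕ} (hn : PolyN D ctx n) (hm : PolyN D ctx m) :
    PolyN D ctx (fun a => qy (n a) N (m a)) :=
  P2ba8ab.nDiv' (P2ba8ab.nMod' hm ((PolyN.const 4).mul ((PolyN.const (N + 1)).mul hn)))
    ((PolyN.const (N + 1)).mul hn)

theorem p_qi (N : ℕ) {n m : α → ℕ} (hn : PolyN D ctx n) (hm : PolyN D ctx m) :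
    PolyN D ctx (fun a => qi (n a) N (m a)) :=
  P2ba8ab.nDiv' (P2ba8ab.nMod' (P2ba8ab.nMod' hm
    ((PolyN.const 4).mul ((PolyN.const (N + 1)).mul hn))) ((PolyN.const (N + 1)).mul hn)) hn

theorem p_qh (N : ℕ) {n m : α → ℕ} (hn : PolyN D ctx n) (hm : PolyN D ctx m) :
    PolyN D ctx (fun a => qh (n a) N (m a)) :=
  P2ba8ab.nMod' (P2ba8ab.nMod' (P2ba8ab.nMod' hm
    ((PolyN.const 4).mul ((PolyN.const (N + 1)).mul hn))) ((PolyN.const (N + 1)).mul hn)) hn

namespace PCandAux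

theorem n_ite' {β : Type*} {D : β → Prop} {ctx : List (β → List Bool)} {P : β → Prop}
    {_ : ∀ a, Decidable (P a)} {f g : β → ℕ} (hP : PolyP D ctx P)
    (hf : PolyN D ctx f) (hg : PolyN D ctx g) : PolyN D ctx (fun a => if P a then f a else g a) :=
  n_ite hP (PolyC.mono hf fun _ h => h.1) (PolyC.mono hg fun _ h => h.1)

theorem v_cdX (N : ℕ) {n L ty i h : α → ℕ} {x q : α → ℕ → ℕ} (hn : PolyN D ctx n)
    (hL : PolyN D ctx L) (hx : PV D ctx n x) (hq : PV D ctx n q) (hty : PolyN D ctx ty)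
    (hi : PolyN D ctx i) (hh : PolyN D ctx h) :
    PV D ctx n (fun a => cdX (n a) N (L a) (x a) (q a) (ty a) (i a) (h a)) := by
  refine PV.mk hn ?_
  unfold cdX
  have hT : PolyN (Dx D n) (cx ctx) (fun p => tot (n p.1) (q p.1)) := nU (p_tot hn hq)
  have hxe : PolyN (Dx D n) (cx ctx) (fun p => x p.1 p.2) := hx.entry (fun _ _ => le_rfl)
  have hqe : PolyN (Dx D n) (cx ctx) (fun p => q p.1 p.2) := hq.entry (fun _ _ => le_rfl)
  have hLe : PolyN (Dx D n) (cx ctx) (fun p => L p.1) := nU hL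
  have hA : PolyN (Dx D n) (cx ctx)
      (fun p => tot (n p.1) (q p.1) * x p.1 p.2 + L p.1 * q p.1 p.2) :=
    (hT.mul hxe).add (hLe.mul hqe)
  refine n_ite' (PolyP.eq (nU hty) (PolyN.const 0)) hxe ?_
  refine n_ite' (PolyP.eq (nU hty) (PolyN.const 1)) hA ?_
  refine n_ite' (PolyP.eq (nU hty) (PolyN.const 2)) ?_ hqe
  refine ((nU hi).mul hA).add ?_
  refine n_ite' (PolyP.eq nL (nU hh)) ?_ (PolyN.const 0)
  exact (PolyN.sub (PolyN.const N) (nU hi)).mul (((PolyN.const 2).mul hLe).mul hT)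

theorem v_cdY (N : ℕ) {n L ty i h : α → ℕ} {x q : α → ℕ → ℕ} (hn : PolyN D ctx n)
    (hL : PolyN D ctx L) (hx : PV D ctx n x) (hq : PV D ctx n q) (hty : PolyN D ctx ty)
    (hi : PolyN D ctx i) (hh : PolyN D ctx h) :
    PV D ctx n (fun a => cdY (n a) N (L a) (x a) (q a) (ty a) (i a) (h a)) := by
  refine PV.mk hn ?_
  unfold cdY
  have hT : PolyN (Dx D n) (cx ctx) (fun p => tot (n p.1) (q p.1)) := nU (p_tot hn hq)
  have hxe : PolyN (Dx D n) (cx ctx) (fun p => x p.1 p.2) := hx.entry (fun _ _ => le_rfl)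
  have hqe : PolyN (Dx D n) (cx ctx) (fun p => q p.1 p.2) := hq.entry (fun _ _ => le_rfl)
  have hLe : PolyN (Dx D n) (cx ctx) (fun p => L p.1) := nU hL
  have hA : PolyN (Dx D n) (cx ctx)
      (fun p => tot (n p.1) (q p.1) * x p.1 p.2 + L p.1 * q p.1 p.2) :=
    (hT.mul hxe).add (hLe.mul hqe)
  refine n_ite' (PolyP.eq (nU hty) (PolyN.const 0)) hxe ?_
  refine n_ite' (PolyP.eq (nU hty) (PolyN.const 1)) hA ?_
  refine n_ite' (PolyP.eq (nU hty) (PolyN.const 2)) hqe ?_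
  refine ((nU hi).mul hA).add ?_
  refine n_ite' (PolyP.eq nL (nU hh)) ?_ (PolyN.const 0)
  exact (PolyN.sub (PolyN.const N) (nU hi)).mul (((PolyN.const 2).mul hLe).mul hT)

theorem v_stt {g : α → Gm} (hg : PG D ctx g) (N s : ℕ) {m : α → ℕ} (hm : PolyN D ctx m) :
    PV D ctx (fun a => 2 * (g a).n) (fun a => stt (g a) N s (m a)) :=
  v_run (E := fun _ => 8 * N) (L := fun a => LL N (g a).n s) hg (PolyN.const (8 * N))
    (p_LL N s hg.n) (v_stg hg N s).1 (v_stg hg N s).2 (p_qt N hg.n hm)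

end PCandAux

open PCandAux

theorem v_cX {g : α → Gm} (hg : PG D ctx g) (N s : ℕ) {m : α → ℕ} (hm : PolyN D ctx m) :
    PV D ctx (fun a => (g a).n) (fun a => cX (g a) N s (m a)) :=
  v_cdX N hg.n (p_LL N s hg.n) (v_stg hg N s).1
    (v_wR (E := fun _ => 8 * N) (L := fun a => LL N (g a).n s) hg (PolyN.const (8 * N))
      (p_LL N s hg.n) (v_stg hg N s).1 (v_stg hg N s).2 (v_stt hg N s hm))
    (p_qy N hg.n hm) (p_qi N hg.n hm) (p_qh N hg.n hm)

theorem v_cY {g : α → Gm} (hg : PG D ctx g) (N s : ℕ) {m : α → ℕ} (hm : PolyN D ctx m) :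
    PV D ctx (fun a => (g a).n) (fun a => cY (g a) N s (m a)) :=
  v_cdY N hg.n (p_LL N s hg.n) (v_stg hg N s).2
    (v_wC (E := fun _ => 8 * N) (L := fun a => LL N (g a).n s) hg (PolyN.const (8 * N))
      (p_LL N s hg.n) (v_stg hg N s).1 (v_stg hg N s).2 (v_stt hg N s hm))
    (p_qy N hg.n hm) (p_qi N hg.n hm) (p_qh N hg.n hm)

theorem p_pass {g : α → Gm} (hg : PG D ctx g) (N : ℕ) {X Y : α → ℕ → ℕ}
    (hX : PV D ctx (fun a => (g a).n) X) (hY : PV D ctx (fun a => (g a).n) Y) :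
    PolyP D ctx (fun a => pass (g a) N (X a) (Y a)) := by
  unfold pass
  have hTX := p_tot hg.n hX
  have hTY := p_tot hg.n hY
  have hTT : PolyN D ctx (fun a => (13 * N - 40) * (tot (g a).n (X a) * tot (g a).n (Y a))) :=
    (PolyN.const (13 * N - 40)).mul (hTX.mul hTY)
  refine PolyP.and (PolyP.le (PolyN.const 1) hTX) (PolyP.and (PolyP.le (PolyN.const 1) hTY)
    (PolyP.and ?_ ?_))
  · refine PolyP.forall_range hg.n (PolyP.le ?_ ?_)
    · exact (PolyN.const 40).mul ((nU hTX).mul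
        ((v_rn hg.n hg.A hY).entry (fun _ _ => le_rfl)))
    · exact nU (((PolyN.const 40).mul (p_pn hg.n hg.A hX hY)).add hTT)
  · refine PolyP.forall_range hg.n (PolyP.le ?_ ?_)
    · exact (PolyN.const 40).mul ((nU hTY).mul
        ((v_cn hg.n hg.B hX).entry (fun _ _ => le_rfl)))
    · exact nU (((PolyN.const 40).mul (p_pn hg.n hg.B hX hY)).add hTT)

theorem p_fc {g : α → Gm} (hg : PG D ctx g) (N s : ℕ) :
    PolyN D ctx (fun a => fc (g a) N s) := by
  have hNC : PolyN D ctx (fun a => NC (g a).n N) :=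
    (p_TT N hg.n).mul ((PolyN.const 4).mul ((PolyN.const (N + 1)).mul hg.n))
  exact Wsm.poly_lst (P := fun a m => pass (g a) N (cX (g a) N s m) (cY (g a) N s m)) hNC
    (p_pass hg.up N (v_cX hg.up N s nL) (v_cY hg.up N s nL))

end Nsh
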