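import Pool.Agent.Lib.Nsh.POut
import Pool.Agent.Lib.P8e91ed.PolyIn
import Pool.Agent.Lib.P8e91ed.PolyOut

/-! MP_602ccf, module Nsh.PFin (poly side): reading the input, writing the output.

Read `Pool/Agent/Lib/P8e91ed/PolyIn.lean` (`Inp`, `Inp.nN`, `Inp.nTab`) and the end of
`Pool/Agent/Lib/P8e91ed/PolyOut.lean` (`cDbl`, and the proof of `poly_out` as a model).

`inp_of`: the code of `(w.1, 1, w.2)` from the code `encG w`: the leading block
(`PolyC.takeTrue`, `PolyN.length`, `takeWhile_un`), then the constant `un 1`, then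
`afterTrue` (`PolyC.afterTrue`, `afterTrue_un`); `PolyC.append`, `PolyC.cons`.
`pg_gm`: `n := Inp.nN`; `A := PM.mk`, entries `Inp.nTab` (after `Inp.up`) at the index
`p.2 / n * n + p.2 % n` (`P2ba8ab.nDiv'`, `nMod'`, or rewrite `Nat.div_add_mod`); `B` the same with
the shift `n * n`.
`p_sol`: `(List.range n).map f |>.flatMap encOut = (List.range n).flatMap (encOut ∘ f)`
(`List.flatMap_map`), `PolyC.flatMap_range`, `cDbl`, `bin_bits`, `bin_ofN`, `v_out`, `p_tot`,
`PolyC.append`.  `poly_sol`: `PolyC.toTM2`.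
-/

set_option autoImplicit false

namespace Nsh

open Finset Pool.Agent.Lib.PolyTime Pool.Agent.Lib.Pa7c826 Pool.Agent.Lib.P8e91ed.PT
open Pool.Agent.Lib.Pa7c826t Pool.Agent.Lib

/-- code of an input: `n` in unary, then the entries (sign, numerator, denominator) -/
def encG (w : ℕ × List ℚ) : List Bool :=
  List.replicate w.1 true ++ false :: w.2.flatMap Pool.Agent.Lib.P8e91ed.encQ

/-- code of an output -/
def encO (o : List (ℕ × ℕ) × List (ℕ × ℕ)) : List Bool :=
  o.1.flatMap Pool.Agent.Lib.P8e91ed.encOut ++ o.2.flatMap Pool.Agent.Lib.P8e91ed.encOut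

variable {D : ℕ × List ℚ → Prop}

theorem inp_of (hD : ∀ w, D w → 1 ≤ w.1) :
    Inp D [encG] (fun w : ℕ × List ℚ => ((w.1, 1, w.2) : ℕ × ℕ × List ℚ)) := by
  have h0 : PolyC D [encG] encG := PolyC.var (by simp)
  have hh : ∀ w : ℕ × List ℚ, encG w =
      un w.1 ++ false :: w.2.flatMap Pool.Agent.Lib.P8e91ed.encQ := fun w => rfl
  refine ⟨?_, hD, fun _ _ => le_rfl⟩
  have h1 : PolyC D [encG] (fun w => un w.1) :=
    h0.takeTrue.congr (fun w _ => by rw [hh, takeWhile_un])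
  have h2 : PolyC D [encG] (fun w => w.2.flatMap Pool.Agent.Lib.P8e91ed.encQ) :=
    h0.afterTrue.congr (fun w _ => by rw [hh, afterTrue_un])
  exact (PolyC.append h1 (PolyC.cons false (PolyC.append (PolyC.const (un 1))
    (PolyC.cons false h2)))).congr (fun w _ => rfl)

theorem pg_gm (hD : ∀ w, D w → 1 ≤ w.1) (p : ℕ) : PG D [encG] (fun w => gm p w) := by
  have h := inp_of (D := D) hD
  have hn : PolyN D [encG] (fun w : ℕ × List ℚ => w.1) := h.nN
  have hn' : PolyN (Dx D (fun w : ℕ × List ℚ => w.1 * w.1)) (cx [encG])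
      (fun p => p.1.1) := upN (n := fun w : ℕ × List ℚ => w.1 * w.1) hn
  have hidx : PolyN (Dx D (fun w : ℕ × List ℚ => w.1 * w.1)) (cx [encG])
      (fun q => q.2 / q.1.1 * q.1.1 + q.2 % q.1.1) :=
    (((P2ba8ab.nDiv' nL hn').mul hn').add (P2ba8ab.nMod' nL hn'))
  have hp : PolyN (Dx D (fun w : ℕ × List ℚ => w.1 * w.1)) (cx [encG])
      (fun _ => 2 ^ p) := PolyN.const (2 ^ p)
  refine ⟨hn, hD, PM.mk hn ?_, PM.mk hn ?_⟩
  · exact (h.up (n := fun w : ℕ × List ℚ => w.1 * w.1)).nTab (p := fun _ => p) hp hidx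
  · exact (h.up (n := fun w : ℕ × List ℚ => w.1 * w.1)).nTab (p := fun _ => p) hp
      ((hn'.mul hn').add hidx)

theorem p_sol (hD : ∀ w, D w → 1 ≤ w.1) (p : ℕ) : PolyC D [encG] (fun w => encO (sol p w)) := by
  have hg := pg_gm (D := D) hD p
  have hn : PolyN D [encG] (fun w : ℕ × List ℚ => w.1) := hg.n
  have ho := v_out hg (2 ^ p) (32 * (2 ^ p) ^ 2)
  have key : ∀ {x : ℕ × List ℚ → ℕ → ℕ}, PV D [encG] (fun w => w.1) x →
      PolyC D [encG] (fun w => ((List.range w.1).map fun i => (x w i, tot w.1 (x w))).flatMap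
        Pool.Agent.Lib.P8e91ed.encOut) := by
    intro x hx
    have h1 : PolyN (Dx D (fun w : ℕ × List ℚ => w.1)) (cx [encG]) (fun q => x q.1 q.2) :=
      hx.entry (fun _ _ => le_rfl)
    have h2 : PolyN D [encG] (fun w => tot w.1 (x w)) := p_tot hn hx
    have h3 : PolyN (Dx D (fun w : ℕ × List ℚ => w.1)) (cx [encG])
        (fun q => tot q.1.1 (x q.1)) := upN (n := fun w : ℕ × List ℚ => w.1) h2
    have h4 : PolyC (Dx D (fun w : ℕ × List ℚ => w.1)) (cx [encG])
        (fun q => Pool.Agent.Lib.P8e91ed.encOut (x q.1 q.2, tot q.1.1 (x q.1))) :=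
      PolyC.append (cDbl (bin_bits (bin_ofN h1))) (cDbl (bin_bits (bin_ofN h3)))
    refine (PolyC.flatMap_range (n := fun w : ℕ × List ℚ => w.1) (t := fun q =>
      Pool.Agent.Lib.P8e91ed.encOut (x q.1 q.2, tot q.1.1 (x q.1))) hn h4).congr ?_
    intro w _
    rw [List.flatMap_map]
  exact PolyC.append (key ho.1) (key ho.2)

theorem poly_sol (D : ℕ × List ℚ → Prop) (hD : ∀ w, D w → 1 ≤ w.1) (p : ℕ) :
    Nonempty (Turing.TM2ComputableInPolyTime (α := {w : ℕ × List ℚ // D w})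
      (αΓ := Bool) (βΓ := Bool) (fun w => encG w.1) encO (fun w => sol p w.1)) :=
  PolyC.toTM2 encG (fun w => sol p w) encO (p_sol hD p)

end Nsh
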