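import Pool.Agent.Lib.Nsh.PCand

/-! MP_602ccf, module Nsh.POut (poly side): the result after the stage `s` in polynomial time.

`v_out`: induction on `s`.  `s = 0`: `v_cX`, `v_cY` with `m = fc` (`p_fc`).  Step: `out` is an `if` on
`pass (out s)` (`p_pass` with the induction hypothesis): `PV.mk` with the entry
`if pass .. then (out s).1 i else cX .. i` (`n_ite`; the `if` of pairs commutes with `.1`:
`apply_ite`), entries by `PV.entry`.
-/

set_option autoImplicit false

namespace Nsh

open Finset Pool.Agent.Lib.PolyTime Pool.Agent.Lib.Pa7c826 Pool.Agent.Lib.P8e91ed.PT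
open Pool.Agent.Lib.Pa7c826t Pool.Agent.Lib

variable {α : Type} {D : α → Prop} {ctx : List (α → List Bool)}

theorem v_out {g : α → Gm} (hg : PG D ctx g) (N s : ℕ) :
    PV D ctx (fun a => (g a).n) (fun a => (out (g a) N s).1) ∧
      PV D ctx (fun a => (g a).n) (fun a => (out (g a) N s).2) := by
  classical
  induction s with
  | zero =>
    exact ⟨v_cX hg N 0 (p_fc hg N 0), v_cY hg N 0 (p_fc hg N 0)⟩
  | succ s ih =>
    obtain ⟨ih1, ih2⟩ := ih
    have hX := v_cX hg N (s + 1) (p_fc hg N (s + 1))
    have hY := v_cY hg N (s + 1) (p_fc hg N (s + 1))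
    have hP : PolyP D ctx (fun a => pass (g a) N (out (g a) N s).1 (out (g a) N s).2) :=
      p_pass hg N ih1 ih2
    have key : ∀ {u v : α → ℕ → ℕ}, PV D ctx (fun a => (g a).n) u →
        PV D ctx (fun a => (g a).n) v →
        PV D ctx (fun a => (g a).n)
          (fun a i => if pass (g a) N (out (g a) N s).1 (out (g a) N s).2 then u a i
            else v a i) := by
      intro u v hu hv
      refine PV.mk hg.n ?_
      have hu' : PolyN (Dx D (fun a => (g a).n)) (cx ctx) (fun p => u p.1 p.2) :=
        hu.entry (fun _ _ => le_rfl)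
      have hv' : PolyN (Dx D (fun a => (g a).n)) (cx ctx) (fun p => v p.1 p.2) :=
        hv.entry (fun _ _ => le_rfl)
      exact n_ite hP.up (PolyC.mono hu' fun a h => h.1) (PolyC.mono hv' fun a h => h.1)
    constructor
    · refine (key ih1 hX).congr ?_
      intro a _ i _
      show _ = (out (g a) N (s + 1)).1 i
      rw [out]
      split_ifs <;> rfl
    · refine (key ih2 hY).congr ?_
      intro a _ i _
      show _ = (out (g a) N (s + 1)).2 i
      rw [out]
      split_ifs <;> rfl

end Nsh
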