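import Pool.Agent.Lib.Nsh.PStep

/-! MP_602ccf, module Nsh.PRun (poly side): the state after `t` steps in polynomial time.

Read `Nsh/NDefs.lean`, `Nsh/PVec.lean`, the statements of `Nsh/PStep.lean` (black box here) and
`PolyArr.iterate` (`Pool/Agent/Lib/Pa7c826t/ArrPoly.lean`).

Proofs.  `run_le`: induction on `t` (`Function.iterate_succ_apply'`; a step adds at most 2).
`v_run`: take the bound `m a = 2 * t a` and `PolyArr.iterate` with `k = t`, length `2 * (g a).n`,
start `fun _ => 0` (`PolyArr.mk`, `PolyN.const 0`), step `step (g a) (E a) (L a) (x a) (y a)`.  The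
hypothesis `hstep` lives over `D' = fun p => D p.1 ∧ p.2 < t p.1` and the context
`PolyTime.lift ctx ++ [fun p => un p.2, fun p => arr (m p.1) (n p.1) (step^[p.2] (f p.1))]`: there
the current state is a `PV` (⟨bound `fun p => 2 * t p.1`, `nWeak`, `PolyC.var` of the last entry, and
`run_le`⟩), the data are weakened with `PG.weak`, `PV.weak`, `nWeak`; `v_step` gives a `PV` with some
unknown bound, from which the `PolyArr` with the bound `2 * t` is rebuilt: `PolyArr.mk` with the
entries read by `PV.entry` / `PV.get`, the bound by `run_le` for `p.2 + 1 ≤ t`.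
-/

set_option autoImplicit false

namespace Nsh

open Finset Pool.Agent.Lib.PolyTime Pool.Agent.Lib.Pa7c826 Pool.Agent.Lib.P8e91ed.PT
open Pool.Agent.Lib.Pa7c826t Pool.Agent.Lib

theorem run_le (g : Gm) (E L : ℕ) (x y : ℕ → ℕ) (t i : ℕ) : run g E L x y t i ≤ 2 * t := by
  induction t generalizing i with
  | zero => simp [run]
  | succ t ih =>
    have e : run g E L x y (t + 1) i = step g E L x y (run g E L x y t) i := by
      unfold run
      rw [Function.iterate_succ_apply']
    have h := ih i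
    rw [e]
    unfold step
    split_ifs <;> omega

variable {α : Type*} {D : α → Prop} {ctx : List (α → List Bool)}
variable {g : α → Gm} {E L : α → ℕ} {x y : α → ℕ → ℕ}

theorem v_run (hg : PG D ctx g) (hE : PolyN D ctx E) (hL : PolyN D ctx L)
    (hx : PV D ctx (fun a => (g a).n) x) (hy : PV D ctx (fun a => (g a).n) y) {t : α → ℕ}
    (ht : PolyN D ctx t) :
    PV D ctx (fun a => 2 * (g a).n) (fun a => run (g a) (E a) (L a) (x a) (y a) (t a)) := by
  have hn2 : PolyN D ctx (fun a => 2 * (g a).n) := (PolyN.const 2).mul hg.n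
  have hm : PolyN D ctx (fun a => 2 * t a) := (PolyN.const 2).mul ht
  refine ⟨fun a => 2 * t a, hm, ?_⟩
  refine PolyArr.iterate (f := fun _ _ => 0)
    (step := fun a => step (g a) (E a) (L a) (x a) (y a)) hm hn2 ht
    (PolyArr.mk hm hn2 (PolyN.const 0) (fun _ _ _ _ => Nat.zero_le _)) ?_
  have hD : ∀ p : α × ℕ, (D p.1 ∧ p.2 < t p.1) → D p.1 := fun p hp => hp.1
  have hcur : PV (fun p : α × ℕ => D p.1 ∧ p.2 < t p.1)
      (PolyTime.lift ctx ++ [fun p => un p.2,
        fun p => arr (2 * t p.1) (2 * (g p.1).n)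
          ((step (g p.1) (E p.1) (L p.1) (x p.1) (y p.1))^[p.2] (fun _ => 0))])
      (fun p => 2 * (g p.1).n)
      (fun p => run (g p.1) (E p.1) (L p.1) (x p.1) (y p.1) p.2) := by
    refine ⟨fun p => 2 * t p.1, nWeak hm hD _, PolyC.var (by simp [run]), ?_⟩
    intro p hp i _
    exact (run_le _ _ _ _ _ _ _).trans (Nat.mul_le_mul_left 2 hp.2.le)
  have hnew := v_step (hg.weak hD _) (nWeak hE hD _) (nWeak hL hD _) (hx.weak hD _)
    (hy.weak hD _) hcur
  refine PolyArr.mk (nWeak hm hD _) (nWeak hn2 hD _)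
    (PV.entry hnew (fun _ _ => le_rfl)) ?_
  intro p hp i _
  have h1 := run_le (g p.1) (E p.1) (L p.1) (x p.1) (y p.1) (p.2 + 1) i
  have e : run (g p.1) (E p.1) (L p.1) (x p.1) (y p.1) (p.2 + 1) i =
      step (g p.1) (E p.1) (L p.1) (x p.1) (y p.1)
        ((step (g p.1) (E p.1) (L p.1) (x p.1) (y p.1))^[p.2] (fun _ => 0)) i := by
    unfold run
    rw [Function.iterate_succ_apply']
  rw [e] at h1
  have h2 := hp.2
  exact h1.trans (Nat.mul_le_mul_left 2 h2)

end Nsh
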