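import Pool.Agent.Lib.Nsh.PRun

/-! MP_602ccf, module Nsh.PStage (poly side): the stages in polynomial time.

`N` and `s` are constants (parameters), not functions of the input: `PolyN.const`.
Proofs.  `p_TT`, `p_LL`: `TT N n = c * n` and `LL N n s = TT N n * c'` with constants `c`, `c'`
(`PolyN.mul (PolyN.const _) hn`).  `v_stg`: induction on `s`; `s = 0`: `PV.mk`, `n_ite`
(`PolyP.eq nL (PolyN.const 0)`); step: `PV.mk` with `PolyN.add`/`mul` of constants and entries
(`PV.entry`) of the pair of the stage `s` and of `v_run` (`E = 8 * N` constant, `L = LL N n s`,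
`t = TT N n`), `PV.take` and `v_sh` for the two halves.
-/

set_option autoImplicit false

namespace Nsh

open Finset Pool.Agent.Lib.PolyTime Pool.Agent.Lib.Pa7c826 Pool.Agent.Lib.P8e91ed.PT
open Pool.Agent.Lib.Pa7c826t Pool.Agent.Lib

variable {α : Type*} {D : α → Prop} {ctx : List (α → List Bool)}

theorem p_TT (N : ℕ) {n : α → ℕ} (hn : PolyN D ctx n) : PolyN D ctx (fun a => TT N (n a)) :=
  (PolyN.const (8 * N ^ 2 * (8 * N + 3) ^ 2)).mul hn

theorem p_LL (N s : ℕ) {n : α → ℕ} (hn : PolyN D ctx n) :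
    PolyN D ctx (fun a => LL N (n a) s) :=
  (p_TT N hn).mul (PolyN.const ((8 * N) ^ s))

theorem v_stg {g : α → Gm} (hg : PG D ctx g) (N s : ℕ) :
    PV D ctx (fun a => (g a).n) (fun a => (stg (g a) N s).1) ∧
      PV D ctx (fun a => (g a).n) (fun a => (stg (g a) N s).2) := by
  induction s with
  | zero =>
    have h0 : PV D ctx (fun a => (g a).n) (fun a i => if i = 0 then TT N (g a).n else 0) := by
      refine PV.mk hg.n ?_
      exact n_ite (PolyP.eq nL (PolyN.const 0)) (PolyC.mono (nU (p_TT N hg.n)) fun _ h => h.1)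
        (PolyN.const 0)
    exact ⟨h0, h0⟩
  | succ s ih =>
    obtain ⟨h1, h2⟩ := ih
    have hrun : PV D ctx (fun a => 2 * (g a).n)
        (fun a => run (g a) (8 * N) (LL N (g a).n s) (stg (g a) N s).1 (stg (g a) N s).2
          (TT N (g a).n)) :=
      v_run (E := fun _ => 8 * N) (L := fun a => LL N (g a).n s) hg (PolyN.const (8 * N))
        (p_LL N s hg.n) h1 h2 (p_TT N hg.n)
    refine ⟨PV.mk hg.n ?_, PV.mk hg.n ?_⟩
    · exact ((PolyN.const (8 * N - 1)).mul (h1.entry (fun _ _ => le_rfl))).add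
        ((PolyN.const ((8 * N) ^ s)).mul (hrun.entry (fun a _ => by omega)))
    · exact ((PolyN.const (8 * N - 1)).mul (h2.entry (fun _ _ => le_rfl))).add
        ((PolyN.const ((8 * N) ^ s)).mul ((v_sh hg.n hrun).entry (fun _ _ => le_rfl)))

end Nsh
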