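import Pool.Agent.Lib.Nsh.PSum

/-! MP_602ccf, module Nsh.PStep (poly side): weights of a state and one step in polynomial time.

Read `Nsh/NDefs.lean`, `Nsh/PVec.lean` and the statements of `Nsh/PSum.lean` (black box here).

Proofs.  `v_sh`: `PV.mk` with the entry `v a (n a + i)`: `(hv.up).get ((nU hn).add nL)` (index
`< 2 * n a`).  `p_vv`: `PolyN.sub`, `PolyN.mul`, maximum `max u v = u + (v - u)` (`PolyN.sub`),
`p_top`, `v_rn`, `v_cn`, `p_pn`.  `v_qR`, `v_qC`: `PV.mk` with the entries: sums, products and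
truncated differences of `PolyN` functions over the extended context `cx ctx` (use `nU`, `PG.up`,
`PV.up`; at the index `nL`, `< n`).  `v_wR`, `v_wC`: unfold, with `t = tot n v`, `ck = v` restricted to
the first `n` entries (`PV.take` below), `cl = sh n v`.  `p_kst`, `p_cst`: `p_argm` with `PV.mk`
products.  `v_step`: `PV.mk` (length `2 * n`), the two indicators by `n_ite` (`PolyP.eq`).
Note `PV.take` : a prefix of a vector is a vector (`PV.mk` and `PV.get`).
-/



set_option autoImplicit false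

namespace Nsh

open Finset Pool.Agent.Lib.PolyTime Pool.Agent.Lib.Pa7c826 Pool.Agent.Lib.P8e91ed.PT
open Pool.Agent.Lib.Pa7c826t Pool.Agent.Lib

variable {α : Type*} {D : α → Prop} {ctx : List (α → List Bool)}

theorem PV.take {n m : α → ℕ} {f : α → ℕ → ℕ} (h : PV D ctx m f) (hn : PolyN D ctx n)
    (hnm : ∀ a, D a → n a ≤ m a) : PV D ctx n f := by
  exact PV.mk hn (h.entry hnm)

theorem v_sh {n : α → ℕ} {v : α → ℕ → ℕ} (hn : PolyN D ctx n)
    (hv : PV D ctx (fun a => 2 * n a) v) : PV D ctx n (fun a => sh (n a) (v a)) := by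
  refine PV.mk hn ?_
  exact (hv.up (k := n)).get ((nU hn).add nL) (fun p hp => by
    have h2 : p.2 < n p.1 := hp.2
    show n p.1 + p.2 < 2 * n p.1
    omega)

variable {g : α → Gm} {E L : α → ℕ} {x y : α → ℕ → ℕ}

theorem p_vv (hg : PG D ctx g) (hL : PolyN D ctx L) (hx : PV D ctx (fun a => (g a).n) x)
    (hy : PV D ctx (fun a => (g a).n) y) : PolyN D ctx (fun a => vv (g a) (L a) (x a) (y a)) := by
  have hn := hg.n
  have hA : PolyN D ctx (fun a => L a * top (g a).n (rn (g a).n (g a).A (y a)) -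
      pn (g a).n (g a).A (x a) (y a)) :=
    PolyN.sub (hL.mul (p_top hn (v_rn hn hg.A hy))) (p_pn hn hg.A hx hy)
  have hB : PolyN D ctx (fun a => L a * top (g a).n (cn (g a).n (g a).B (x a)) -
      pn (g a).n (g a).B (x a) (y a)) :=
    PolyN.sub (hL.mul (p_top hn (v_cn hn hg.B hx))) (p_pn hn hg.B hx hy)
  refine PolyN.congr (PolyN.sub (hA.add (PolyN.sub hB hA)) (hL.mul hL)) (fun a _ => ?_)
  unfold vv
  congr 1
  omega

theorem v_qR (hg : PG D ctx g) (hE : PolyN D ctx E) (hL : PolyN D ctx L)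
    (hx : PV D ctx (fun a => (g a).n) x) (hy : PV D ctx (fun a => (g a).n) y) {t : α → ℕ}
    (ht : PolyN D ctx t) {ck cl : α → ℕ → ℕ} (hk : PV D ctx (fun a => (g a).n) ck)
    (hl : PV D ctx (fun a => (g a).n) cl) :
    PV D ctx (fun a => (g a).n)
      (fun a => qR (g a) (E a) (L a) (x a) (y a) (t a) (ck a) (cl a)) := by
  have hn := hg.n
  have h1 := (v_rn hn hg.A hl).entry (k := fun a => (g a).n) (fun a _ => le_rfl)
  have h2 := (v_rn hn hg.A hy).entry (k := fun a => (g a).n) (fun a _ => le_rfl)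
  have h3 := p_pn hn hg.A hx hy
  have h4 := p_top hn (v_rn hn hg.A hy)
  have h5 := p_pn hn hg.A hk hy
  have h6 := p_pn hn hg.A hx hl
  have h7 := p_vv hg hL hx hy
  refine PV.mk hn ?_
  have hE1 : PolyN D ctx (fun a => E a - 1) := PolyN.sub hE (PolyN.const 1)
  exact PolyN.sub ((((nU hL).mul (nU hL)).mul h1).add ((nU ht).mul (nU h3)))
    (((((((nU ht).mul (nU hE1)).mul (nU hL)).mul (PolyN.sub (nU h4) h2)).add
      ((nU hL).mul (nU h5))).add ((nU hL).mul (nU h6))).add ((nU ht).mul (nU h7)))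

theorem v_qC (hg : PG D ctx g) (hE : PolyN D ctx E) (hL : PolyN D ctx L)
    (hx : PV D ctx (fun a => (g a).n) x) (hy : PV D ctx (fun a => (g a).n) y) {t : α → ℕ}
    (ht : PolyN D ctx t) {ck cl : α → ℕ → ℕ} (hk : PV D ctx (fun a => (g a).n) ck)
    (hl : PV D ctx (fun a => (g a).n) cl) :
    PV D ctx (fun a => (g a).n)
      (fun a => qC (g a) (E a) (L a) (x a) (y a) (t a) (ck a) (cl a)) := by
  have hn := hg.n
  have h1 := (v_cn hn hg.B hk).entry (k := fun a => (g a).n) (fun a _ => le_rfl)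
  have h2 := (v_cn hn hg.B hx).entry (k := fun a => (g a).n) (fun a _ => le_rfl)
  have h3 := p_pn hn hg.B hx hy
  have h4 := p_top hn (v_cn hn hg.B hx)
  have h5 := p_pn hn hg.B hk hy
  have h6 := p_pn hn hg.B hx hl
  have h7 := p_vv hg hL hx hy
  refine PV.mk hn ?_
  have hE1 : PolyN D ctx (fun a => E a - 1) := PolyN.sub hE (PolyN.const 1)
  exact PolyN.sub ((((nU hL).mul (nU hL)).mul h1).add ((nU ht).mul (nU h3)))
    (((((((nU ht).mul (nU hE1)).mul (nU hL)).mul (PolyN.sub (nU h4) h2)).add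
      ((nU hL).mul (nU h5))).add ((nU hL).mul (nU h6))).add ((nU ht).mul (nU h7)))

theorem v_wR (hg : PG D ctx g) (hE : PolyN D ctx E) (hL : PolyN D ctx L)
    (hx : PV D ctx (fun a => (g a).n) x) (hy : PV D ctx (fun a => (g a).n) y) {v : α → ℕ → ℕ}
    (hv : PV D ctx (fun a => 2 * (g a).n) v) :
    PV D ctx (fun a => (g a).n) (fun a => wR (g a) (E a) (L a) (x a) (y a) (v a)) := by
  have h1 : PV D ctx (fun a => (g a).n) v := hv.take hg.n (fun a _ => by omega)
  exact v_qR hg hE hL hx hy (p_tot hg.n h1) h1 (v_sh hg.n hv)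

theorem v_wC (hg : PG D ctx g) (hE : PolyN D ctx E) (hL : PolyN D ctx L)
    (hx : PV D ctx (fun a => (g a).n) x) (hy : PV D ctx (fun a => (g a).n) y) {v : α → ℕ → ℕ}
    (hv : PV D ctx (fun a => 2 * (g a).n) v) :
    PV D ctx (fun a => (g a).n) (fun a => wC (g a) (E a) (L a) (x a) (y a) (v a)) := by
  have h1 : PV D ctx (fun a => (g a).n) v := hv.take hg.n (fun a _ => by omega)
  exact v_qC hg hE hL hx hy (p_tot hg.n h1) h1 (v_sh hg.n hv)

theorem p_kst (hg : PG D ctx g) (hE : PolyN D ctx E) (hL : PolyN D ctx L)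
    (hx : PV D ctx (fun a => (g a).n) x) (hy : PV D ctx (fun a => (g a).n) y) {v : α → ℕ → ℕ}
    (hv : PV D ctx (fun a => 2 * (g a).n) v) :
    PolyN D ctx (fun a => kst (g a) (E a) (L a) (x a) (y a) (v a)) := by
  have hn := hg.n
  have hR := v_wR hg hE hL hx hy hv
  have hC := v_wC hg hE hL hx hy hv
  refine p_argm hn (PV.mk hn ?_) (PV.mk hn ?_)
  · exact (nU hL).mul ((v_rn hn hg.B hC).entry (k := fun a => (g a).n) (fun a _ => le_rfl))
  · exact ((nU (p_tot hn hR)).mul
      ((v_rn hn hg.A hy).entry (k := fun a => (g a).n) (fun a _ => le_rfl))).add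
      ((nU (p_tot hn hC)).mul
      ((v_rn hn hg.B hy).entry (k := fun a => (g a).n) (fun a _ => le_rfl)))

theorem p_cst (hg : PG D ctx g) (hE : PolyN D ctx E) (hL : PolyN D ctx L)
    (hx : PV D ctx (fun a => (g a).n) x) (hy : PV D ctx (fun a => (g a).n) y) {v : α → ℕ → ℕ}
    (hv : PV D ctx (fun a => 2 * (g a).n) v) :
    PolyN D ctx (fun a => cst (g a) (E a) (L a) (x a) (y a) (v a)) := by
  have hn := hg.n
  have hR := v_wR hg hE hL hx hy hv
  have hC := v_wC hg hE hL hx hy hv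
  refine p_argm hn (PV.mk hn ?_) (PV.mk hn ?_)
  · exact (nU hL).mul ((v_cn hn hg.A hR).entry (k := fun a => (g a).n) (fun a _ => le_rfl))
  · exact ((nU (p_tot hn hR)).mul
      ((v_cn hn hg.A hx).entry (k := fun a => (g a).n) (fun a _ => le_rfl))).add
      ((nU (p_tot hn hC)).mul
      ((v_cn hn hg.B hx).entry (k := fun a => (g a).n) (fun a _ => le_rfl)))

theorem v_step (hg : PG D ctx g) (hE : PolyN D ctx E) (hL : PolyN D ctx L)
    (hx : PV D ctx (fun a => (g a).n) x) (hy : PV D ctx (fun a => (g a).n) y) {v : α → ℕ → ℕ}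
    (hv : PV D ctx (fun a => 2 * (g a).n) v) :
    PV D ctx (fun a => 2 * (g a).n) (fun a => step (g a) (E a) (L a) (x a) (y a) (v a)) := by
  have hk := p_kst hg hE hL hx hy hv
  have hc := p_cst hg hE hL hx hy hv
  have h2n : PolyN D ctx (fun a => 2 * (g a).n) := (PolyN.const 2).mul hg.n
  refine PV.mk h2n ?_
  have e1 := hv.entry (k := fun a => 2 * (g a).n) (fun a _ => le_rfl)
  have e2 : PolyN (Dx D (fun a => 2 * (g a).n)) (cx ctx) (fun p =>
      if p.2 = kst (g p.1) (E p.1) (L p.1) (x p.1) (y p.1) (v p.1) then 1 else 0) :=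
    n_ite (PolyP.eq nL (nU hk)) (PolyN.const 1) (PolyN.const 0)
  have e3 : PolyN (Dx D (fun a => 2 * (g a).n)) (cx ctx) (fun p =>
      if p.2 = (g p.1).n + cst (g p.1) (E p.1) (L p.1) (x p.1) (y p.1) (v p.1) then 1 else 0) :=
    n_ite (PolyP.eq nL ((nU hg.n).add (nU hc))) (PolyN.const 1) (PolyN.const 0)
  exact (e1.add e2).add e3

end Nsh
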