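import Pool.Agent.Lib.Nsh.PVec

/-! MP_602ccf, module Nsh.PSum (poly side): payoffs, totals, maxima, argmin in polynomial time.

Read `Nsh/NDefs.lean` (definitions), `Nsh/PVec.lean` (`PV`, `PM`, `PG`: `mk`, `get`, `entry`, `up`,
`weak`, `mono`, `congr`) and the toolkit `Pool/Agent/Lib/PolyTime/Comb.lean`,
`Pool/Agent/Lib/Pa7c826/Comb2.lean`, `Pool/Agent/Lib/P8e91ed/PolyBin.lean` (`PolyN.add`, `PolyN.mul`,
`PolyN.sub`, `nSum`, `nU`, `nL`, `n_card`, `PolyP`), `Wsm/PTab.lean` (`poly_lst`).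

Proofs.  `p_tot`: `nSum hn (hx.entry ..)`.  `p_rn`: `nSum hn` of the product `M a (i a) j * y a j`:
inside the sum use `hM.up.get (nU hn) (nU hi) nL` and `hy.entry` (bounds: `i a < n a` from `hin`,
`p.2 < n p.1` from the domain).  `v_rn`: `PV.mk hn` of `p_rn` applied over the extended context
(`PM.up`, `PV.up`, `nU`, `nL`).  Same for `cn`, `pn` (`pn` is a sum of products with `rn`).
`p_top`: `top n f = ((range (tot n f)).filter (fun v => ∃ i ∈ range n, v < f i)).card` (the filter is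
`range (sup f)`; `Finset.lt_sup_iff`, and every `f i ≤ tot n f`), then `n_card` with
`PolyP.exists_range` and `PolyP.lt`.
`p_argm`: `poly_lst` (`Wsm.lst`) with `P a k := ∀ k' ∈ range (n a), F a k + G a k' ≤ F a k' + G a k`,
`PolyP.forall_range`, `PolyP.le`.
-/

set_option autoImplicit false

namespace Nsh

open Finset Pool.Agent.Lib.PolyTime Pool.Agent.Lib.Pa7c826 Pool.Agent.Lib.P8e91ed.PT
open Pool.Agent.Lib.Pa7c826t Pool.Agent.Lib

variable {α : Type*} {D : α → Prop} {ctx : List (α → List Bool)}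

theorem p_tot {n : α → ℕ} {x : α → ℕ → ℕ} (hn : PolyN D ctx n) (hx : PV D ctx n x) :
    PolyN D ctx (fun a => tot (n a) (x a)) := by
  exact nSum (f := fun a i => x a i) hn (hx.entry (fun _ _ => le_rfl))

theorem p_rn {n i : α → ℕ} {M : α → ℕ → ℕ → ℕ} {y : α → ℕ → ℕ} (hn : PolyN D ctx n)
    (hM : PM D ctx n M) (hy : PV D ctx n y) (hi : PolyN D ctx i) (hin : ∀ a, D a → i a < n a) :
    PolyN D ctx (fun a => rn (n a) (M a) (y a) (i a)) := by
  exact nSum (f := fun a j => M a (i a) j * y a j) hn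
    ((hM.up.get (nU hn) (nU hi) nL (fun p hp => hin p.1 hp.1) (fun p hp => hp.2)).mul
      (hy.entry (fun _ _ => le_rfl)))

theorem p_cn {n i : α → ℕ} {M : α → ℕ → ℕ → ℕ} {x : α → ℕ → ℕ} (hn : PolyN D ctx n)
    (hM : PM D ctx n M) (hx : PV D ctx n x) (hi : PolyN D ctx i) (hin : ∀ a, D a → i a < n a) :
    PolyN D ctx (fun a => cn (n a) (M a) (x a) (i a)) := by
  exact nSum (f := fun a j => x a j * M a j (i a)) hn
    ((hx.entry (fun _ _ => le_rfl)).mul
      (hM.up.get (nU hn) nL (nU hi) (fun p hp => hp.2) (fun p hp => hin p.1 hp.1)))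

theorem v_rn {n : α → ℕ} {M : α → ℕ → ℕ → ℕ} {y : α → ℕ → ℕ} (hn : PolyN D ctx n)
    (hM : PM D ctx n M) (hy : PV D ctx n y) : PV D ctx n (fun a => rn (n a) (M a) (y a)) := by
  exact PV.mk hn (p_rn (nU hn) hM.up hy.up nL (fun p hp => hp.2))

theorem v_cn {n : α → ℕ} {M : α → ℕ → ℕ → ℕ} {x : α → ℕ → ℕ} (hn : PolyN D ctx n)
    (hM : PM D ctx n M) (hx : PV D ctx n x) : PV D ctx n (fun a => cn (n a) (M a) (x a)) := by
  exact PV.mk hn (p_cn (nU hn) hM.up hx.up nL (fun p hp => hp.2))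

theorem p_pn {n : α → ℕ} {M : α → ℕ → ℕ → ℕ} {x y : α → ℕ → ℕ} (hn : PolyN D ctx n)
    (hM : PM D ctx n M) (hx : PV D ctx n x) (hy : PV D ctx n y) :
    PolyN D ctx (fun a => pn (n a) (M a) (x a) (y a)) := by
  exact nSum (f := fun a i => x a i * rn (n a) (M a) (y a) i) hn
    ((hx.entry (fun _ _ => le_rfl)).mul
      (p_rn (nU hn) hM.up hy.up nL (fun p hp => hp.2)))

namespace PSumAux

private theorem top_card (n : ℕ) (f : ℕ → ℕ) [DecidablePred fun v => ∃ i ∈ range n, v < f i] :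
    ((range (tot n f)).filter (fun v => ∃ i ∈ range n, v < f i)).card = top n f := by
  have h : (range (tot n f)).filter (fun v => ∃ i ∈ range n, v < f i) = range (top n f) := by
    ext v
    simp only [mem_filter, mem_range, top, Finset.lt_sup_iff]
    constructor
    · exact fun h => h.2
    · rintro ⟨i, hi, h⟩
      refine ⟨lt_of_lt_of_le h ?_, i, hi, h⟩
      exact single_le_sum (f := f) (fun _ _ => Nat.zero_le _) (mem_range.2 hi)
  rw [h, card_range]

end PSumAux

theorem p_top {n : α → ℕ} {f : α → ℕ → ℕ} (hn : PolyN D ctx n) (hf : PV D ctx n f) :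
    PolyN D ctx (fun a => top (n a) (f a)) := by
  classical
  have h1 : PolyN D ctx (fun a => ((range (tot (n a) (f a))).filter
      (fun v => ∃ i ∈ range (n a), v < f a i)).card) := by
    refine n_card (P := fun a v => ∃ i ∈ range (n a), v < f a i) (p_tot hn hf) ?_
    refine PolyP.exists_range (P := fun p i => p.2 < f p.1 i) (nU hn) ?_
    exact PolyP.lt (nU nL) ((hf.up).entry (fun _ _ => le_rfl))
  refine h1.congr (fun a _ => ?_)
  exact PSumAux.top_card (n a) (f a)

theorem p_argm {n : α → ℕ} {F G : α → ℕ → ℕ} (hn : PolyN D ctx n) (hF : PV D ctx n F)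
    (hG : PV D ctx n G) : PolyN D ctx (fun a => argm (n a) (F a) (G a)) := by
  refine Wsm.poly_lst (P := fun a k => ∀ k' ∈ range (n a), F a k + G a k' ≤ F a k' + G a k) hn ?_
  refine PolyP.forall_range (P := fun p k' => F p.1 p.2 + G p.1 k' ≤ F p.1 k' + G p.1 p.2)
    (nU hn) ?_
  exact PolyP.le
    ((nU (hF.entry (fun _ _ => le_rfl))).add ((hG.up).entry (fun _ _ => le_rfl)))
    (((hF.up).entry (fun _ _ => le_rfl)).add (nU (hG.entry (fun _ _ => le_rfl))))

end Nsh
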