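import Pool.Agent.Lib.Nsh.NDefs
import Pool.Agent.Lib.Wsm.PTab
import Pool.Agent.Lib.Pa7c826t.ArrPoly
import Pool.Agent.Lib.P2ba8ab.Arith

/-! MP_602ccf: vectors and matrices of numbers computable in polynomial time. -/

set_option autoImplicit false

namespace Nsh

open Finset Pool.Agent.Lib.PolyTime Pool.Agent.Lib.Pa7c826 Pool.Agent.Lib.P8e91ed.PT
open Pool.Agent.Lib.Pa7c826t Pool.Agent.Lib

variable {α : Type*} {D : α → Prop} {ctx : List (α → List Bool)}

/-- vector (of length `n a`) of numbers computable in polynomial time -/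
def PV (D : α → Prop) (ctx : List (α → List Bool)) (n : α → ℕ) (f : α → ℕ → ℕ) : Prop :=
  ∃ m : α → ℕ, PolyN D ctx m ∧ PolyArr D ctx m n f

/-- `n a × n a` matrix of numbers computable in polynomial time -/
def PM (D : α → Prop) (ctx : List (α → List Bool)) (n : α → ℕ) (M : α → ℕ → ℕ → ℕ) : Prop :=
  PV D ctx (fun a => n a * n a) (fun a m => M a (m / n a) (m % n a))

/-- weakening of the context, also for the contexts of `PolyC.natRec` -/
theorem nWeak {t : α → ℕ} (h : PolyN D ctx t) {E : α × ℕ → Prop} (hE : ∀ p, E p → D p.1)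
    (l : List (α × ℕ → List Bool)) : PolyN E (PolyTime.lift ctx ++ l) (fun p => t p.1) :=
  (PolyC.lift h hE).weakenRight l

theorem PV.mk {n : α → ℕ} {f : α → ℕ → ℕ} (hn : PolyN D ctx n)
    (hf : PolyN (Dx D n) (cx ctx) (fun p => f p.1 p.2)) : PV D ctx n f := by
  refine ⟨fun a => ∑ i ∈ range (n a), f a i, nSum hn hf,
    PolyArr.mk (nSum hn hf) hn hf (fun a _ i hi => ?_)⟩
  exact single_le_sum (f := fun i => f a i) (fun _ _ => Nat.zero_le _) (mem_range.2 hi)

theorem PV.get {n i : α → ℕ} {f : α → ℕ → ℕ} (h : PV D ctx n f) (hi : PolyN D ctx i)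
    (hin : ∀ a, D a → i a < n a) : PolyN D ctx (fun a => f a (i a)) := by
  obtain ⟨m, hm, h⟩ := h
  exact h.get hm hi hin

theorem PV.weak {n : α → ℕ} {f : α → ℕ → ℕ} (h : PV D ctx n f) {E : α × ℕ → Prop}
    (hE : ∀ p, E p → D p.1) (l : List (α × ℕ → List Bool)) :
    PV E (PolyTime.lift ctx ++ l) (fun p => n p.1) (fun p => f p.1) := by
  obtain ⟨m, hm, h1, h2⟩ := h
  exact ⟨fun p => m p.1, nWeak hm hE l, (PolyC.lift h1 hE).weakenRight l,
    fun p hp => h2 p.1 (hE p hp)⟩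

theorem PV.up {n k : α → ℕ} {f : α → ℕ → ℕ} (h : PV D ctx n f) :
    PV (Dx D k) (cx ctx) (fun p => n p.1) (fun p => f p.1) := h.weak (fun _ hp => hp.1) _

theorem PV.mono {D' : α → Prop} {n : α → ℕ} {f : α → ℕ → ℕ} (h : PV D ctx n f)
    (hD : ∀ a, D' a → D a) : PV D' ctx n f := by
  obtain ⟨m, hm, h⟩ := h
  exact ⟨m, PolyC.mono hm hD, h.mono hD⟩

theorem PV.congr {n : α → ℕ} {f f' : α → ℕ → ℕ} (h : PV D ctx n f)
    (e : ∀ a, D a → ∀ i < n a, f a i = f' a i) : PV D ctx n f' := by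
  obtain ⟨m, hm, h⟩ := h
  exact ⟨m, hm, h.congr e⟩

/-- the entry at the last variable of an extended context -/
theorem PV.entry {n k : α → ℕ} {f : α → ℕ → ℕ} (h : PV D ctx n f)
    (hk : ∀ a, D a → k a ≤ n a) : PolyN (Dx D k) (cx ctx) (fun p => f p.1 p.2) :=
  (h.up (k := k)).get nL (fun p hp => lt_of_lt_of_le hp.2 (hk p.1 hp.1))

theorem PM.weak {n : α → ℕ} {M : α → ℕ → ℕ → ℕ} (h : PM D ctx n M) {E : α × ℕ → Prop}
    (hE : ∀ p, E p → D p.1) (l : List (α × ℕ → List Bool)) :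
    PM E (PolyTime.lift ctx ++ l) (fun p => n p.1) (fun p => M p.1) := PV.weak h hE l

theorem PM.up {n k : α → ℕ} {M : α → ℕ → ℕ → ℕ} (h : PM D ctx n M) :
    PM (Dx D k) (cx ctx) (fun p => n p.1) (fun p => M p.1) := h.weak (fun _ hp => hp.1) _

theorem PM.mono {D' : α → Prop} {n : α → ℕ} {M : α → ℕ → ℕ → ℕ} (h : PM D ctx n M)
    (hD : ∀ a, D' a → D a) : PM D' ctx n M := PV.mono h hD

theorem PM.get {n i j : α → ℕ} {M : α → ℕ → ℕ → ℕ} (h : PM D ctx n M) (hn : PolyN D ctx n)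
    (hi : PolyN D ctx i) (hj : PolyN D ctx j) (hin : ∀ a, D a → i a < n a)
    (hjn : ∀ a, D a → j a < n a) : PolyN D ctx (fun a => M a (i a) (j a)) := by
  refine (PV.get h (i := fun a => i a * n a + j a) ((hi.mul hn).add hj) ?_).congr ?_
  · intro a ha
    calc i a * n a + j a < i a * n a + n a := by have := hjn a ha; omega
      _ = (i a + 1) * n a := by ring
      _ ≤ n a * n a := Nat.mul_le_mul_right _ (hin a ha)
  · intro a ha
    have h1 := hjn a ha
    have h2 : 0 < n a := by omega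
    have e1 : (i a * n a + j a) / n a = i a := by
      rw [mul_comm, Nat.mul_add_div h2, Nat.div_eq_of_lt h1, add_zero]
    have e2 : (i a * n a + j a) % n a = j a := by
      rw [mul_comm, Nat.mul_add_mod, Nat.mod_eq_of_lt h1]
    rw [e1, e2]

/-- writing a matrix -/
theorem PM.mk {n : α → ℕ} {M : α → ℕ → ℕ → ℕ} (hn : PolyN D ctx n)
    (hf : PolyN (Dx D (fun a => n a * n a)) (cx ctx)
      (fun p => M p.1 (p.2 / n p.1) (p.2 % n p.1))) : PM D ctx n M := PV.mk (hn.mul hn) hf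

/-- a game computable in polynomial time -/
structure PG (D : α → Prop) (ctx : List (α → List Bool)) (g : α → Gm) : Prop where
  n : PolyN D ctx (fun a => (g a).n)
  pos : ∀ a, D a → 1 ≤ (g a).n
  A : PM D ctx (fun a => (g a).n) (fun a => (g a).A)
  B : PM D ctx (fun a => (g a).n) (fun a => (g a).B)

theorem PG.weak {g : α → Gm} (h : PG D ctx g) {E : α × ℕ → Prop} (hE : ∀ p, E p → D p.1)
    (l : List (α × ℕ → List Bool)) : PG E (PolyTime.lift ctx ++ l) (fun p => g p.1) where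
  n := nWeak h.n hE l
  pos p hp := h.pos p.1 (hE p hp)
  A := h.A.weak hE l
  B := h.B.weak hE l

theorem PG.up {g : α → Gm} {k : α → ℕ} (h : PG D ctx g) :
    PG (Dx D k) (cx ctx) (fun p => g p.1) := h.weak (fun _ hp => hp.1) _

theorem PG.mono {D' : α → Prop} {g : α → Gm} (h : PG D ctx g) (hD : ∀ a, D' a → D a) :
    PG D' ctx g where
  n := PolyC.mono h.n hD
  pos a ha := h.pos a (hD a ha)
  A := h.A.mono hD
  B := h.B.mono hD

end Nsh
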