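import Pool.Agent.Lib.Nsh.Cast

/-! MP_602ccf, module Nsh.Pass: the test and the candidates (`Nsh.Cast` is a black box).

`pass_iff`: with `X`, `Y` of totals `s`, `s' ≥ 1`: `rn A Y r = N s' rv ..`, `cn B X c = N s cv ..`,
`pn = N s s' bil` (`cast_rn`, `cast_cn`, `cast_pn`), `((13 N - 40 : ℕ) : ℝ) = 13 N - 40` (`4 ≤ N`);
divide the inequalities by `40 N s s'`.
`pass_cand`: `Q = tot qr ≥ 1`, `Q' = tot qc ≥ 1`.  `Cand` has three cases.
Midpoint: `ty = 1`, `i = 0`, `h = 0`: `cdX .. 1 ..` has total `2 L Q` and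
`rl (2 L Q) (cdX ..) = cmb (1/2) (rl L x) (rl Q qr)` pointwise; the same for `cdY`.
First family, `α = i / N`, `h < n`: `ty = 2`: total `2 L Q N` and
`rl (2 L Q N) (cdX ..) = cmb (i/N) (cmb (1/2) (rl L x) (rl Q qr)) (pu h)`, `cdY = qc`.
Second family: `ty = 3`, symmetric.  Then `pass_iff` (`.2`) and monotonicity of `Good` in `θ`.
`pass_self`: `ty = 0`.
-/

namespace Nsh

open Finset

theorem pass_iff {g : Gm} {N : ℕ} (hN : 4 ≤ N) (X Y : ℕ → ℕ) :
    pass g N X Y ↔ 1 ≤ tot g.n X ∧ 1 ≤ tot g.n Y ∧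
      Good g.n (rm N g.A) (rm N g.B) (13 / 40 - 1 / N) (rl (tot g.n X) X) (rl (tot g.n Y) Y) := by
  unfold pass Good
  refine and_congr_right (fun hX => and_congr_right (fun hY => ?_))
  have hN1 : 1 ≤ N := by omega
  have hNr : (0 : ℝ) < N := by exact_mod_cast hN1
  have hXr : (0 : ℝ) < (tot g.n X : ℝ) := by exact_mod_cast hX
  have hYr : (0 : ℝ) < (tot g.n Y : ℝ) := by exact_mod_cast hY
  have hsub : ((13 * N - 40 : ℕ) : ℝ) = 13 * (N : ℝ) - 40 := by
    rw [Nat.cast_sub (by omega)]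
    push_cast
    ring
  have hpos : (0 : ℝ) < 40 * N * (tot g.n X : ℝ) * (tot g.n Y : ℝ) := by positivity
  have hθ : (13 / 40 - 1 / (N : ℝ)) * (40 * N * (tot g.n X : ℝ) * (tot g.n Y : ℝ)) =
      (13 * (N : ℝ) - 40) * ((tot g.n X : ℝ) * (tot g.n Y : ℝ)) := by
    field_simp
  refine and_congr ?_ ?_
  · refine forall_congr' (fun r => ?_)
    rw [mem_range]
    refine imp_congr_right (fun _ => ?_)
    rw [← Nat.cast_le (α := ℝ)]
    push_cast
    rw [hsub, cast_rn hN1 hY, cast_pn hN1 hX hY, ← hθ]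
    constructor
    · intro h
      rw [← mul_le_mul_iff_left₀ hpos]
      nlinarith [h]
    · intro h
      rw [← mul_le_mul_iff_left₀ hpos] at h
      nlinarith [h]
  · refine forall_congr' (fun r => ?_)
    rw [mem_range]
    refine imp_congr_right (fun _ => ?_)
    rw [← Nat.cast_le (α := ℝ)]
    push_cast
    rw [hsub, cast_cn hN1 hX, cast_pn hN1 hX hY, ← hθ]
    constructor
    · intro h
      rw [← mul_le_mul_iff_left₀ hpos]
      nlinarith [h]
    · intro h
      rw [← mul_le_mul_iff_left₀ hpos] at h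
      nlinarith [h]

private theorem pass_of {g : Gm} {N : ℕ} (hN : 4 ≤ N) {X Y : ℕ → ℕ} {s s' : ℕ}
    (hs : tot g.n X = s) (hs' : tot g.n Y = s') (h1 : 1 ≤ s) (h1' : 1 ≤ s') {u v : ℕ → ℝ}
    (hu : rl s X = u) (hv : rl s' Y = v)
    (hG : Good g.n (rm N g.A) (rm N g.B) (13 / 40 - 1 / N) u v) : pass g N X Y := by
  rw [pass_iff hN, hs, hs', hu, hv]
  exact ⟨h1, h1', hG⟩

private theorem good_mono {n : ℕ} {R C : ℕ → ℕ → ℝ} {θ θ' : ℝ} {x y : ℕ → ℝ} (hθ : θ ≤ θ')
    (h : Good n R C θ x y) : Good n R C θ' x y :=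
  ⟨fun i hi => (h.1 i hi).trans (by linarith), fun j hj => (h.2 j hj).trans (by linarith)⟩

theorem pass_self {g : Gm} {N L : ℕ} (hN : 4 ≤ N) {x y : ℕ → ℕ} (H : Ok g N L x y)
    (hf : fF g N L x y ≤ 13 / 40 - 1 / N) (qr qc : ℕ → ℕ) :
    pass g N (cdX g.n N L x qr 0 0 0) (cdY g.n N L y qc 0 0 0) := by
  have hX : cdX g.n N L x qr 0 0 0 = x := by
    funext r
    simp [cdX]
  have hY : cdY g.n N L y qc 0 0 0 = y := by
    funext r
    simp [cdY]
  rw [hX, hY]
  refine pass_of hN H.tx H.ty H.hL H.hL rfl rfl ⟨fun i hi => ?_, fun j hj => ?_⟩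
  · have h1 := (rv_le_mR (g := g) H.hN H.hL H.hn y).1 i hi
    have h2 := le_max_left (mR g N L y - bil g.n (rm N g.A) (rl L x) (rl L y))
      (mC g N L x - bil g.n (rm N g.B) (rl L x) (rl L y))
    unfold fF at hf
    linarith
  · have h1 := (cv_le_mC (g := g) H.hN H.hL H.hn x).1 j hj
    have h2 := le_max_right (mR g N L y - bil g.n (rm N g.A) (rl L x) (rl L y))
      (mC g N L x - bil g.n (rm N g.B) (rl L x) (rl L y))
    unfold fF at hf
    linarith

/-- the half sum -/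
private theorem half_tot {n L : ℕ} {x q : ℕ → ℕ} (hx : tot n x = L) :
    tot n (fun r => tot n q * x r + L * q r) = 2 * L * tot n q := by
  have h1 : tot n (fun r => tot n q * x r + L * q r) = tot n q * tot n x + L * tot n q := by
    unfold tot
    rw [sum_add_distrib, ← mul_sum, ← mul_sum]
  rw [h1, hx]
  ring

private theorem half_rl {L Q : ℕ} (hL : 1 ≤ L) (hQ : 1 ≤ Q) (x q : ℕ → ℕ) :
    rl (2 * L * Q) (fun r => Q * x r + L * q r) = cmb (1 / 2) (rl L x) (rl Q q) := by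
  have hLr : (L : ℝ) ≠ 0 := by
    have : (0 : ℝ) < L := by exact_mod_cast hL
    exact this.ne'
  have hQr : (Q : ℝ) ≠ 0 := by
    have : (0 : ℝ) < Q := by exact_mod_cast hQ
    exact this.ne'
  funext r
  unfold rl cmb
  push_cast
  field_simp
  ring

private theorem two_tot {n N L i h : ℕ} {x q : ℕ → ℕ} (hx : tot n x = L) (hi : i ≤ N)
    (hh : h < n) :
    tot n (fun r => i * (tot n q * x r + L * q r) +
      (if r = h then (N - i) * (2 * L * tot n q) else 0)) = N * (2 * L * tot n q) := by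
  have h1 : tot n (fun r => i * (tot n q * x r + L * q r) +
      (if r = h then (N - i) * (2 * L * tot n q) else 0)) =
      i * tot n (fun r => tot n q * x r + L * q r) + (N - i) * (2 * L * tot n q) := by
    unfold tot
    rw [sum_add_distrib, ← mul_sum, sum_ite_eq' (range n) h, if_pos (mem_range.2 hh)]
  rw [h1, half_tot hx, ← add_mul, Nat.add_sub_cancel' hi]

private theorem two_rl {N L Q i h : ℕ} (hN : 1 ≤ N) (hL : 1 ≤ L) (hQ : 1 ≤ Q) (hi : i ≤ N)
    (x q : ℕ → ℕ) :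
    rl (N * (2 * L * Q)) (fun r => i * (Q * x r + L * q r) +
      (if r = h then (N - i) * (2 * L * Q) else 0)) =
      cmb ((i : ℝ) / N) (cmb (1 / 2) (rl L x) (rl Q q)) (pu h) := by
  have hNr : (N : ℝ) ≠ 0 := by
    have : (0 : ℝ) < N := by exact_mod_cast hN
    exact this.ne'
  have hLr : (L : ℝ) ≠ 0 := by
    have : (0 : ℝ) < L := by exact_mod_cast hL
    exact this.ne'
  have hQr : (Q : ℝ) ≠ 0 := by
    have : (0 : ℝ) < Q := by exact_mod_cast hQ
    exact this.ne'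
  have hsub : ((N - i : ℕ) : ℝ) = (N : ℝ) - i := Nat.cast_sub hi
  funext r
  unfold rl cmb pu
  beta_reduce
  by_cases hr : r = h
  · rw [if_pos hr, if_pos hr]
    push_cast
    rw [hsub]
    field_simp
    ring
  · rw [if_neg hr, if_neg hr]
    push_cast
    field_simp
    ring

theorem pass_cand {g : Gm} {N L : ℕ} (hN : 4 ≤ N) {x y : ℕ → ℕ} (H : Ok g N L x y)
    {qr qc : ℕ → ℕ} (hQ : 1 ≤ tot g.n qr) (hQ' : 1 ≤ tot g.n qc) {θ : ℝ}
    (hθ : θ ≤ 13 / 40 - 1 / N)
    (hc : Cand g.n (rm N g.A) (rm N g.B) θ (rl L x) (rl L y) (rl (tot g.n qr) qr)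
      (rl (tot g.n qc) qc) {α | ∃ i : ℕ, i ≤ N ∧ α = (i : ℝ) / N}) :
    ∃ ty < 4, ∃ i ≤ N, ∃ h < g.n, pass g N (cdX g.n N L x qr ty i h) (cdY g.n N L y qc ty i h) := by
  have hN1 : 1 ≤ N := H.hN
  have hL := H.hL
  have hLQ : 1 ≤ 2 * L * tot g.n qr := by
    have := Nat.mul_le_mul hL hQ
    nlinarith
  have hLQ' : 1 ≤ 2 * L * tot g.n qc := by
    have := Nat.mul_le_mul hL hQ'
    nlinarith
  rcases hc with hc | ⟨h, hh, α, ⟨i, hi, rfl⟩, hc⟩ | ⟨h, hh, α, ⟨i, hi, rfl⟩, hc⟩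
  · refine ⟨1, by norm_num, 0, Nat.zero_le _, 0, H.hn, ?_⟩
    have hX : cdX g.n N L x qr 1 0 0 = fun r => tot g.n qr * x r + L * qr r := by
      funext r
      simp [cdX]
    have hY : cdY g.n N L y qc 1 0 0 = fun r => tot g.n qc * y r + L * qc r := by
      funext r
      simp [cdY]
    rw [hX, hY]
    exact pass_of hN (half_tot H.tx) (half_tot H.ty) hLQ hLQ' (half_rl hL hQ x qr)
      (half_rl hL hQ' y qc) (good_mono hθ hc)
  · refine ⟨2, by norm_num, i, hi, h, hh, ?_⟩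
    have hX : cdX g.n N L x qr 2 i h = fun r => i * (tot g.n qr * x r + L * qr r) +
        (if r = h then (N - i) * (2 * L * tot g.n qr) else 0) := by
      funext r
      simp [cdX]
    have hY : cdY g.n N L y qc 2 i h = qc := by
      funext r
      simp [cdY]
    rw [hX, hY]
    exact pass_of hN (two_tot H.tx hi hh) rfl (Nat.mul_pos hN1 hLQ) hQ'
      (two_rl hN1 hL hQ hi x qr) rfl (good_mono hθ hc)
  · refine ⟨3, by norm_num, i, hi, h, hh, ?_⟩
    have hX : cdX g.n N L x qr 3 i h = qr := by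
      funext r
      simp [cdX]
    have hY : cdY g.n N L y qc 3 i h = fun r => i * (tot g.n qc * y r + L * qc r) +
        (if r = h then (N - i) * (2 * L * tot g.n qc) else 0) := by
      funext r
      simp [cdY]
    rw [hX, hY]
    exact pass_of hN rfl (two_tot H.ty hi hh) hQ (Nat.mul_pos hN1 hLQ') rfl
      (two_rl hN1 hL hQ' hi y qc) (good_mono hθ hc)

end Nsh
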