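import Pool.Agent.Lib.Nsh.Pass

/-! MP_602ccf, module Nsh.Round: result of the algorithm and rounding of the payoffs
(`Nsh.Pass`, `Nsh.Cast` are black boxes).

`out_pass`: induction on `S`.  If a candidate of a stage `≤ S` passes: for `S = 0`, `Wsm.lst_spec`
(`Pool/Agent/Lib/Wsm/Tab.lean`) gives `pass` at `fc g N 0`.  Step: unfold `out`; if `out S` passes,
done (`if_pos`); otherwise no stage `≤ S` has a passing candidate (contrapositive of the induction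
hypothesis), so the candidate is at the stage `S + 1`: `lst_spec`.
`tab_spec`: for `0 ≤ q ≤ 1`: `tabOf p l i = #{s ∈ Icc 1 (2 ^ p) | (s : ℚ) ≤ q * 2 ^ p}` with
`q = l.getD i 0`; the filter is `Icc 1 ⌊q * 2 ^ p⌋₊` (`Nat.le_floor_iff`, and
`⌊q * 2 ^ p⌋₊ ≤ 2 ^ p` because `q ≤ 1`), so `tabOf = ⌊q * 2 ^ p⌋₊`; `Nat.floor_le`,
`Nat.lt_floor_add_one`, cast to `ℝ`, divide by `2 ^ p`.
`round_good`: with `R' i j = A' i j` (real entries) and `R = rm N A`: `R i j ≤ R' i j ≤ R i j + 1 / N`,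
so `rv R' y i ≤ rv R y i + 1 / N` and `bil R x y ≤ bil R' x y` (weights are nonnegative, sum `1`:
`mix_rl`); start from `pass_iff` (`N = 2 ^ p ≥ 4`).
-/

namespace Nsh

open Finset

theorem out_pass {g : Gm} {N S : ℕ}
    (h : ∃ s ≤ S, ∃ m < NC g.n N, pass g N (cX g N s m) (cY g N s m)) :
    pass g N (out g N S).1 (out g N S).2 := by
  induction S with
  | zero =>
    obtain ⟨s, hs, m, hm, hp⟩ := h
    obtain rfl : s = 0 := Nat.le_zero.1 hs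
    exact (Pool.Agent.Lib.Wsm.lst_spec
      (P := fun m => pass g N (cX g N 0 m) (cY g N 0 m)) ⟨m, hm, hp⟩).2.1
  | succ S ih =>
    by_cases hq : pass g N (out g N S).1 (out g N S).2
    · rw [out, if_pos hq]
      exact hq
    · rw [out, if_neg hq]
      obtain ⟨s, hs, m, hm, hp⟩ := h
      by_cases hsS : s ≤ S
      · exact absurd (ih ⟨s, hsS, m, hm, hp⟩) hq
      · obtain rfl : s = S + 1 := by omega
        exact (Pool.Agent.Lib.Wsm.lst_spec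
          (P := fun m => pass g N (cX g N (S + 1) m) (cY g N (S + 1) m)) ⟨m, hm, hp⟩).2.1

private theorem tab_eq (p : ℕ) (l : List ℚ) (i : ℕ) (h0 : 0 ≤ l.getD i 0) (h1 : l.getD i 0 ≤ 1) :
    Pool.Agent.Lib.P8e91ed.tabOf p l i = ⌊l.getD i 0 * 2 ^ p⌋₊ := by
  have hnn : 0 ≤ l.getD i 0 * 2 ^ p := by positivity
  have hle : ⌊l.getD i 0 * 2 ^ p⌋₊ ≤ 2 ^ p := by
    apply Nat.floor_le_of_le
    push_cast
    exact mul_le_of_le_one_left (by positivity) h1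
  unfold Pool.Agent.Lib.P8e91ed.tabOf
  have hfil : ((Icc 1 (2 ^ p)).filter fun s : ℕ => (s : ℚ) ≤ l.getD i 0 * 2 ^ p) =
      Icc 1 ⌊l.getD i 0 * 2 ^ p⌋₊ := by
    ext s
    rw [mem_filter, mem_Icc, mem_Icc, Nat.le_floor_iff hnn]
    constructor
    · rintro ⟨⟨h2, -⟩, h3⟩
      exact ⟨h2, h3⟩
    · rintro ⟨h2, h3⟩
      exact ⟨⟨h2, ((Nat.le_floor_iff hnn).2 h3).trans hle⟩, h3⟩
  rw [hfil, Nat.card_Icc]
  omega

theorem tab_spec (p : ℕ) (l : List ℚ) (i : ℕ) (h0 : 0 ≤ l.getD i 0) (h1 : l.getD i 0 ≤ 1) :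
    Pool.Agent.Lib.P8e91ed.tabOf p l i ≤ 2 ^ p ∧
    (Pool.Agent.Lib.P8e91ed.tabOf p l i : ℝ) / 2 ^ p ≤ ((l.getD i 0 : ℚ) : ℝ) ∧
    ((l.getD i 0 : ℚ) : ℝ) ≤ (Pool.Agent.Lib.P8e91ed.tabOf p l i : ℝ) / 2 ^ p + 1 / 2 ^ p := by
  rw [tab_eq p l i h0 h1]
  set q : ℚ := l.getD i 0 with hq
  have hnn : 0 ≤ q * 2 ^ p := by positivity
  have hpos : (0 : ℝ) < 2 ^ p := by positivity
  refine ⟨?_, ?_, ?_⟩
  · apply Nat.floor_le_of_le
    push_cast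
    exact mul_le_of_le_one_left (by positivity) h1
  · rw [div_le_iff₀ hpos]
    have h2 : ((⌊q * 2 ^ p⌋₊ : ℕ) : ℚ) ≤ q * 2 ^ p := Nat.floor_le hnn
    exact_mod_cast h2
  · rw [← add_div, le_div_iff₀ hpos]
    have h2 : q * 2 ^ p < ((⌊q * 2 ^ p⌋₊ : ℕ) : ℚ) + 1 := Nat.lt_floor_add_one _
    have h3 : ((q * 2 ^ p : ℚ) : ℝ) < (((⌊q * 2 ^ p⌋₊ : ℕ) : ℚ) + 1 : ℚ) := by exact_mod_cast h2
    push_cast at h3
    linarith

private theorem rv_le {n : ℕ} {R R' : ℕ → ℕ → ℝ} {y : ℕ → ℝ} {δ : ℝ} {i : ℕ}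
    (hR : ∀ j < n, R' i j ≤ R i j + δ) (hy : Mix n y) : rv n R' y i ≤ rv n R y i + δ := by
  have h1 : rv n R' y i ≤ ∑ j ∈ range n, (R i j * y j + δ * y j) := by
    refine sum_le_sum fun j hj => ?_
    have h2 := mul_le_mul_of_nonneg_right (hR j (mem_range.1 hj)) (hy.nn j (mem_range.1 hj))
    linarith
  rw [sum_add_distrib, ← mul_sum, hy.sum, mul_one] at h1
  exact h1

private theorem cv_le {n : ℕ} {R R' : ℕ → ℕ → ℝ} {x : ℕ → ℝ} {δ : ℝ} {j : ℕ}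
    (hR : ∀ i < n, R' i j ≤ R i j + δ) (hx : Mix n x) : cv n R' x j ≤ cv n R x j + δ := by
  have h1 : cv n R' x j ≤ ∑ i ∈ range n, (x i * R i j + δ * x i) := by
    refine sum_le_sum fun i hi => ?_
    have h2 := mul_le_mul_of_nonneg_left (hR i (mem_range.1 hi)) (hx.nn i (mem_range.1 hi))
    linarith
  rw [sum_add_distrib, ← mul_sum, hx.sum, mul_one] at h1
  exact h1

private theorem bil_mono {n : ℕ} {R R' : ℕ → ℕ → ℝ} {x y : ℕ → ℝ}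
    (hR : ∀ i < n, ∀ j < n, R i j ≤ R' i j) (hx : Mix n x) (hy : Mix n y) :
    bil n R x y ≤ bil n R' x y := by
  refine sum_le_sum fun i hi => mul_le_mul_of_nonneg_left ?_ (hx.nn i (mem_range.1 hi))
  refine sum_le_sum fun j hj => mul_le_mul_of_nonneg_right ?_ (hy.nn j (mem_range.1 hj))
  exact hR i (mem_range.1 hi) j (mem_range.1 hj)

theorem round_good {p : ℕ} (hp : 2 ≤ p) {w : ℕ × List ℚ}
    (h0 : ∀ i, 0 ≤ w.2.getD i 0) (h1 : ∀ i, w.2.getD i 0 ≤ 1) {X Y : ℕ → ℕ}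
    (h : pass (gm p w) (2 ^ p) X Y) :
    1 ≤ tot w.1 X ∧ 1 ≤ tot w.1 Y ∧
      Good w.1 (fun i j => ((w.2.getD (i * w.1 + j) 0 : ℚ) : ℝ))
        (fun i j => ((w.2.getD (w.1 * w.1 + (i * w.1 + j)) 0 : ℚ) : ℝ)) (13 / 40)
        (rl (tot w.1 X) X) (rl (tot w.1 Y) Y) := by
  have hN : 4 ≤ 2 ^ p := by
    calc 4 = 2 ^ 2 := by norm_num
      _ ≤ 2 ^ p := Nat.pow_le_pow_right (by norm_num) hp
  obtain ⟨hX, hY, hrow, hcol⟩ := (pass_iff hN X Y).1 h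
  change 1 ≤ tot w.1 X at hX
  change 1 ≤ tot w.1 Y at hY
  change ∀ i < w.1, rv w.1 (rm (2 ^ p) (gm p w).A) (rl (tot w.1 Y) Y) i ≤
    bil w.1 (rm (2 ^ p) (gm p w).A) (rl (tot w.1 X) X) (rl (tot w.1 Y) Y) +
      (13 / 40 - 1 / ((2 ^ p : ℕ) : ℝ)) at hrow
  change ∀ j < w.1, cv w.1 (rm (2 ^ p) (gm p w).B) (rl (tot w.1 X) X) j ≤
    bil w.1 (rm (2 ^ p) (gm p w).B) (rl (tot w.1 X) X) (rl (tot w.1 Y) Y) +
      (13 / 40 - 1 / ((2 ^ p : ℕ) : ℝ)) at hcol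
  have mX : Mix w.1 (rl (tot w.1 X) X) := mix_rl hX rfl
  have mY : Mix w.1 (rl (tot w.1 Y) Y) := mix_rl hY rfl
  have e : ((2 ^ p : ℕ) : ℝ) = 2 ^ p := by push_cast; rfl
  rw [e] at hrow hcol
  have tl : ∀ k, (Pool.Agent.Lib.P8e91ed.tabOf p w.2 k : ℝ) / ((2 ^ p : ℕ) : ℝ) ≤
      ((w.2.getD k 0 : ℚ) : ℝ) := fun k => by
    rw [e]; exact (tab_spec p w.2 k (h0 k) (h1 k)).2.1
  have tu : ∀ k, ((w.2.getD k 0 : ℚ) : ℝ) ≤
      (Pool.Agent.Lib.P8e91ed.tabOf p w.2 k : ℝ) / ((2 ^ p : ℕ) : ℝ) + 1 / 2 ^ p := fun k => by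
    rw [e]; exact (tab_spec p w.2 k (h0 k) (h1 k)).2.2
  refine ⟨hX, hY, fun i hi => ?_, fun j hj => ?_⟩
  · have a1 := rv_le (n := w.1) (R := rm (2 ^ p) (gm p w).A)
      (R' := fun i j => ((w.2.getD (i * w.1 + j) 0 : ℚ) : ℝ)) (i := i) (δ := 1 / 2 ^ p)
      (fun j _ => tu (i * w.1 + j)) mY
    have a2 := hrow i hi
    have a3 := bil_mono (n := w.1) (R := rm (2 ^ p) (gm p w).A)
      (R' := fun i j => ((w.2.getD (i * w.1 + j) 0 : ℚ) : ℝ))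
      (fun i _ j _ => tl (i * w.1 + j)) mX mY
    linarith
  · have a1 := cv_le (n := w.1) (R := rm (2 ^ p) (gm p w).B)
      (R' := fun i j => ((w.2.getD (w.1 * w.1 + (i * w.1 + j)) 0 : ℚ) : ℝ)) (j := j)
      (δ := 1 / 2 ^ p) (fun i _ => tu (w.1 * w.1 + (i * w.1 + j))) mX
    have a2 := hcol j hj
    have a3 := bil_mono (n := w.1) (R := rm (2 ^ p) (gm p w).B)
      (R' := fun i j => ((w.2.getD (w.1 * w.1 + (i * w.1 + j)) 0 : ℚ) : ℝ))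
      (fun i _ j _ => tl (w.1 * w.1 + (i * w.1 + j))) mX mY
    linarith

end Nsh
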