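import Pool.Agent.Lib.Nsh.Next
import Pool.Agent.Lib.Nsh.Pass
import Pool.Agent.Lib.Nsh.MinKL
import Pool.Agent.Lib.Nsh.Cert
import Pool.Agent.Lib.Nsh.Grid

/-! MP_602ccf, module Nsh.StageCore: at every stage a candidate passes the test, or the next pair
is better (all the imported modules are black boxes).

1. If `fF ≤ 13 / 40 - 1 / N`: `pass_self` (`t = 0 < TT`, `TT_pos`; `ty = 0`, `i = 0`, `h = 0`).
2. Otherwise `fF > 1 / N`, `vr = fF - 1 / N` (`vr_eq`) and `vr ≥ 13/40 - 2/N ≥ 649/2000` (`N ≥ 4000`).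
If the weighted payoff `ww` at `(kst, cst)` is `≤ 0` for all `t < TT`: right alternative by `next_le`.
3. Otherwise it is `> 0` at some `t`; `min_kl`: `ww .. k l > 0` for all `k, l < n`.  Unfold `ww`, `aR`,
`aC` and apply `cert` with `R = rm N A`, `C = rm N B`, `x = rl L x`, `y = rl L y`, `q r = wR .. r`,
`q' c = wC .. c`, `E = 8 N`, `M1 = mR`, `M2 = mC`, `V = vr`, `δ = 1 / N` (`u01_rm`, `mix_rl`,
`rv_le_mR`, `cv_le_mC`, `fF = max ..`).  `∑ (q r : ℝ) = (tot .. : ℝ)` (`Nat.cast_sum`), so
`fun i => q i / ∑ q` is `rl (tot q) q` and `1 ≤ tot`.  `game_core`, then `grid`: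
`Cand .. (649/2000 + 1/N + 2/N) .. {i / N}`, and `649/2000 + 3/N ≤ 13/40 - 1/N` (`N ≥ 8000`):
`pass_cand`.  (`Stat` contains `hw`, `hz` for the `Mix` hypotheses of `grid`.)
-/

namespace Nsh

open Finset

theorem stage_core {g : Gm} {N L μ : ℕ} (hN : 8000 ≤ N) {x y : ℕ → ℕ} (H : Ok g N L x y)
    (hL : L = TT N g.n * μ) :
    (∃ t < TT N g.n, ∃ ty < 4, ∃ i ≤ N, ∃ h < g.n,
      pass g N (cdX g.n N L x (wR g (8 * N) L x y (run g (8 * N) L x y t)) ty i h)
        (cdY g.n N L y (wC g (8 * N) L x y (run g (8 * N) L x y t)) ty i h)) ∨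
    fF g N (8 * N * L)
      (fun i => (8 * N - 1) * x i + μ * run g (8 * N) L x y (TT N g.n) i)
      (fun i => (8 * N - 1) * y i + μ * sh g.n (run g (8 * N) L x y (TT N g.n)) i) ≤
    fF g N L x y - 1 / (32 * N ^ 2) := by
  have hN0 : (8000 : ℝ) ≤ N := by exact_mod_cast hN
  have hNpos : (0 : ℝ) < N := by linarith
  have hinv : 1 / (N : ℝ) ≤ 1 / 8000 := one_div_le_one_div_of_le (by norm_num) hN0
  have hinv0 : 0 ≤ 1 / (N : ℝ) := by positivity
  by_cases hf : fF g N L x y ≤ 13 / 40 - 1 / N
  · left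
    exact ⟨0, TT_pos H.hN H.hn, 0, by norm_num, 0, Nat.zero_le _, 0, H.hn,
      pass_self (by omega) H hf _ _⟩
  · push Not at hf
    have hf1 : 1 / (N : ℝ) ≤ fF g N L x y := by
      have h8 : (1 : ℝ) / 8000 = 0.000125 := by norm_num
      linarith
    by_cases hs : ∀ t < TT N g.n, ww g N (8 * N) L x y (run g (8 * N) L x y t)
      (kst g (8 * N) L x y (run g (8 * N) L x y t))
      (cst g (8 * N) L x y (run g (8 * N) L x y t)) ≤ 0
    · right
      exact next_le H hL hf1 hs
    · left
      push Not at hs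
      obtain ⟨t, ht, hpos⟩ := hs
      have hkl : ∀ k < g.n, ∀ l < g.n,
          0 < (∑ r ∈ range g.n, (wR g (8 * N) L x y (run g (8 * N) L x y t) r : ℝ) *
            (gR g.n (rm N g.A) ((8 * N : ℕ) : ℝ) (mR g N L y) (rl L x) (rl L y) k l r -
              vr g N L x y)) +
          ∑ c ∈ range g.n, (wC g (8 * N) L x y (run g (8 * N) L x y t) c : ℝ) *
            (gC g.n (rm N g.B) ((8 * N : ℕ) : ℝ) (mC g N L x) (rl L x) (rl L y) k l c -
              vr g N L x y) := fun k hk l hl =>
        lt_of_lt_of_le hpos (min_kl H (8 * N) _ hk hl)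
      have hvr := vr_eq H hf1
      have hR := u01_rm (n := g.n) H.hN H.hA
      have hC := u01_rm (n := g.n) H.hN H.hB
      have hx := mix_rl H.hL H.tx
      have hy := mix_rl H.hL H.ty
      have hcert := cert hR hC hx hy (E := ((8 * N : ℕ) : ℝ)) (M1 := mR g N L y)
        (M2 := mC g N L x) (V := vr g N L x y) (δ := 1 / N)
        (q := fun r => (wR g (8 * N) L x y (run g (8 * N) L x y t) r : ℝ))
        (q' := fun c => (wC g (8 * N) L x y (run g (8 * N) L x y t) c : ℝ))
        (by push_cast; linarith)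
        (by
          rw [hvr]
          have h8 : (1 : ℝ) / 8000 = 0.000125 := by norm_num
          linarith)
        hinv0
        (fun r _ => Nat.cast_nonneg _) (fun c _ => Nat.cast_nonneg _)
        (rv_le_mR H.hN H.hL H.hn y).1 (cv_le_mC H.hN H.hL H.hn x).1
        (by
          rw [hvr]
          have h1 : mR g N L y - bil g.n (rm N g.A) (rl L x) (rl L y) ≤ fF g N L x y :=
            le_max_left _ _
          linarith)
        (by
          rw [hvr]
          have h1 : mC g N L x - bil g.n (rm N g.B) (rl L x) (rl L y) ≤ fF g N L x y :=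
            le_max_right _ _
          linarith)
        hkl
      obtain ⟨hq, hq', ρ, hst⟩ := hcert
      have hrl : ∀ w : ℕ → ℕ, (fun i => (w i : ℝ) / ∑ r ∈ range g.n, (w r : ℝ)) =
          rl (tot g.n w) w := by
        intro w
        funext i
        unfold rl tot
        rw [Nat.cast_sum]
      have hst' : Stat g.n (rm N g.A) (rm N g.B) (rl L x) (rl L y)
          (rl (tot g.n (wR g (8 * N) L x y (run g (8 * N) L x y t)))
            (wR g (8 * N) L x y (run g (8 * N) L x y t)))
          (rl (tot g.n (wC g (8 * N) L x y (run g (8 * N) L x y t)))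
            (wC g (8 * N) L x y (run g (8 * N) L x y t))) ρ (vr g N L x y) (1 / N) := by
        rw [← hrl, ← hrl]
        exact hst
      have hQ : 1 ≤ tot g.n (wR g (8 * N) L x y (run g (8 * N) L x y t)) := by
        have h1 : (0 : ℝ) < ((tot g.n (wR g (8 * N) L x y (run g (8 * N) L x y t)) : ℕ) : ℝ) := by
          unfold tot
          rw [Nat.cast_sum]
          exact hq
        exact_mod_cast h1
      have hQ' : 1 ≤ tot g.n (wC g (8 * N) L x y (run g (8 * N) L x y t)) := by
        have h1 : (0 : ℝ) < ((tot g.n (wC g (8 * N) L x y (run g (8 * N) L x y t)) : ℕ) : ℝ) := by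
          unfold tot
          rw [Nat.cast_sum]
          exact hq'
        exact_mod_cast h1
      have hgrid := grid H.hN hR hC hx hy hst'.hw hst'.hz (game_core hst')
      obtain ⟨ty, hty, i, hi, h, hh, hp⟩ := pass_cand (by omega) H hQ hQ' (by
        have h2 : (2 : ℝ) / N = 2 * (1 / N) := by ring
        rw [h2]
        have h8 : (1 : ℝ) / 8000 = 0.000125 := by norm_num
        linarith) hgrid
      exact ⟨t, ht, ty, hty, i, hi, h, hh, hp⟩

end Nsh
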